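import Pool.Agent.MP_6e64bc_an.H72.Po

open Finset Filter Topology Asymptotics

namespace Pool.Agent.MP_6e64bc_an.H72

/-- the real algebraic data attached to a univalent function -/
structure Alg (b : ℝ) where
  W : ℕ → ℕ → ℝ
  c : ℕ → ℕ → ℝ
  g : List ℕ → ℕ → ℝ
  supp : ∀ n k, n < k → W n k = 0
  comp : ∀ n, Comp b n (W n) (c n)
  symm : ∀ n k, k ≤ n → XW (W n) (n - k) = XW (W n) k
  jet : ∀ n i, ∑ k ∈ range (n + 1), W n k * k.choose i =
    ((rr i).map fun a => (a.2 : ℝ) * g a.1 n).sum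
  der : ∀ (l : List ℕ) (n : ℕ), ((n : ℝ) - l.sum) * g l n =
    (1 / 2 - l.length) * g (ins 1 l) n + ((dl l).map fun m => g (nf m) n).sum
  nrm : ∀ l n, g (nf l) n = g l n

variable {b : ℝ}

/-- normalised variables -/
noncomputable def XX (D : ℕ) (p : Alg b × ℕ) : Var → ℝ
  | .mon l => p.1.g l p.2 / (p.2 : ℝ) ^ l.sum
  | .cc N => p.1.c p.2 N
  | .tt => ∑ j ∈ Ico (D + 1) (p.2 + 1), p.1.c p.2 j * ((-1) ^ j * ps b (b + 1 / 2) (1 / 2) j)

/-- large degree, uniformly in the data -/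
def FF (b : ℝ) : Filter (Alg b × ℕ) := comap Prod.snd atTop

/-- norm of the variables -/
noncomputable def Nm (D : ℕ) (vs : List Var) (p : Alg b × ℕ) : ℝ :=
  √(vs.map fun v => XX D p v ^ 2).sum

theorem evF {P : ℕ → Prop} (h : ∀ᶠ n in atTop, P n) : ∀ᶠ p in FF b, P p.2 :=
  tendsto_comap.eventually h

theorem big (D : ℕ) {vs : List Var} {v : Var} (h : v ∈ vs) :
    (fun p => XX D p v) =O[FF b] Nm D vs := IsBigO.of_bound' (Eventually.of_forall fun p => by
  rw [Real.norm_eq_abs, Real.norm_eq_abs, Nm, abs_of_nonneg (Real.sqrt_nonneg _)]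
  exact Real.abs_le_sqrt (List.single_le_sum (by simp; intros; positivity) _
    (List.mem_map_of_mem h)))

theorem small {t : ℕ → ℝ} (ht : Tendsto t atTop (𝓝 0)) {u N : Alg b × ℕ → ℝ} (hu : u =O[FF b] N) :
    (fun p => t p.2 * u p) =o[FF b] N := by
  have h : (fun p : Alg b × ℕ => t p.2) =o[FF b] fun _ => (1 : ℝ) :=
    (isLittleO_one_iff ℝ).2 (ht.comp tendsto_comap)
  exact (h.mul_isBigO hu).congr_right fun _ => one_mul _

theorem ev_big (D : ℕ) {vs : List Var} : ∀ row : List (Var × ℚ), (∀ a ∈ row, a.1 ∈ vs) →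
    (fun p => ev row (XX D p)) =O[FF b] Nm D vs
  | [], _ => by simpa [ev] using isBigO_zero _ _
  | a :: row, h => by
    simpa [ev] using ((big D (h a List.mem_cons_self)).const_mul_left (a.2 : ℝ)).add
      (ev_big D row fun c hc => h c (List.mem_cons_of_mem _ hc))

theorem ev_append (r s : List (Var × ℚ)) (X : Var → ℝ) : ev (r ++ s) X = ev r X + ev s X := by
  simp [ev]

theorem ev_range (n : ℕ) (F : ℕ → ℚ) (X : Var → ℝ) :
    ev ((List.range n).map fun N => (.cc N, F N)) X = ∑ N ∈ range n, X (.cc N) * F N := by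
  induction n with
  | zero => simp [ev]
  | succ n ih => rw [List.range_succ, List.map_append, ev_append, ih, sum_range_succ]; simp [ev]; ring

theorem rowD_small (D : ℕ) {vs : List Var} {l : List ℕ} (h : Var.mon l ∈ vs) :
    (fun p => ev (rowD l) (XX D p)) =o[FF b] Nm D vs := by
  refine (small (tendsto_const_div_atTop_nhds_zero_nat (-(l.sum : ℝ))) (big D h)).congr' ?_
    EventuallyEq.rfl
  filter_upwards [evF (eventually_gt_atTop 0)] with ⟨A, n⟩ hn
  have h0 : (n : ℝ) ≠ 0 := by positivity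
  have h1 : ((dl l).map fun m => XX D (A, n) (.mon (nf m))).sum =
      ((dl l).map fun m => A.g (nf m) n).sum / n ^ (l.sum + 1) := by
    rw [div_eq_mul_inv, ← List.sum_map_mul_right]
    exact congrArg _ (List.map_congr_left fun m hm => by
      simp only [XX, sum_nf, sum_dl l m hm, div_eq_mul_inv])
  have h2 := A.der l n
  simp only [ev, rowD, List.map_cons, List.sum_cons, List.map_map, Function.comp_def, Rat.cast_one,
    one_mul, h1]
  simp only [XX, sum_ins, add_comm 1 l.sum, pow_succ]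
  push_cast at h2 ⊢
  field_simp
  linear_combination 2 * h2

/-- rising moment -/
noncomputable def mom (a : ℝ) (e : ℕ) (p : Alg b × ℕ) : ℝ :=
  (∑ k ∈ range (p.2 + 1), XW (p.1.W p.2) k * po (a + k) e) / (p.2 : ℝ) ^ e

theorem cut {e n : ℕ} (h : e ≤ n) (a : ℝ) (c s : ℕ → ℝ) :
    ∑ N ∈ range (n + 1), c N * (s N * ps b a e N) = ∑ N ∈ range (e + 1), c N * (s N * ps b a e N) :=
  (sum_subset (range_subset_range.2 (by omega)) fun N _ hN => by
    simp [ps, po_neg (show e < N by simpa using hN)]).symm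

theorem mom_w {q : ℚ} (hq : 0 < (q : ℝ)) (D e : ℕ) (p : Alg q × ℕ) (h : e ≤ p.2) :
    mom (1 / 2) e p = po ((q : ℝ) + 1 + p.2) e / (p.2 : ℝ) ^ e * ev (cw q e) (XX D p) := by
  obtain ⟨A, n⟩ := p
  have h1 := (A.comp n).1 e (by positivity)
  have h2 := cut (b := q) h (1 / 2) (A.c n) fun _ => 1
  simp only [one_mul] at h2
  simp only [po_swap (show (0 : ℝ) < 1 / 2 by norm_num) e,
    po_swap (show (0 : ℝ) < q + 1 by positivity) e, h2] at h1
  simp only [← mul_div_assoc, ← sum_div] at h1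
  have h3 := (po_pos (show (0 : ℝ) < 1 / 2 by norm_num) e).ne'
  rw [div_eq_iff h3] at h1
  rw [mom, h1, cw, ev_range]
  simp only [XX, Rat.cast_mul, Rat.cast_div, po_cast, ps_cast, mul_left_comm (A.c n _), ← mul_sum]
  push_cast; ring

theorem mom_z {q : ℚ} (hq : 0 < (q : ℝ)) (D e : ℕ) (p : Alg q × ℕ) (h : e ≤ p.2) :
    mom (q + 1 / 2) e p = -(po ((q : ℝ) + 1 + p.2) e / (p.2 : ℝ) ^ e * ev (cz q e) (XX D p)) := by
  obtain ⟨A, n⟩ := p
  have h1 := (A.comp n).2 e (by positivity)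
  have h2 := cut (b := q) h (q + 1 / 2) (A.c n) fun N => (-1) ^ N
  rw [← sum_range_reflect, sum_congr rfl (g := fun k => XW (A.W n) k *
      (po ((q : ℝ) + 1 / 2 + e) k / po ((q : ℝ) + 1 / 2) k)) fun k hk => by
    have : k ≤ n := by simpa [Nat.lt_succ_iff] using hk
    rw [add_tsub_cancel_right, A.symm n k this, tsub_tsub_cancel_of_le this]] at h1
  simp only [po_swap (show (0 : ℝ) < q + 1 / 2 by positivity) e,
    po_swap (show (0 : ℝ) < q + 1 by positivity) e, h2] at h1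
  simp only [← mul_div_assoc, ← sum_div] at h1
  have h3 := (po_pos (show (0 : ℝ) < q + 1 / 2 by positivity) e).ne'
  rw [div_eq_iff h3] at h1
  rw [mom, h1, cz, ev_range]
  simp only [XX, Rat.cast_mul, Rat.cast_div, Rat.cast_neg, po_cast, ps_cast, mul_neg,
    mul_left_comm (A.c n _) (_ / _), sum_neg_distrib, ← mul_sum]
  push_cast; ring

theorem cw_big (q : ℚ) {D e : ℕ} {vs : List Var} (hv : ∀ N ≤ D, Var.cc N ∈ vs) (h : e ≤ D) :
    (fun p => ev (cw q e) (XX D p)) =O[FF q] Nm D vs := ev_big D _ fun a ha => by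
  obtain ⟨N, hN, rfl⟩ := List.mem_map.1 ha
  exact hv N (by have := List.mem_range.1 hN; omega)

theorem mom_small {q : ℚ} (hq : 0 < (q : ℝ)) {D e : ℕ} {vs : List Var}
    (hv : ∀ N ≤ D, Var.cc N ∈ vs) (h : e ≤ D) (a : ℝ) :
    (fun p => ev (cw q e) (XX D p) - mom a e p) =o[FF q] Nm D vs := by
  have h1 : ∀ i ≤ D, (fun p => ev (cw q i) (XX D p) - mom (1 / 2) i p) =o[FF q] Nm D vs :=
    fun i hi => by
      have t := (po_lim (q + 1) i).const_sub 1
      rw [sub_self] at t
      refine (small t (cw_big q hv hi)).congr' ?_ EventuallyEq.rfl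
      filter_upwards [evF (eventually_ge_atTop i)] with p hp
      rw [mom_w hq D i p hp]; ring
  have h2 : ∀ i ∈ range e, (fun p : Alg q × ℕ => (e.choose i * po (a - 1 / 2) (e - i) /
      (p.2 : ℝ) ^ (e - i)) * mom (1 / 2) i p) =o[FF q] Nm D vs := fun i hi => by
    have hi := mem_range.1 hi
    refine small (t := fun n => e.choose i * po (a - 1 / 2) (e - i) / (n : ℝ) ^ (e - i))
      (tendsto_const_nhds.div_atTop ((tendsto_pow_atTop (by omega)).comp
        tendsto_natCast_atTop_atTop)) ?_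
    simpa using (cw_big q hv (by omega : i ≤ D)).sub (h1 i (by omega)).isBigO
  refine ((h1 e h).sub (IsLittleO.sum h2)).congr' ?_ EventuallyEq.rfl
  filter_upwards [evF (eventually_gt_atTop 0)] with ⟨A, n⟩ hn
  have h0 : (n : ℝ) ≠ 0 := by positivity
  have h3 : ∀ k : ℕ, po (a + k) e = ∑ i ∈ range (e + 1),
      (e.choose i : ℝ) * (po ((1 : ℝ) / 2 + k) i * po (a - 1 / 2) (e - i)) := fun k => by
    rw [show a + k = 1 / 2 + k + (a - 1 / 2) by ring, po_vdm, Nat.sum_antidiagonal_eq_sum_range_succ_mk]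
  rw [sub_sub, sub_right_inj]
  simp only [Finset.sum_apply, mom, h3, mul_sum]
  rw [sum_comm (t := range (e + 1)), sum_range_succ (n := e), add_div, add_comm, sum_div (range e)]
  refine congrArg₂ (· + ·) (sum_congr rfl fun i hi => ?_) (by simp [po])
  have : (n : ℝ) ^ e = n ^ (e - i) * n ^ i := by
    rw [← pow_add, Nat.sub_add_cancel (mem_range.1 hi).le]
  rw [this, div_mul_div_comm, mul_sum]
  exact congrArg (· / _) (sum_congr rfl fun k _ => by ring)

theorem rowJ_small {q : ℚ} (hq : 0 < (q : ℝ)) {D e : ℕ} {vs : List Var}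
    (hv : ∀ N ≤ D, Var.cc N ∈ vs) (h : e ≤ D) (hr : ∀ a ∈ rr e, a.1.sum = e) :
    (fun p => ev (rowJ q e) (XX D p)) =o[FF q] Nm D vs := by
  refine (mom_small hq hv h (1 - e)).congr_left fun ⟨A, n⟩ => ?_
  rw [rowJ, ev_append, sub_eq_add_neg, add_right_inj]
  simp only [mom, po_desc, mul_left_comm _ (e.factorial : ℝ), ← mul_sum,
    parts_choose (A.supp n _ n.lt_succ_self), A.jet, ev, List.map_map]
  rw [← mul_assoc, ← List.sum_map_mul_left, div_eq_mul_inv, ← List.sum_map_mul_right,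
    ← neg_one_mul, ← List.sum_map_mul_left]
  refine congrArg _ (List.map_congr_left fun a ha => ?_)
  simp only [Function.comp, XX, hr a ha]
  push_cast; ring

theorem rowS_small {q : ℚ} (hq : 0 < (q : ℝ)) {D e : ℕ} {vs : List Var}
    (hv : ∀ N ≤ D, Var.cc N ∈ vs) (h : e ≤ D) :
    (fun p => ev (rowS q e) (XX D p)) =o[FF q] Nm D vs := by
  have t := (po_lim (q + 1) e).const_sub 1
  rw [sub_self] at t
  have hz : (fun p => ev (cz q e) (XX D p)) =O[FF q] Nm D vs := ev_big D _ fun a ha => by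
    obtain ⟨N, hN, rfl⟩ := List.mem_map.1 ha
    exact hv N (by have := List.mem_range.1 hN; omega)
  refine ((mom_small hq hv h (q + 1 / 2)).add (small t hz)).congr' ?_ EventuallyEq.rfl
  filter_upwards [evF (eventually_ge_atTop e)] with p hp
  rw [mom_z hq D e p hp, rowS, ev_append]; ring

/-- the fractional moment -/
noncomputable def er (p : Alg b × ℕ) : ℝ :=
  ∑ k ∈ range (p.2 + 1), p.1.W p.2 k * (po b k / po (b + 1 / 2) k)

theorem rowI_eq {q : ℚ} (hq : 0 < (q : ℝ)) {D : ℕ} (p : Alg q × ℕ) (h : D ≤ p.2) :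
    bw q p.2 0 * ev (rowI q D) (XX D p) ^ 2 ≤ (q + 1) / q * (bw q p.2 1 * er p ^ 2) := by
  obtain ⟨A, n⟩ := p
  have h1 := (A.comp n).2 (1 / 2) (by positivity)
  rw [← sum_range_reflect, sum_congr rfl (g := fun k => XW (A.W n) k *
      (po ((q : ℝ) + 1) k / po ((q : ℝ) + 1 / 2) k)) fun k hk => by
    have : k ≤ n := by simpa [Nat.lt_succ_iff] using hk
    rw [add_tsub_cancel_right, A.symm n k this, tsub_tsub_cancel_of_le this, add_assoc, add_halves],
    parts_frac (A.supp n _ n.lt_succ_self) hq, ← sum_range_add_sum_Ico (fun N => A.c n N * _)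
      (show D + 1 ≤ n + 1 from Nat.succ_le_succ h),
    show (q : ℝ) + 1 + 1 / 2 = q + 3 / 2 by ring] at h1
  have h2 : ev (rowI q D) (XX D (A, n)) = po ((q : ℝ) + 1) n / po ((q : ℝ) + 3 / 2) n * er (A, n) := by
    have a1 := (po_pos (show (0 : ℝ) < q + 1 by positivity) n).ne'
    have a2 := (po_pos (show (0 : ℝ) < q + 3 / 2 by positivity) n).ne'
    rw [er]; dsimp only; rw [h1, ← mul_assoc, div_mul_div_cancel₀ a2, div_self a1, one_mul, add_comm]
    refine (ev_append [_] _ _).trans ?_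
    rw [ev_range]
    simp [ev, XX, ps_cast]
  have h3 := ratio_le hq n
  have h4 := bw_pos hq n 0
  rw [h2, bw_eq hq n 1, mul_pow]
  simp only [po, one_mul, Nat.cast_zero, add_zero]
  have h5 : (0 : ℝ) < q + 1 + n := by positivity
  rw [← le_div_iff₀ h5] at h3
  calc _ ≤ bw q n 0 * ((q + 1) / (q + 1 + n) * er (A, n) ^ 2) := by gcongr
    _ = _ := by field_simp

end Pool.Agent.MP_6e64bc_an.H72
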