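import Pool.Agent.MP_6e64bc_an.H72.Spec

/-! Moments of the beta distribution, termwise integration, Parseval for absolutely convergent
trigonometric series. -/

open MeasureTheory ProbabilityTheory Set Filter Topology
open scoped ComplexConjugate
open Pool.Agent.MP_6e64bc_an.H80

namespace Pool.Agent.MP_6e64bc_an.H72.Beta

/-! ### rising factorials -/

@[simp] theorem po_zero {K : Type} [Field K] (a : K) : po a 0 = 1 := rfl

theorem po_succ {K : Type} [Field K] (a : K) (n : ℕ) : po a (n + 1) = po a n * (a + n) := rfl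

theorem po_add {K : Type} [Field K] (a : K) (m n : ℕ) : po a (m + n) = po a m * po (a + m) n := by
  induction n with
  | zero => simp
  | succ n ih => rw [← add_assoc, po_succ, po_succ, ih]; push_cast; ring

theorem po_pos {a : ℝ} (ha : 0 < a) (n : ℕ) : 0 < po a n := by
  induction n with
  | zero => simp
  | succ n ih => rw [po_succ]; positivity

theorem po_one (n : ℕ) : po (1 : ℝ) n = n.factorial := by
  induction n with
  | zero => simp
  | succ n ih => rw [po_succ, ih, Nat.factorial_succ]; push_cast; ring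

theorem gamma_po {a : ℝ} (ha : 0 < a) (n : ℕ) : Real.Gamma (a + n) = Real.Gamma a * po a n := by
  induction n with
  | zero => simp
  | succ n ih =>
    rw [po_succ, Nat.cast_succ, ← add_assoc, Real.Gamma_add_one (by positivity), ih]; ring

theorem bw_pos {b : ℝ} (hb : 0 < b) (m w : ℕ) : 0 < bw b m w :=
  div_pos (mul_pos (by positivity) (po_pos hb w)) (po_pos (by linarith) _)

/-! ### the beta distribution -/

variable {a b : ℝ} {E : Type} [NormedAddCommGroup E] [NormedSpace ℝ E]

theorem prob (ha : 0 < a) (hb : 0 < b) : IsProbabilityMeasure (betaMeasure a b) :=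
  isProbabilityMeasureBeta ha hb

theorem pdf_nonneg (ha : 0 < a) (hb : 0 < b) (x : ℝ) : 0 ≤ betaPDFReal a b x := by
  by_cases h : 0 < x ∧ x < 1
  · exact (betaPDFReal_pos h.1 h.2 ha hb).le
  · rw [betaPDFReal, if_neg h]

theorem meas_pdf (a b : ℝ) : Measurable (betaPDF a b) :=
  (measurable_betaPDFReal a b).ennreal_ofReal

theorem ae_Ioo (a b : ℝ) : ∀ᵐ t ∂betaMeasure a b, t ∈ Ioo (0 : ℝ) 1 := by
  rw [betaMeasure, ae_withDensity_iff (meas_pdf a b)]
  refine Eventually.of_forall fun x hx => ?_
  by_contra h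
  exact hx (by
    rw [betaPDF_eq, if_neg (show ¬ (0 < x ∧ x < 1) from h), ENNReal.ofReal_zero])

theorem ae_Icc (a b : ℝ) : ∀ᵐ t ∂betaMeasure a b, t ∈ Icc (0 : ℝ) 1 :=
  (ae_Ioo a b).mono fun _ h => Ioo_subset_Icc_self h

theorem int_beta (ha : 0 < a) (hb : 0 < b) (F : ℝ → E) :
    ∫ t, F t ∂betaMeasure a b = ∫ t, betaPDFReal a b t • F t := by
  rw [betaMeasure, integral_withDensity_eq_integral_toReal_smul (meas_pdf a b)
    (Eventually.of_forall fun _ => ENNReal.ofReal_lt_top)]
  simp only [betaPDF, ENNReal.toReal_ofReal (pdf_nonneg ha hb _)]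

theorem intg_beta (ha : 0 < a) (hb : 0 < b) (F : ℝ → E) :
    Integrable F (betaMeasure a b) ↔ Integrable fun t => betaPDFReal a b t • F t := by
  rw [betaMeasure, integrable_withDensity_iff_integrable_smul' (meas_pdf a b)
    (Eventually.of_forall fun _ => ENNReal.ofReal_lt_top)]
  simp only [betaPDF, ENNReal.toReal_ofReal (pdf_nonneg ha hb _)]

theorem int_pdf (ha : 0 < a) (hb : 0 < b) : ∫ t, betaPDFReal a b t = 1 := by
  have := prob ha hb
  simpa using (int_beta ha hb fun _ => (1 : ℝ)).symm

theorem intg_pdf (ha : 0 < a) (hb : 0 < b) : Integrable (betaPDFReal a b) := by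
  have := prob ha hb
  simpa using (intg_beta ha hb fun _ => (1 : ℝ)).1 (integrable_const _)

theorem pdf_mul {s r : ℝ} (has : 0 < a + s) (hbr : 0 < b + r) (t : ℝ) :
    betaPDFReal a b t • (t ^ s * (1 - t) ^ r) =
      beta (a + s) (b + r) / beta a b * betaPDFReal (a + s) (b + r) t := by
  by_cases h : 0 < t ∧ t < 1
  · have := (beta_pos has hbr).ne'
    rw [betaPDFReal, betaPDFReal, if_pos h, if_pos h, show a + s - 1 = a - 1 + s by ring,
      show b + r - 1 = b - 1 + r by ring, Real.rpow_add h.1, Real.rpow_add (by linarith [h.2]),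
      smul_eq_mul]
    field_simp
  · rw [betaPDFReal, betaPDFReal, if_neg h, if_neg h, zero_smul, mul_zero]

/-- moments with real exponents -/
theorem mom_rpow (ha : 0 < a) (hb : 0 < b) {s r : ℝ} (has : 0 < a + s) (hbr : 0 < b + r) :
    ∫ t, t ^ s * (1 - t) ^ r ∂betaMeasure a b = beta (a + s) (b + r) / beta a b := by
  rw [int_beta ha hb]
  simp only [pdf_mul has hbr]
  rw [integral_const_mul, int_pdf has hbr, mul_one]

theorem intg_rpow (ha : 0 < a) (hb : 0 < b) {s r : ℝ} (has : 0 < a + s) (hbr : 0 < b + r) :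
    Integrable (fun t : ℝ => t ^ s * (1 - t) ^ r) (betaMeasure a b) := by
  rw [intg_beta ha hb]
  simp only [pdf_mul has hbr]
  exact (intg_pdf has hbr).const_mul _

/-- moments -/
theorem mom (ha : 0 < a) (hb : 0 < b) (k w : ℕ) :
    ∫ t, t ^ k * (1 - t) ^ w ∂betaMeasure a b = po a k * po b w / po (a + b) (k + w) := by
  have h := mom_rpow ha hb (s := k) (r := w) (by positivity) (by positivity)
  simp only [Real.rpow_natCast] at h
  have h1 := (Real.Gamma_pos_of_pos ha).ne'
  have h2 := (Real.Gamma_pos_of_pos hb).ne'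
  have h3 := (Real.Gamma_pos_of_pos (add_pos ha hb)).ne'
  have h4 := (po_pos (add_pos ha hb) (k + w)).ne'
  rw [h, beta, beta, show a + k + (b + w) = a + b + (k + w : ℕ) by push_cast; ring, gamma_po ha,
    gamma_po hb, gamma_po (add_pos ha hb)]
  field_simp

theorem mom_pow (ha : 0 < a) (hb : 0 < b) (k : ℕ) :
    ∫ t, t ^ k ∂betaMeasure a b = po a k / po (a + b) k := by
  simpa using mom ha hb k 0

theorem mom_bw (hb : 0 < b) (m w : ℕ) :
    ∫ u, u ^ m * (1 - u) ^ w ∂betaMeasure 1 b = bw b m w := by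
  rw [mom one_pos hb, po_one, bw, add_comm 1 b]

omit [NormedSpace ℝ E] in
theorem intg_on (ha : 0 < a) (hb : 0 < b) {F : ℝ → E} (hF : ContinuousOn F (Icc 0 1)) :
    Integrable F (betaMeasure a b) := by
  have := prob ha hb
  rw [← Measure.restrict_eq_self_of_ae_mem (ae_Icc a b)]
  exact hF.integrableOn_compact isCompact_Icc

/-- termwise integration -/
theorem hasSum_beta [CompleteSpace E] (ha : 0 < a) (hb : 0 < b) {ι : Type} [Countable ι]
    {F : ι → ℝ → E} {G : ℝ → E} {B : ι → ℝ} (hF : ∀ n, ContinuousOn (F n) (Icc 0 1))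
    (hB : Summable B) (h : ∀ n, ∀ t ∈ Ioo (0 : ℝ) 1, ‖F n t‖ ≤ B n)
    (hs : ∀ t ∈ Ioo (0 : ℝ) 1, HasSum (fun n => F n t) (G t)) :
    HasSum (fun n => ∫ t, F n t ∂betaMeasure a b) (∫ t, G t ∂betaMeasure a b) := by
  have := prob ha hb
  have h1 := hasSum_integral_of_summable_integral_norm (μ := betaMeasure a b)
    (fun n => intg_on ha hb (hF n))
    (Summable.of_nonneg_of_le (fun n => integral_nonneg fun _ => norm_nonneg _)
      (fun n => by
        simpa using integral_mono_ae (intg_on ha hb (hF n)).norm (integrable_const (B n))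
          ((ae_Ioo a b).mono (h n))) hB)
  rwa [integral_congr_ae ((ae_Ioo a b).mono fun t ht => (hs t ht).tsum_eq)] at h1

/-! ### absolutely convergent trigonometric series -/

/-- the sum of the series -/
noncomputable def tr (c : ℕ → ℂ) (x : ℝ) : ℂ := ∑' n, c n * ee (n * x)

variable {c d : ℕ → ℂ}

theorem hasSum_tr (hc : Summable fun n => ‖c n‖) (x : ℝ) :
    HasSum (fun n => c n * ee (n * x)) (tr c x) :=
  (Summable.of_norm (by simpa using hc)).hasSum

theorem cont_tr (hc : Summable fun n => ‖c n‖) : Continuous (tr c) :=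
  continuous_tsum (fun n => by fun_prop) hc fun n x => by simp

theorem norm_tr (hc : Summable fun n => ‖c n‖) (x : ℝ) : ‖tr c x‖ ≤ ∑' n, ‖c n‖ :=
  tsum_of_norm_bounded hc.hasSum fun n => by simp

theorem int_ee_ee (n : ℕ) (m : ℤ) :
    ∫ x, ee (n * x) * ee (-(m * x)) ∂mu = if (n : ℤ) = m then 1 else 0 := by
  have e : ∀ x : ℝ, ee (n * x) * ee (-(m * x)) = ee (((n : ℤ) - m : ℤ) * x) := fun x => by
    rw [← ee_add]; congr 1; push_cast; ring
  simp only [e]
  split_ifs with h
  · simp [h]
  · exact int_ee (sub_ne_zero.2 h)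

theorem hasSum_fc (hc : Summable fun n => ‖c n‖) (m : ℤ) :
    HasSum (fun n : ℕ => c n * if (n : ℤ) = m then 1 else 0) (fc (tr c) m) := by
  have := hasSum_int (F := fun n x => c n * ee (n * x) * ee (-(m * x)))
    (G := fun x => tr c x * ee (-(m * x))) (fun n => by fun_prop) hc (b := fun _ => 1)
    continuous_const (fun n x => by simp) fun x => (hasSum_tr hc x).mul_right _
  simpa only [fc, mul_assoc (c _), integral_const_mul, int_ee_ee] using this

theorem fc_tr (hc : Summable fun n => ‖c n‖) (m : ℕ) : fc (tr c) m = c m := by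
  refine (hasSum_fc hc m).unique ?_
  simpa using hasSum_single (f := fun n : ℕ => c n * if (n : ℤ) = m then 1 else 0) m
    fun n hn => by simp [hn]

theorem fc_tr_neg (hc : Summable fun n => ‖c n‖) {m : ℤ} (hm : m < 0) : fc (tr c) m = 0 := by
  refine (hasSum_fc hc m).unique ?_
  have : ∀ n : ℕ, (n : ℤ) ≠ m := fun n => by omega
  simp [this]

/-- Parseval for two series -/
theorem pars_two (hc : Summable fun n => ‖c n‖) (hd : Summable fun n => ‖d n‖) :
    HasSum (fun n => c n * conj (d n)) (∫ x, tr c x * conj (tr d x) ∂mu) := by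
  have hcd := cont_tr hd
  have := hasSum_int (F := fun n x => c n * ee (n * x) * conj (tr d x))
    (G := fun x => tr c x * conj (tr d x)) (fun n => by fun_prop) hc (b := fun x => ‖tr d x‖)
    hcd.norm (fun n x => by simp) fun x => (hasSum_tr hc x).mul_right _
  refine this.congr_fun fun n => ?_
  rw [← fc_tr hd n, fc, ← integral_conj, ← integral_const_mul]
  congr 1; ext x
  rw [map_mul, ee_neg, Complex.conj_conj]; push_cast; ring

/-- Parseval -/
theorem pars_one (hc : Summable fun n => ‖c n‖) :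
    HasSum (fun n => ‖c n‖ ^ 2) (∫ x, ‖tr c x‖ ^ 2 ∂mu) := by
  have h := pars_two hc hc
  simp only [Complex.mul_conj, Complex.normSq_eq_norm_sq] at h
  exact_mod_cast h

end Pool.Agent.MP_6e64bc_an.H72.Beta
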