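import Pool.Agent.MP_6e64bc_an.H72.Spec

open Finset

namespace Pool.Agent.MP_6e64bc_an.H72

/-- variables of the certificate -/
inductive Var where
  | mon : List ℕ → Var
  | cc : ℕ → Var
  | tt : Var
  deriving DecidableEq

/-- integer dot product -/
def dot : List ℤ → List ℤ → ℤ
  | a :: u, b :: v => a * b + dot u v
  | _, _ => 0

/-- dot product with accumulators for the positive and the negative part -/
noncomputable def fd (u : List ℤ) : List ℤ → ℕ → ℕ → ℤ :=
  List.rec (fun _ p n => Int.subNatNat p n)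
    (fun a _ ih v p n => List.rec (Int.subNatNat p n) (fun b v _ =>
      Int.rec
        (fun x => Int.rec (fun y => ih v (Nat.add p (Nat.mul x y)) n)
          (fun y => ih v p (Nat.add n (Nat.mul x (Nat.succ y)))) b)
        (fun x => Int.rec (fun y => ih v p (Nat.add n (Nat.mul (Nat.succ x) y)))
          (fun y => ih v (Nat.add p (Nat.mul (Nat.succ x) (Nat.succ y))) n) b) a) v) u

theorem fd_eq : ∀ (u v : List ℤ) (p n : ℕ), fd u v p n = p - n + dot u v
  | [], _, p, n => by simp [fd, dot, Int.subNatNat_eq_coe]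
  | _ :: _, [], p, n => by simp [fd, dot, Int.subNatNat_eq_coe]
  | .ofNat x :: u, .ofNat y :: v, p, n => (fd_eq u v _ _).trans (by simp [dot]; ring)
  | .ofNat x :: u, .negSucc y :: v, p, n =>
    (fd_eq u v _ _).trans (by simp [dot, Int.negSucc_eq]; ring)
  | .negSucc x :: u, .ofNat y :: v, p, n =>
    (fd_eq u v _ _).trans (by simp [dot, Int.negSucc_eq]; ring)
  | .negSucc x :: u, .negSucc y :: v, p, n =>
    (fd_eq u v _ _).trans (by simp [dot, Int.negSucc_eq]; ring)

theorem fd_zero (u v : List ℤ) : fd u v 0 0 = dot u v := by simp [fd_eq]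

/-- data of one variable -/
structure Rc where
  v : Var
  ez : ℤ
  tau : ℤ
  wt : ℕ
  fib : List (ℕ × ℕ)
  rc : List ℤ
  ml : ℤ
  l2 : List ℤ

/-- row of the sum of squares factor -/
def lk (L : List (List (List ℤ))) (i j : ℕ) : List ℤ := (L.getD i []).getD j []

/-- gathered Gram entry -/
def gat (L : List (List (List ℤ))) (f g : List (ℕ × ℕ)) : ℤ :=
  (f.map fun a => (g.map fun c => dot (lk L a.1 c.2) (lk L c.1 a.2)).sum).sum

/-- remainder entry -/
def ent (L : List (List (List ℤ))) (pz : List ℤ) (sc : ℕ) (r s : Rc) : ℤ :=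
  dot r.rc s.rc - pz.getD (r.wt + s.wt) 0 * gat L r.fib s.fib - sc * (dot r.l2 s.l2 * (r.ml * s.ml))

/-- remainder entry, fast form -/
noncomputable def ent' (L : List (List (List ℤ))) (pz : List ℤ) (sc : ℕ) (r s : Rc) : ℤ :=
  fd r.rc s.rc 0 0 - pz.getD (r.wt + s.wt) 0 *
    (r.fib.map fun a => (s.fib.map fun c => fd (lk L a.1 c.2) (lk L c.1 a.2) 0 0).sum).sum -
      sc * (fd r.l2 s.l2 0 0 * (r.ml * s.ml))

theorem ent_eq : ent' = ent := by
  ext L pz sc r s; simp only [ent', ent, gat, fd_zero]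

/-- check of one row of the remainder -/
noncomputable def okr (L : List (List (List ℤ))) (pz : List ℤ) (sc : ℕ) (V : ℤ) : List Rc → Bool
  | [] => true
  | r :: t => decide (1 ≤ r.tau) && decide ((V + 1) * (r.tau * r.tau) ≤ r.ez + ent' L pz sc r r) &&
      t.all fun s => decide ((ent' L pz sc r s).natAbs ≤ (r.tau * s.tau).natAbs)

theorem dot_comm : ∀ u v : List ℤ, dot u v = dot v u
  | [], [] => rfl
  | [], _ :: _ => rfl
  | _ :: _, [] => rfl
  | a :: u, b :: v => by rw [dot, dot, dot_comm u v, mul_comm]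

theorem dot_eq : ∀ (n : ℕ) (u v : List ℤ), u.length ≤ n →
    dot u v = ∑ c ∈ range n, u.getD c 0 * v.getD c 0
  | _, [], _, _ => by simp [dot]
  | _, _ :: _, [], _ => by simp [dot]
  | 0, _ :: _, _ :: _, h => by simp at h
  | n + 1, a :: u, b :: v, h => by
    rw [dot, dot_eq n u v (by simpa using h), sum_range_succ', add_comm]; simp

theorem lsum_comm {α β : Type} (f : List α) (g : List β) (F : α → β → ℤ) :
    (f.map fun a => (g.map fun c => F a c).sum).sum =
      (g.map fun c => (f.map fun a => F a c).sum).sum := by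
  induction f with
  | nil => simp
  | cons a f ih => simp [ih, List.sum_map_add]

theorem ent_comm (L : List (List (List ℤ))) (pz : List ℤ) (sc : ℕ) (r s : Rc) :
    ent L pz sc r s = ent L pz sc s r := by
  have : gat L r.fib s.fib = gat L s.fib r.fib := by
    rw [gat, gat, lsum_comm]
    congr 2; ext a; congr 2; ext c; exact dot_comm _ _
  rw [ent, ent, dot_comm r.rc, dot_comm r.l2, add_comm r.wt, this, mul_comm r.ml]

theorem sq_dot {V : ℕ} (u : ℕ → List ℤ) (x : ℕ → ℝ) {n : ℕ} (h : ∀ a < V, (u a).length ≤ n) :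
    ∑ a ∈ range V, ∑ b ∈ range V, (dot (u a) (u b) : ℝ) * (x a * x b) =
      ∑ c ∈ range n, (∑ a ∈ range V, ((u a).getD c 0 : ℝ) * x a) ^ 2 := by
  simp only [sq, sum_mul_sum]
  rw [sum_comm' (s := range n) (t' := range V) (s' := fun _ => range n) (t := fun _ => range V)
    (by simp)]
  refine sum_congr rfl fun a ha => ?_
  rw [sum_comm]
  refine sum_congr rfl fun b _ => ?_
  rw [dot_eq n _ _ (h a (mem_range.1 ha))]
  push_cast
  rw [sum_mul]
  exact sum_congr rfl fun c _ => by ring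

/-- default record -/
def r0 : Rc := ⟨.tt, 0, 0, 0, [], [], 0, []⟩

theorem sound {L : List (List (List ℤ))} {pz : List ℤ} {dat : List Rc} {sc n m : ℕ}
    (h : ∀ a < dat.length, okr L pz sc dat.length (dat.drop a) = true)
    (hn : ∀ r ∈ dat, r.rc.length ≤ n ∧ r.l2.length ≤ m) (x : ℕ → ℝ) :
    ∑ a ∈ range dat.length, x a ^ 2 ≤ ∑ a ∈ range dat.length, ((dat.getD a r0).ez : ℝ) * x a ^ 2 -
      ∑ a ∈ range dat.length, ∑ b ∈ range dat.length,
        ((pz.getD ((dat.getD a r0).wt + (dat.getD b r0).wt) 0 *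
          gat L (dat.getD a r0).fib (dat.getD b r0).fib : ℤ) : ℝ) * (x a * x b) +
      ∑ c ∈ range n, (∑ a ∈ range dat.length, ((dat.getD a r0).rc.getD c 0 : ℝ) * x a) ^ 2 := by
  set V := dat.length with hV
  set d : ℕ → Rc := fun a => dat.getD a r0 with hd
  have hm : ∀ a < V, d a ∈ dat := fun a ha => by
    simp only [hd, List.getD_eq_getElem _ _ ha]; exact List.getElem_mem ha
  have h1 : ∀ a < V, (1 ≤ (d a).tau ∧ (V + 1) * ((d a).tau * (d a).tau) ≤
      (d a).ez + ent L pz sc (d a) (d a)) ∧ ∀ b < V, a < b →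
        (ent L pz sc (d a) (d b)).natAbs ≤ ((d a).tau * (d b).tau).natAbs := fun a ha => by
    have := h a ha
    rw [List.drop_eq_getElem_cons ha, okr, ent_eq] at this
    simp only [Bool.and_eq_true, decide_eq_true_eq, List.all_eq_true] at this
    simp only [hd, List.getD_eq_getElem _ _ ha]
    refine ⟨this.1, fun b hb hab => this.2 _ ?_⟩
    rw [List.getD_eq_getElem _ _ hb, List.mem_drop_iff_getElem]
    exact ⟨b - (a + 1), by omega, by congr 1; omega⟩
  have h2 : ∀ a < V, ∀ b < V, a ≠ b →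
      |(ent L pz sc (d a) (d b) : ℝ)| ≤ (d a).tau * (d b).tau := fun a ha b hb hab => by
    have e : (ent L pz sc (d a) (d b)).natAbs ≤ ((d a).tau * (d b).tau).natAbs := by
      rcases lt_or_gt_of_ne hab with e | e
      · exact (h1 a ha).2 b hb e
      · rw [ent_comm, mul_comm]; exact (h1 b hb).2 a ha e
    have p : 0 ≤ (d a).tau * (d b).tau :=
      mul_nonneg (by linarith [(h1 a ha).1.1]) (by linarith [(h1 b hb).1.1])
    have : |ent L pz sc (d a) (d b)| ≤ (d a).tau * (d b).tau := by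
      rw [← Int.natCast_natAbs, ← Int.natAbs_of_nonneg p]; exact_mod_cast e
    exact_mod_cast this
  rw [← sq_dot (fun a => (d a).rc) x fun a ha => (hn _ (hm a ha)).1]
  have h4 : 0 ≤ ∑ a ∈ range V, ∑ b ∈ range V,
      ((dot (d a).l2 (d b).l2 * ((d a).ml * (d b).ml) : ℤ) : ℝ) * (x a * x b) := by
    have h3 := sq_dot (fun a => (d a).l2) (fun a => (d a).ml * x a) fun a ha => (hn _ (hm a ha)).2
    refine le_of_le_of_eq (sum_nonneg fun _ _ => sq_nonneg _) (h3.symm.trans ?_)
    exact sum_congr rfl fun a _ => sum_congr rfl fun b _ => by push_cast; ring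
  have h5 : (∑ a ∈ range V, ((d a).tau : ℝ) * |x a|) ^ 2 ≤
      V * ∑ a ∈ range V, (((d a).tau : ℝ) * |x a|) ^ 2 := by
    simpa using sq_sum_le_card_mul_sum_sq (s := range V) (f := fun a => ((d a).tau : ℝ) * |x a|)
  have h6 : ∀ a ∈ range V, x a ^ 2 + V * (((d a).tau : ℝ) * |x a|) ^ 2 -
      ∑ b ∈ range V, ((d a).tau * |x a|) * ((d b).tau * |x b|) ≤
      (d a).ez * x a ^ 2 + ∑ b ∈ range V, (ent L pz sc (d a) (d b) : ℝ) * (x a * x b) := by
    intro a ha
    have ha' := mem_range.1 ha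
    rw [← add_sum_erase _ _ ha, ← add_sum_erase _ _ ha]
    have e1 : -∑ b ∈ (range V).erase a, ((d a).tau * |x a|) * (((d b).tau : ℝ) * |x b|) ≤
        ∑ b ∈ (range V).erase a, (ent L pz sc (d a) (d b) : ℝ) * (x a * x b) := by
      rw [← sum_neg_distrib]
      refine sum_le_sum fun b hb => ?_
      have := h2 a ha' b (mem_range.1 (mem_erase.1 hb).2) (mem_erase.1 hb).1.symm
      have e2 := neg_abs_le ((ent L pz sc (d a) (d b) : ℝ) * (x a * x b))
      rw [abs_mul, abs_mul] at e2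
      nlinarith [mul_le_mul_of_nonneg_right this (mul_nonneg (abs_nonneg (x a)) (abs_nonneg (x b)))]
    have e3 : ((V : ℝ) + 1) * ((d a).tau * (d a).tau) ≤ (d a).ez + ent L pz sc (d a) (d a) := by
      exact_mod_cast (h1 a ha').1.2
    have e4 : (1 : ℝ) ≤ (d a).tau := by exact_mod_cast (h1 a ha').1.1
    have e5 := mul_le_mul_of_nonneg_right e3 (sq_nonneg (x a))
    have e6 : 1 * x a ^ 2 ≤ ((d a).tau * (d a).tau) * x a ^ 2 := by gcongr; nlinarith
    have e7 : (((d a).tau : ℝ) * |x a|) ^ 2 = ((d a).tau * (d a).tau) * x a ^ 2 := by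
      rw [mul_pow, sq_abs]; ring
    have e8 := sq_nonneg (((d a).tau : ℝ) * |x a|)
    nlinarith
  have h7 := sum_le_sum h6
  rw [sum_sub_distrib, sum_add_distrib, sum_add_distrib, ← mul_sum, ← sum_mul_sum, ← sq] at h7
  simp only [ent, Int.cast_sub, sub_mul, sum_sub_distrib, Int.cast_mul (sc : ℤ), mul_assoc (((sc : ℤ) : ℝ)),
    ← mul_sum _ _ (((sc : ℤ) : ℝ))] at h7
  have h8 := mul_nonneg (show (0 : ℝ) ≤ ((sc : ℤ) : ℝ) by positivity) h4
  linarith

end Pool.Agent.MP_6e64bc_an.H72
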