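import Pool.Agent.MP_6e64bc_an.H72.Data

namespace Pool.Agent.MP_6e64bc_an.H72

/-- check of a block of rows of the Gram matrix -/
noncomputable def ckA (s n : ℕ) : Bool :=
  (List.range' s n).all fun a => okr LL pz sc 90 (dat.drop a)

/-- check of a block of relations -/
noncomputable def ckW (s n : ℕ) : Bool := (List.range' s n).all fun c =>
  okw dat c (gs.getD c 0 : ℕ) ((rows (13 / 40) 21 ld lj ls).getD c [])

end Pool.Agent.MP_6e64bc_an.H72
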