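import Pool.Agent.MP_6e64bc_an.H72.Chk

namespace Pool.Agent.MP_6e64bc_an.H72

theorem a0 : ckA 0 5 = true := by decide +kernel
theorem a5 : ckA 5 5 = true := by decide +kernel
theorem a10 : ckA 10 5 = true := by decide +kernel
theorem a15 : ckA 15 5 = true := by decide +kernel

end Pool.Agent.MP_6e64bc_an.H72
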