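import Pool.Agent.MP_6e64bc_an.H72.Chk

namespace Pool.Agent.MP_6e64bc_an.H72

theorem a20 : ckA 20 5 = true := by decide +kernel
theorem a25 : ckA 25 5 = true := by decide +kernel
theorem a30 : ckA 30 5 = true := by decide +kernel
theorem a35 : ckA 35 5 = true := by decide +kernel
theorem a40 : ckA 40 5 = true := by decide +kernel

end Pool.Agent.MP_6e64bc_an.H72
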