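import Pool.Agent.MP_6e64bc_an.H72.Chk

namespace Pool.Agent.MP_6e64bc_an.H72

theorem a45 : ckA 45 5 = true := by decide +kernel
theorem a50 : ckA 50 5 = true := by decide +kernel
theorem a55 : ckA 55 5 = true := by decide +kernel
theorem a60 : ckA 60 10 = true := by decide +kernel
theorem a70 : ckA 70 10 = true := by decide +kernel
theorem a80 : ckA 80 10 = true := by decide +kernel

end Pool.Agent.MP_6e64bc_an.H72
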