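import Pool.Agent.MP_6e64bc_an.H72.Chk

namespace Pool.Agent.MP_6e64bc_an.H72

theorem w0 : ckW 0 23 = true := by decide +kernel
theorem w23 : ckW 23 23 = true := by decide +kernel
theorem w46 : ckW 46 6 = true := by decide +kernel
theorem w52 : ckW 52 1 = true := by decide +kernel
theorem w53 : ckW 53 1 = true := by decide +kernel
theorem w54 : ckW 54 1 = true := by decide +kernel
theorem w55 : ckW 55 3 = true := by decide +kernel
theorem w58 : ckW 58 4 = true := by decide +kernel

end Pool.Agent.MP_6e64bc_an.H72
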