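import Pool.Agent.MP_6e64bc_an.H72.Err1

/-! The fractional moment of the kernel is of lower order for bounded univalent maps. -/

open MeasureTheory Finset Filter Topology Metric ProbabilityTheory

namespace Pool.Agent.MP_6e64bc_an.H72.Err

open H80

variable {f : ℂ → ℂ}

theorem po_pos {a : ℝ} (ha : 0 < a) : ∀ k, 0 < po a k
  | 0 => one_pos
  | k + 1 => mul_pos (po_pos ha k) (by positivity)

theorem po_succ (a : ℝ) : ∀ k, po a (k + 1) = a * po (a + 1) k
  | 0 => by simp [po]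
  | k + 1 => by rw [po, po_succ a k, po]; push_cast; ring

theorem po_one : ∀ k, po (1 : ℝ) k = k.factorial
  | 0 => by simp [po]
  | k + 1 => by rw [po, po_one k, Nat.factorial_succ]; push_cast; ring

theorem gamma_po {a : ℝ} (ha : 0 < a) : ∀ k : ℕ, Real.Gamma (a + k) = po a k * Real.Gamma a
  | 0 => by simp [po]
  | k + 1 => by
    rw [Nat.cast_succ, ← add_assoc, Real.Gamma_add_one (by positivity), gamma_po ha k, po]; ring

theorem pdf_nonneg {a b : ℝ} (ha : 0 < a) (hb : 0 < b) (t : ℝ) : 0 ≤ betaPDFReal a b t := by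
  by_cases h : 0 < t ∧ t < 1
  · exact (betaPDFReal_pos h.1 h.2 ha hb).le
  · rw [betaPDFReal, if_neg h]

theorem beta_int {a b : ℝ} (ha : 0 < a) (hb : 0 < b) (F : ℝ → ℝ) :
    ∫ t, F t ∂betaMeasure a b = ∫ t, betaPDFReal a b t * F t := by
  rw [betaMeasure, integral_withDensity_eq_integral_toReal_smul (f := betaPDF a b)
    (measurable_betaPDFReal a b).ennreal_ofReal (ae_of_all _ fun _ => ENNReal.ofReal_lt_top)]
  simp only [betaPDF, ENNReal.toReal_ofReal (pdf_nonneg ha hb _), smul_eq_mul]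

theorem beta_mom {a b : ℝ} (ha : 0 < a) (hb : 0 < b) (k : ℕ) :
    ∫ t, t ^ k ∂betaMeasure a b = po a k / po (a + b) k := by
  have hk : 0 < a + k := by positivity
  have := isProbabilityMeasureBeta hk hb
  have h := beta_int hk hb fun _ => 1
  simp only [integral_const, probReal_univ, smul_eq_mul, mul_one] at h
  rw [beta_int ha hb, ← mul_one (_ / _), h, ← integral_const_mul]
  congr 1; ext t
  unfold betaPDFReal
  split_ifs with c
  · have := Real.Gamma_pos_of_pos ha
    have := Real.Gamma_pos_of_pos hb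
    have := Real.Gamma_pos_of_pos (add_pos ha hb)
    have := po_pos ha k
    have := po_pos (add_pos ha hb) k
    rw [beta, beta, add_right_comm, gamma_po ha, gamma_po (add_pos ha hb), add_sub_right_comm,
      Real.rpow_add_natCast c.1.ne']
    field_simp
  · simp

theorem beta_ae (a b : ℝ) : ∀ᵐ t ∂betaMeasure a b, t ∈ Set.Icc (0 : ℝ) 1 := by
  rw [betaMeasure, ae_withDensity_iff (f := betaPDF a b)
    (measurable_betaPDFReal a b).ennreal_ofReal]
  refine ae_of_all _ fun t h => ⟨not_lt.1 fun c => h ?_, not_lt.1 fun c => h ?_⟩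
  · exact betaPDF_eq_zero_of_nonpos c.le
  · exact betaPDF_eq_zero_of_one_le c.le

theorem bessel {e : ℕ → ℂ} {s : ℕ → ℝ} (hs : Summable s) (he : ∀ n, ‖e n‖ ≤ s n) (m : ℕ) :
    (Continuous fun φ => ∑' n, e n * ee φ ^ n) ∧
      ∑ n ∈ range m, ‖e n‖ ^ 2 ≤ ∫ φ, ‖∑' n, e n * ee φ ^ n‖ ^ 2 ∂mu := by
  have hb : ∀ n φ, ‖e n * ee φ ^ n‖ ≤ s n := fun n φ => by simpa using he n
  have hc : Continuous fun φ => ∑' n, e n * ee φ ^ n :=
    continuous_tsum (fun n => by fun_prop) hs hb
  refine ⟨hc, ?_⟩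
  have h : ∀ n : ℕ, fc (fun φ => ∑' n, e n * ee φ ^ n) n = e n := fun n => by
    refine (hasSum_int (F := fun k x => e k * ee x ^ k * ee (-(((n : ℤ) : ℝ) * x)))
      (fun k => by fun_prop) hs (b := fun _ => 1) continuous_const
      (fun k x => by simpa using he k) fun x =>
        (Summable.of_norm_bounded hs fun k => hb k x).hasSum.mul_right _).unique ?_
    have e1 : ∀ (k : ℕ) x, e k * ee x ^ k * ee (-(((n : ℤ) : ℝ) * x)) =
        e k * ee (((k - n : ℤ) : ℝ) * x) := fun k x => by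
      rw [mul_assoc, ee_pow, ← ee_add]; congr 2; push_cast; ring
    simp only [e1, integral_const_mul]
    convert hasSum_single n fun k hk => ?_
    · simp
    · rw [int_ee (by omega), mul_zero]
  have := sum_le_hasSum ((range m).map Nat.castEmbedding) (fun _ _ => sq_nonneg _) (pars hc)
  simpa only [sum_map, Nat.castEmbedding_apply, h] using this

theorem coef_le' (W : ℕ → ℂ) (n : ℕ) {x : ℕ → ℂ} {r : ℝ} (hx : ∀ k ≤ n, ‖x k‖ ≤ r) :
    ‖∑ k ∈ range (n + 1), W k * x k‖ ≤ (∑ k ∈ range (n + 1), ‖W k‖) * r := by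
  rw [sum_mul]
  refine norm_sum_le_of_le _ fun k hk => ?_
  rw [norm_mul]
  exact mul_le_mul_of_nonneg_left (hx k (Nat.lt_succ_iff.1 (mem_range.1 hk))) (norm_nonneg _)

theorem avg_le {W : ℕ → ℕ → ℂ} (hW : Two f W) {b : ℝ} (hb : 0 < b) {z : ℂ}
    (hz : z ∈ ball (0 : ℂ) 1) (z0 : z ≠ 0) {D : ℝ} (hD : ∀ t ∈ Set.Icc (0 : ℝ) 1, ∀ V : ℂ,
      V ^ 2 * dslope f z (t * z) = deriv f z ^ 2 → ‖V‖ ≤ D) :
    ‖∑' n, (∑ k ∈ range (n + 1), W n k * ((po b k / po (b + 1 / 2) k : ℝ) : ℂ)) * z ^ n‖ ≤ D := by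
  have := isProbabilityMeasureBeta hb one_half_pos
  have z1 := mem_ball_zero_iff.1 hz
  have hi : ∀ {F : ℝ → ℂ}, Continuous F → Integrable F (betaMeasure b (1 / 2)) := fun hF =>
    intg_of _ isCompact_Icc (beta_ae _ _) hF
  have h := hasSum_integral_of_summable_integral_norm (μ := betaMeasure b (1 / 2))
    (F := fun n (t : ℝ) => ∑ k ∈ range (n + 1), W n k * z ^ (n - k) * (t * z) ^ k)
    (fun n => hi (by fun_prop)) (Summable.of_nonneg_of_le
      (fun n => integral_nonneg fun _ => norm_nonneg _) (fun n => ?_) (hW.sum _ (norm_nonneg z) z1))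
  · have e : ∀ n, ∫ t : ℝ, ∑ k ∈ range (n + 1), W n k * z ^ (n - k) * (t * z) ^ k
        ∂betaMeasure b (1 / 2) =
        (∑ k ∈ range (n + 1), W n k * ((po b k / po (b + 1 / 2) k : ℝ) : ℂ)) * z ^ n := fun n => by
      rw [integral_finsetSum _ fun k _ => hi (by fun_prop), sum_mul]
      refine sum_congr rfl fun k hk => ?_
      obtain ⟨j, rfl⟩ := Nat.exists_eq_add_of_le (Nat.lt_succ_iff.1 (mem_range.1 hk))
      rw [← beta_mom hb one_half_pos, ← integral_complex_ofReal, ← integral_const_mul,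
        ← integral_mul_const, Nat.add_sub_cancel_left]
      congr 1; ext t; push_cast; ring
    simp only [e] at h
    rw [h.tsum_eq]
    refine (norm_integral_le_of_norm_le_const ((beta_ae _ _).mono fun t ht =>
      hD t ht _ (hW.sq z hz _ ?_ z0))).trans (by rw [probReal_univ, mul_one])
    rw [mem_ball_zero_iff, norm_mul, Complex.norm_real, Real.norm_eq_abs, abs_of_nonneg ht.1]
    nlinarith [ht.1, ht.2, norm_nonneg z]
  · refine (Real.le_norm_self _).trans ((norm_integral_le_of_norm_le_const (μ := betaMeasure b (1 / 2))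
      (C := (∑ k ∈ range (n + 1), ‖W n k‖) * ‖z‖ ^ n)
      ((beta_ae _ _).mono fun t ht => ?_)).trans (by rw [probReal_univ, mul_one]))
    simp only [norm_norm, mul_assoc]
    refine coef_le' _ _ fun k hk => ?_
    obtain ⟨j, rfl⟩ := Nat.exists_eq_add_of_le hk
    have := pow_le_one₀ (n := k) ht.1 ht.2
    simp only [Nat.add_sub_cancel_left, norm_mul, norm_pow, mul_pow, Complex.norm_real,
      Real.norm_eq_abs, abs_of_nonneg ht.1]
    calc _ ≤ ‖z‖ ^ j * (1 * ‖z‖ ^ k) := by gcongr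
      _ = _ := by ring

/-- mean of the square of the derivative on the circle of radius `ρ √u` -/
noncomputable def AA (f : ℂ → ℂ) (ρ u : ℝ) : ℝ :=
  ∫ φ, ‖deriv f ((ρ * √(min u 1) : ℝ) * ee φ)‖ ^ 2 ∂mu

theorem rad_lt {ρ : ℝ} (h0 : 0 ≤ ρ) (h1 : ρ < 1) (u : ℝ) : ρ * √(min u 1) < 1 :=
  (mul_le_of_le_one_right h0 (Real.sqrt_le_one.2 (min_le_right _ _))).trans_lt h1

theorem cont_AA (hf : DifferentiableOn ℂ f (ball 0 1)) {ρ : ℝ} (h0 : 0 ≤ ρ) (h1 : ρ < 1) :
    Continuous (AA f ρ) :=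
  cont_par (F := fun u φ => ‖deriv f ((ρ * √(min u 1) : ℝ) * ee φ)‖ ^ 2)
    (((hf.deriv isOpen_ball).continuousOn.comp_continuous (by fun_prop)
      fun p : ℝ × ℝ => w_mem (by positivity) (rad_lt h0 h1 p.1) p.2).norm.pow 2)

theorem int_AA (hf : DifferentiableOn ℂ f (ball 0 1)) (hi : Set.InjOn f (ball 0 1)) {M : ℝ}
    (hM : ∀ z ∈ ball (0 : ℂ) 1, ‖f z‖ < M) {ρ : ℝ} (h0 : 1 / 2 ≤ ρ) (h1 : ρ < 1) :
    ∫ u in (0 : ℝ)..1, AA f ρ u ≤ 8 * volume.real (ball (0 : ℂ) M) := by
  have r0 : 0 < ρ := by linarith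
  have h := image_int hf hi r0.le h1 (J := fun _ => 1) continuous_const
  have h4 : volume.real (f '' ball 0 ρ) ≤ volume.real (ball (0 : ℂ) M) :=
    measureReal_mono (by
      rintro _ ⟨z, hz, rfl⟩
      exact mem_ball_zero_iff.2 (hM z (ball_subset_ball h1.le hz))) measure_ball_lt_top.ne
  have h2 := intervalIntegral.integral_comp_mul_deriv (a := 0) (b := ρ)
    (f := fun r => (r / ρ) ^ 2) (f' := fun r => 2 * r / ρ ^ 2)
    (fun r _ => (((hasDerivAt_id' r).div_const ρ).fun_pow 2).congr_deriv (by simp; field_simp))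
    (by fun_prop) (cont_AA hf r0.le h1)
  simp only [zero_div, div_self r0.ne', one_pow, zero_pow two_ne_zero] at h2
  simp only [mul_one, integral_const, smul_eq_mul, measureReal_restrict_apply_univ] at h
  have h3 : ∫ r in (0 : ℝ)..ρ, (AA f ρ ∘ fun r => (r / ρ) ^ 2) r * (2 * r / ρ ^ 2) =
      2 / ρ ^ 2 * (2 * Real.pi)⁻¹ * volume.real (f '' ball 0 ρ) := by
    rw [h, ← intervalIntegral.integral_const_mul]
    refine intervalIntegral.integral_congr fun r hr => ?_
    rw [Set.uIcc_of_le r0.le] at hr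
    have a := (div_le_one r0).2 hr.2
    have b := div_nonneg hr.1 r0.le
    simp only [Function.comp, AA, mu_int, intervalIntegral.integral_const_mul, smul_eq_mul,
      min_eq_left (pow_le_one₀ b a), Real.sqrt_sq b, mul_div_cancel₀ _ r0.ne']
    ring
  rw [← h2, h3]
  have h5 : (2 * Real.pi)⁻¹ ≤ 1 := inv_le_one_of_one_le₀ (by linarith [Real.pi_gt_three])
  have h6 : 2 / ρ ^ 2 ≤ 8 := by rw [div_le_iff₀ (by positivity)]; nlinarith
  calc _ ≤ 8 * 1 * volume.real (ball (0 : ℂ) M) := by gcongr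
    _ = _ := by ring

theorem level (hf : DifferentiableOn ℂ f (ball 0 1)) (hi : Set.InjOn f (ball 0 1)) (f0 : f 0 = 0)
    (f1 : deriv f 0 = 1) {M : ℝ} (hM : ∀ z ∈ ball (0 : ℂ) 1, ‖f z‖ < M) {W : ℕ → ℕ → ℂ}
    (hW : Two f W) {b : ℝ} (hb : 0 < b) {ρ u : ℝ} (h0 : 0 < ρ) (h1 : ρ < 1) (u0 : 0 < u) (u1 : u < 1)
    (m : ℕ) : (1 - u) ^ b * ∑ n ∈ range m, ρ ^ (2 * n) *
      ‖∑ k ∈ range (n + 1), W n k * ((po b k / po (b + 1 / 2) k : ℝ) : ℂ)‖ ^ 2 * u ^ n ≤
      AA f ρ u + (8 * (|M| + 1)) ^ 4 * (1 - u) ^ (4 * b - 2) := by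
  have y0 := sub_pos.2 u1
  have yb := Real.rpow_pos_of_pos y0 b
  have r1 := rad_lt h0.le h1 u
  unfold AA
  rw [min_eq_left u1.le] at r1 ⊢
  set r := ρ * √u with hr
  have r0 : 0 < r := by positivity
  have r2 : r ^ 2 = ρ ^ 2 * u := by rw [hr, mul_pow, Real.sq_sqrt u0.le]
  set e := fun n => ∑ k ∈ range (n + 1), W n k * ((po b k / po (b + 1 / 2) k : ℝ) : ℂ) with he
  obtain ⟨hc, h⟩ := bessel (e := fun n => e n * r ^ n) (hW.sum r r0.le r1) (fun n => by
    rw [norm_mul, norm_pow, Complex.norm_real, Real.norm_eq_abs, abs_of_pos r0]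
    refine mul_le_mul_of_nonneg_right ((coef_le' _ n (r := 1) fun k _ => ?_).trans (by simp))
      (by positivity)
    have := isProbabilityMeasureBeta hb one_half_pos
    rw [Complex.norm_real, ← beta_mom hb one_half_pos]
    refine (norm_integral_le_of_norm_le_const (C := 1) ((beta_ae _ _).mono fun t ht => ?_)).trans
      (by rw [probReal_univ, mul_one])
    rw [norm_pow, Real.norm_eq_abs, abs_of_nonneg ht.1]
    exact pow_le_one₀ ht.1 ht.2) m
  have e1 : ∀ n, ρ ^ (2 * n) * ‖e n‖ ^ 2 * u ^ n = ‖e n * r ^ n‖ ^ 2 := fun n => by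
    rw [norm_mul, norm_pow, Complex.norm_real, Real.norm_eq_abs, abs_of_pos r0, mul_pow,
      ← pow_mul r, mul_comm n, pow_mul r, r2]
    ring
  have c1 : Continuous fun φ => ‖deriv f (r * ee φ)‖ ^ 2 :=
    ((hf.deriv isOpen_ball).continuousOn.comp_continuous (by fun_prop) (w_mem r0.le r1)).norm.pow 2
  set X := (8 * (|M| + 1)) ^ 2 * (1 - u) ^ (2 * b - 1) with hX
  have eX : (8 * (|M| + 1)) ^ 4 * (1 - u) ^ (4 * b - 2) = X ^ 2 := by
    rw [hX, mul_pow _ _ 2, ← pow_mul, ← Real.rpow_mul_natCast y0.le]; congr 2; push_cast; ring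
  refine (mul_le_mul_of_nonneg_left ((sum_congr rfl fun n _ => e1 n).trans_le h) yb.le).trans ?_
  rw [eX, ← integral_const_mul]
  refine (integral_mono (g := fun φ => ‖deriv f (r * ee φ)‖ ^ 2 + X ^ 2) (intg (by fun_prop))
    (intg (by fun_prop)) fun φ => ?_).trans (by
      rw [integral_add (intg c1) (integrable_const _)]; simp)
  have hz := w_mem r0.le r1 φ
  have nz : ‖(r * ee φ : ℂ)‖ = r := by simp [abs_of_pos r0]
  have a := avg_le hW hb hz (norm_pos_iff.1 (nz.symm ▸ r0))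
    (D := √((‖deriv f (r * ee φ)‖ ^ 2 + X ^ 2) / (1 - u) ^ b)) fun t ht V hV => by
      have k := ker_le hf hi f0 f1 hM hz ht hV
      rw [nz, r2] at k
      refine Real.le_sqrt_of_sq_le ((le_div_iff₀ yb).2
        (le_of_pow_le_pow_left₀ two_ne_zero (by positivity) ?_))
      have e2 : ((1 - u) ^ b) ^ 2 = (1 - u) ^ (2 * b - 1) * (1 - u) := by
        rw [← Real.rpow_mul_natCast y0.le, ← Real.rpow_add_one y0.ne']; congr 1; push_cast; ring
      have a0 := norm_nonneg (deriv f (r * ee φ))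
      generalize ‖deriv f (r * ee φ)‖ = a at *
      have p : 1 - u ≤ 1 - ρ ^ 2 * u := by nlinarith [pow_lt_one₀ h0.le h1 two_ne_zero]
      calc _ = X * ((1 / (8 * (|M| + 1))) ^ 2 * (1 - u) * ‖V‖ ^ 4) := by
            rw [mul_pow, e2, hX]; field_simp
        _ ≤ X * a ^ 3 := mul_le_mul_of_nonneg_left (le_trans (by gcongr) k) (by positivity)
        _ ≤ _ := by nlinarith [sq_nonneg (a ^ 2 - a * X / 2), sq_nonneg (a * X), sq_nonneg (X ^ 2)]
  have a2 := (le_div_iff₀' yb).1 ((Real.le_sqrt (norm_nonneg _) (by positivity)).1 a)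
  simpa only [mul_pow, mul_assoc] using a2

theorem main : ERR := by
  intro b M hb4
  have hb : 0 < b := by linarith
  have hb1 : 0 < b + 1 := by linarith
  have K0 := one_div_pos.2 (beta_pos one_pos hb1)
  refine ⟨1 / beta 1 (b + 1) * (8 * volume.real (ball (0 : ℂ) M) +
    ∫ u in (0 : ℝ)..1, (8 * (|M| + 1)) ^ 4 * (1 - u) ^ (4 * b - 2)),
    fun f hf hi f0 f1 hM W hW ρ h0 h1 m => ?_⟩
  have r0 : 0 < ρ := by linarith
  have := isProbabilityMeasureBeta one_pos hb1
  have hl := fun u u0 u1 => level hf hi f0 f1 hM hW hb (u := u) r0 h1 u0 u1 m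
  set E := fun n => ‖∑ k ∈ range (n + 1), W n k * ((po b k / po (b + 1 / 2) k : ℝ) : ℂ)‖ ^ 2 with hE
  have i1 := (cont_AA hf r0.le h1).intervalIntegrable (μ := volume) 0 1
  have i2 : IntervalIntegrable (fun u : ℝ => (8 * (|M| + 1)) ^ 4 * (1 - u) ^ (4 * b - 2))
      volume 0 1 := by
    simpa using ((intervalIntegral.intervalIntegrable_rpow' (a := 1) (b := 0)
      (show -1 < 4 * b - 2 by linarith)).comp_sub_left 1).const_mul _
  calc _ ≤ ∑ n ∈ range m, ρ ^ (2 * n) * E n * (po 1 n / po (1 + (b + 1)) n) := by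
        refine sum_le_sum fun n _ => ?_
        rw [mul_right_comm]
        refine mul_le_mul_of_nonneg_left ?_ (by positivity)
        have := po_pos (show 0 < b + 1 + 1 by linarith) n
        rw [bw, po_succ (b + 1), po_one, add_comm 1, div_le_div_iff₀ (by positivity) this]
        simp only [po, Nat.cast_zero]
        nlinarith [mul_pos this (show (0 : ℝ) < n.factorial by positivity)]
    _ = ∫ u, ∑ n ∈ range m, ρ ^ (2 * n) * E n * u ^ n ∂betaMeasure 1 (b + 1) := by
        rw [integral_finsetSum _ fun n _ => intg_of _ isCompact_Icc (beta_ae _ _) (by fun_prop)]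
        simp only [integral_const_mul, beta_mom one_pos hb1]
    _ ≤ ∫ u, (Set.Ioc (0 : ℝ) 1).indicator (fun u => 1 / beta 1 (b + 1) *
          (AA f ρ u + (8 * (|M| + 1)) ^ 4 * (1 - u) ^ (4 * b - 2))) u := by
        rw [beta_int one_pos hb1]
        refine integral_mono_of_nonneg (ae_of_all _ fun u => ?_)
          ((integrable_indicator_iff measurableSet_Ioc).2 ((i1.add i2).const_mul _).1)
          (ae_of_all _ fun u => ?_) <;> simp only [betaPDFReal] <;> split_ifs with c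
        · have := c.1
          have := sub_pos.2 c.2
          positivity
        · simp
        · rw [Set.indicator_of_mem (show u ∈ Set.Ioc 0 1 from ⟨c.1, c.2.le⟩), sub_self,
            Real.rpow_zero, mul_one, add_sub_cancel_right, mul_assoc]
          exact mul_le_mul_of_nonneg_left (hl u c.1 c.2) K0.le
        · rw [zero_mul]
          refine Set.indicator_nonneg (fun u hu => ?_) u
          have := sub_nonneg.2 hu.2
          have : 0 ≤ AA f ρ u := integral_nonneg fun _ => sq_nonneg _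
          positivity
    _ ≤ _ := by
        rw [integral_indicator measurableSet_Ioc, ← intervalIntegral.integral_of_le zero_le_one,
          intervalIntegral.integral_const_mul, intervalIntegral.integral_add i1 i2]
        have := int_AA hf hi hM h0 h1
        gcongr

end Pool.Agent.MP_6e64bc_an.H72.Err
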