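import Pool.Agent.MP_6e64bc_an.H72.Spec

/-! Two point distortion and the pointwise bound for the kernel. -/

open MeasureTheory Finset Filter Topology Metric
open scoped ComplexConjugate

namespace Pool.Agent.MP_6e64bc_an.H72.Err

open H80

variable {f : ℂ → ℂ}

theorem vv_le {r ρ : ℝ} (H : Hyp f r ρ) (β : ℝ) :
    ‖VV f r ρ β β‖ ≤ -Real.log (1 - (r / ρ) ^ 2) := by
  have h := H.grunsky (θ := fun _ => β) continuous_const (ψ₁ := fun _ => 1) (ψ₂ := fun _ => 1)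
    continuous_const continuous_const one_pos
  have e : EE ((r / ρ) ^ 2) (fun _ => β) (fun _ => 1) = -Real.log (1 - (r / ρ) ^ 2) := by
    rw [← (Real.hasSum_pow_div_log_of_abs_lt_one (x := (r / ρ) ^ 2) (by
      rw [abs_of_nonneg (by positivity)]
      exact pow_lt_one₀ H.q_pos.le H.q_lt two_ne_zero)).tsum_eq, EE]
    simp [mom]
  rw [e] at h
  simp only [mul_one, integral_const, probReal_univ, one_smul, one_mul, div_one] at h
  linarith

theorem dist1 (hf : DifferentiableOn ℂ f (ball 0 1)) (hi : Set.InjOn f (ball 0 1)) {w : ℂ}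
    (hw : w ∈ ball (0 : ℂ) 1) :
    (1 - ‖w‖ ^ 2) * ‖dslope f 0 w‖ ^ 2 ≤ ‖deriv f w‖ * ‖deriv f 0‖ ∧
      (1 - ‖w‖ ^ 2) * (‖deriv f w‖ * ‖deriv f 0‖) ≤ ‖dslope f 0 w‖ ^ 2 := by
  rcases eq_or_ne w 0 with rfl | h0
  · simp [sq]
  have h1 := mem_ball_zero_iff.1 hw
  have e : (‖w‖ : ℂ) * ee w.arg = w := Complex.norm_mul_exp_arg_mul_I w
  have hd := norm_pos_iff.2 (dslope_ne hf hi (mem_ball_self one_pos) hw)
  have hc : Tendsto (fun ρ : ℝ => 1 - (‖w‖ / ρ) ^ 2) (𝓝[<] 1) (𝓝 (1 - ‖w‖ ^ 2)) := by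
    have : ContinuousAt (fun ρ : ℝ => 1 - (‖w‖ / ρ) ^ 2) 1 := by fun_prop (disch := simp)
    simpa using this.tendsto.mono_left (nhdsWithin_le_nhds (s := Set.Iio 1))
  have key : ∀ᶠ ρ : ℝ in 𝓝[<] 1,
      (1 - (‖w‖ / ρ) ^ 2) * ‖dslope f 0 w‖ ^ 2 ≤ ‖deriv f w‖ * ‖deriv f 0‖ ∧
      (1 - (‖w‖ / ρ) ^ 2) * (‖deriv f w‖ * ‖deriv f 0‖) ≤ ‖dslope f 0 w‖ ^ 2 := by
    filter_upwards [Ioo_mem_nhdsLT h1] with ρ hρ
    have H : Hyp f ‖w‖ ρ := ⟨hf, hi, norm_pos_iff.2 h0, hρ.1, hρ.2⟩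
    have q1 : 0 < 1 - (‖w‖ / ρ) ^ 2 := sub_pos.2 (pow_lt_one₀ H.q_pos.le H.q_lt two_ne_zero)
    have a := abs_le.1 ((Complex.abs_re_le_norm _).trans (vv_le H w.arg))
    have b := congrArg norm (H.exp_VV w.arg)
    rw [e, Complex.norm_exp, norm_div, norm_mul, norm_pow, eq_div_iff (by positivity)] at b
    have c1 := Real.exp_le_exp.2 a.1
    have c2 := Real.exp_le_exp.2 a.2
    rw [neg_neg, Real.exp_log q1] at c1
    rw [Real.exp_neg, Real.exp_log q1, ← one_div, le_div_iff₀ q1] at c2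
    rw [← b]
    constructor
    · gcongr
    · nlinarith [sq_nonneg ‖dslope f 0 w‖]
  exact ⟨le_of_tendsto (hc.mul_const _) (key.mono fun _ h => h.1),
    le_of_tendsto (hc.mul_const _) (key.mono fun _ h => h.2)⟩

theorem low (hf : DifferentiableOn ℂ f (ball 0 1)) (hi : Set.InjOn f (ball 0 1)) (f0 : f 0 = 0)
    (f1 : deriv f 0 = 1) {M : ℝ} (hM : ∀ z ∈ ball (0 : ℂ) 1, ‖f z‖ < M) {w : ℂ}
    (hw : w ∈ ball (0 : ℂ) 1) : 1 / (8 * (|M| + 1)) ≤ ‖dslope f 0 w‖ := by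
  have h00 : (0 : ℂ) ∈ ball (0 : ℂ) 1 := mem_ball_self one_pos
  have hg := (Complex.differentiableOn_dslope (isOpen_ball.mem_nhds h00)).2 hf
  have M0 := abs_nonneg M
  set r := 1 / (2 * (|M| + 1)) with hr
  have r0 : 0 < r := by positivity
  have r1 : r ≤ 1 / 2 := by rw [hr]; gcongr; linarith
  have e8 : 1 / (8 * (|M| + 1)) = r / 4 := by rw [hr]; field_simp; ring
  have a1 : ∀ z ∈ ball (0 : ℂ) 1, ‖dslope f 0 z‖ ≤ |M| := fun z hz => by
    simpa using Complex.norm_dslope_le_div_of_mapsTo_ball hf (R₂ := |M|) (fun z hz => by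
      rw [f0, mem_closedBall_zero_iff]; exact (hM z hz).le.trans (le_abs_self M)) hz
  have a2 : ∀ z : ℂ, ‖z‖ ≤ r → 1 / 2 ≤ ‖dslope f 0 z‖ := fun z hz => by
    have b := Complex.dist_le_div_mul_dist_of_mapsTo_ball hg (R₂ := |M| + 1) (fun z hz => by
      rw [dslope_same, f1, mem_closedBall, dist_eq_norm]
      exact (norm_sub_le _ _).trans (by simpa using a1 z hz))
      (mem_ball_zero_iff.2 (show ‖z‖ < 1 by linarith))
    rw [dslope_same, f1, dist_eq_norm, dist_zero_right, div_one] at b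
    have c := norm_sub_norm_le 1 (dslope f 0 z)
    rw [norm_sub_rev, norm_one] at c
    have d : (|M| + 1) * ‖z‖ ≤ (|M| + 1) * r := by gcongr
    have : (|M| + 1) * r = 1 / 2 := by rw [hr]; field_simp
    linarith
  have a3 : ∀ z : ℂ, ‖f z‖ = ‖z‖ * ‖dslope f 0 z‖ := fun z => by
    simpa [f0] using (congrArg norm (sub_smul_dslope f 0 z)).symm
  rw [e8]
  rcases le_or_gt ‖w‖ r with h | h
  · linarith [a2 w h]
  have hs : closedBall (0 : ℂ) r ⊆ ball 0 1 := closedBall_subset_ball (by linarith)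
  have a4 := DiffContOnCl.ball_subset_image_closedBall (f := f) (z₀ := 0) (r := r) (ε := r / 2)
    (DifferentiableOn.diffContOnCl (hf.mono (by rwa [closure_ball _ r0.ne']))) r0
    (fun z hz => by
      have := mem_sphere_zero_iff_norm.1 hz
      rw [f0, sub_zero, a3, this]
      nlinarith [a2 z this.le])
    (by simpa using not_eventually.1 (not_const (isOpen_ball.mem_nhds h00) hi))
  have a5 : r / 2 / 2 ≤ ‖f w‖ := not_lt.1 fun c => by
    obtain ⟨z, hz, e⟩ := a4 (show f w ∈ ball (f 0) (r / 2 / 2) by rwa [f0, mem_ball_zero_iff])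
    rw [hi (hs hz) hw e, mem_closedBall_zero_iff] at hz
    linarith
  rw [a3] at a5
  nlinarith [mem_ball_zero_iff.1 hw, norm_nonneg (dslope f 0 w)]

theorem mob (a η : ℂ) :
    ‖1 + conj a * η‖ ^ 2 - ‖a + η‖ ^ 2 = (1 - ‖a‖ ^ 2) * (1 - ‖η‖ ^ 2) := by
  simp only [Complex.sq_norm, Complex.normSq_apply, Complex.add_re, Complex.add_im, Complex.mul_re,
    Complex.mul_im, Complex.conj_re, Complex.conj_im, Complex.one_re, Complex.one_im]
  ring

theorem mob_lt {a η : ℂ} (ha : a ∈ ball (0 : ℂ) 1) (hη : η ∈ ball (0 : ℂ) 1) :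
    ‖a + η‖ < ‖1 + conj a * η‖ := by
  have h := mob a η
  have h1 := sub_pos.2 (pow_lt_one₀ (norm_nonneg _) (mem_ball_zero_iff.1 ha) two_ne_zero)
  have h2 := sub_pos.2 (pow_lt_one₀ (norm_nonneg _) (mem_ball_zero_iff.1 hη) two_ne_zero)
  exact lt_of_pow_lt_pow_left₀ 2 (norm_nonneg _) (by nlinarith [mul_pos h1 h2])

theorem mob_ne {a η : ℂ} (ha : a ∈ ball (0 : ℂ) 1) (hη : η ∈ ball (0 : ℂ) 1) :
    1 + conj a * η ≠ 0 := norm_pos_iff.1 ((norm_nonneg _).trans_lt (mob_lt ha hη))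

theorem mob_mem {a η : ℂ} (ha : a ∈ ball (0 : ℂ) 1) (hη : η ∈ ball (0 : ℂ) 1) :
    (a + η) / (1 + conj a * η) ∈ ball (0 : ℂ) 1 := by
  rw [mem_ball_zero_iff, norm_div, div_lt_one (norm_pos_iff.2 (mob_ne ha hη))]
  exact mob_lt ha hη

theorem two_pt (hf : DifferentiableOn ℂ f (ball 0 1)) (hi : Set.InjOn f (ball 0 1)) {z w : ℂ}
    (hz : z ∈ ball (0 : ℂ) 1) (hw : w ∈ ball (0 : ℂ) 1) :
    (1 - ‖z‖ ^ 2) * (1 - ‖w‖ ^ 2) * (‖deriv f w‖ * ‖deriv f z‖) ≤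
      ‖1 - conj z * w‖ ^ 2 * ‖dslope f z w‖ ^ 2 := by
  have hz' : -z ∈ ball (0 : ℂ) 1 := by simpa using hz
  have cz : (1 : ℂ) - conj z * z = ((1 - ‖z‖ ^ 2 : ℝ) : ℂ) := by
    rw [Complex.conj_mul']; push_cast; rfl
  have z1 := sub_pos.2 (pow_lt_one₀ (norm_nonneg _) (mem_ball_zero_iff.1 hz) two_ne_zero)
  have nz : ‖(1 : ℂ) - conj z * z‖ = 1 - ‖z‖ ^ 2 := by
    rw [cz, Complex.norm_real, Real.norm_eq_abs, abs_of_pos z1]
  rcases eq_or_ne w z with rfl | hne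
  · rw [nz, dslope_same]; exact le_of_eq (by ring)
  have z2 : (1 : ℂ) - conj z * z ≠ 0 := norm_pos_iff.1 (nz ▸ z1)
  have hD : ∀ η ∈ ball (0 : ℂ) 1, HasDerivAt (fun η => f ((z + η) / (1 + conj z * η)))
      (deriv f ((z + η) / (1 + conj z * η)) * ((1 - conj z * z) / (1 + conj z * η) ^ 2)) η :=
    fun η hη => by
      refine (hf.differentiableAt (isOpen_ball.mem_nhds (mob_mem hz hη))).hasDerivAt.comp η
        ((((hasDerivAt_id' η).const_add z).fun_div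
          (((hasDerivAt_id' η).const_mul (conj z)).const_add 1) (mob_ne hz hη)).congr_deriv ?_)
      congr 1; ring
  have n1 : 1 - conj z * w ≠ 0 := by simpa [sub_eq_add_neg] using mob_ne hz' hw
  have hη : (w - z) / (1 - conj z * w) ∈ ball (0 : ℂ) 1 := by
    simpa [sub_eq_add_neg, add_comm] using mob_mem hz' hw
  have m := mob (-z) w
  rw [map_neg, neg_mul, ← sub_eq_add_neg, neg_add_eq_sub, norm_neg] at m
  set η := (w - z) / (1 - conj z * w) with hd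
  have e1 : 1 + conj z * η = (1 - conj z * z) / (1 - conj z * w) := by rw [hd]; field_simp; ring
  have e2 : (z + η) / (1 + conj z * η) = w := by
    rw [e1, hd, div_div_eq_mul_div, add_mul, div_mul_cancel₀ _ n1, div_eq_iff z2]; ring
  have wz := sub_ne_zero.2 hne
  have η0 : η ≠ 0 := div_ne_zero wz n1
  have h := (dist1 (f := fun η => f ((z + η) / (1 + conj z * η)))
    (fun η hη => (hD η hη).differentiableAt.differentiableWithinAt) (fun a ha b hb e => by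
      have := hi (mob_mem hz ha) (mob_mem hz hb) e
      rw [div_eq_div_iff (mob_ne hz ha) (mob_ne hz hb)] at this
      exact mul_left_cancel₀ z2 (by linear_combination this)) hη).2
  rw [(hD η hη).deriv, (hD 0 (mem_ball_self one_pos)).deriv, dslope_of_ne _ η0, slope_def_field,
    e2, e1] at h
  simp only [mul_zero, add_zero, div_one, one_pow, sub_zero, hd, norm_mul, norm_div, norm_pow,
    nz] at h
  rw [dslope_of_ne _ hne, slope_def_field, norm_div, ← m]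
  have p1 := norm_pos_iff.2 n1
  have p2 := norm_pos_iff.2 wz
  convert h using 1 <;> field_simp

theorem ker_le (hf : DifferentiableOn ℂ f (ball 0 1)) (hi : Set.InjOn f (ball 0 1)) (f0 : f 0 = 0)
    (f1 : deriv f 0 = 1) {M : ℝ} (hM : ∀ z ∈ ball (0 : ℂ) 1, ‖f z‖ < M) {z : ℂ}
    (hz : z ∈ ball (0 : ℂ) 1) {t : ℝ} (ht : t ∈ Set.Icc (0 : ℝ) 1) {V : ℂ}
    (hV : V ^ 2 * dslope f z (t * z) = deriv f z ^ 2) :
    (1 / (8 * (|M| + 1))) ^ 2 * (1 - ‖z‖ ^ 2) * ‖V‖ ^ 4 ≤ ‖deriv f z‖ ^ 3 := by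
  have z1 := mem_ball_zero_iff.1 hz
  have nw : ‖(t * z : ℂ)‖ = t * ‖z‖ := by simp [abs_of_nonneg ht.1]
  have z0 := norm_nonneg z
  have hw : (t * z : ℂ) ∈ ball (0 : ℂ) 1 := by
    rw [mem_ball_zero_iff, nw]; nlinarith [ht.1, ht.2]
  have a1 := (dist1 hf hi hw).1
  have a2 := low hf hi f0 f1 hM hw
  have a3 := two_pt hf hi hz hw
  have a4 := congrArg (fun x => ‖x‖ ^ 2) hV
  have s1 : ‖z‖ ^ 2 < 1 := pow_lt_one₀ z0 z1 two_ne_zero
  have e : (1 : ℂ) - conj z * (t * z) = ((1 - t * ‖z‖ ^ 2 : ℝ) : ℂ) := by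
    rw [mul_left_comm, Complex.conj_mul']; push_cast; rfl
  have p1 : 0 < 1 - t * ‖z‖ ^ 2 := by nlinarith [ht.1, ht.2, sq_nonneg ‖z‖]
  have p2 : 1 - t * ‖z‖ ^ 2 ≤ 1 - (t * ‖z‖) ^ 2 := by
    nlinarith [mul_nonneg (mul_nonneg ht.1 (sub_nonneg.2 ht.2)) (sq_nonneg ‖z‖)]
  rw [e, Complex.norm_real, Real.norm_eq_abs, sq_abs, nw] at a3
  rw [f1, norm_one, mul_one, nw] at a1
  simp only [norm_mul, norm_pow] at a4
  have hp := norm_pos_iff.2 (deriv_ne hf hi hz)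
  have c0 : 0 < 1 / (8 * (|M| + 1)) := by positivity
  generalize 1 / (8 * (|M| + 1)) = c at *
  generalize ‖deriv f z‖ = a at *
  generalize 1 - (t * ‖z‖) ^ 2 = y at *
  have y0 : 0 < y := p1.trans_le p2
  have s0 := (sub_pos.2 s1).le
  have b1 : y * c ^ 2 ≤ ‖deriv f (t * z)‖ := le_trans (by gcongr) a1
  have b2 : y ^ 2 * (c ^ 2 * (1 - ‖z‖ ^ 2) * a) ≤ y ^ 2 * ‖dslope f z (t * z)‖ ^ 2 :=
    calc _ = (1 - ‖z‖ ^ 2) * y * (y * c ^ 2 * a) := by ring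
      _ ≤ _ := by gcongr
      _ ≤ _ := a3
      _ ≤ _ := by gcongr
  have b3 := le_of_mul_le_mul_left b2 (by positivity)
  refine le_of_mul_le_mul_left ?_ hp
  calc _ = c ^ 2 * (1 - ‖z‖ ^ 2) * a * ‖V‖ ^ 4 := by ring
    _ ≤ ‖dslope f z (t * z)‖ ^ 2 * ‖V‖ ^ 4 := by gcongr
    _ = _ := by linear_combination a4

end Pool.Agent.MP_6e64bc_an.H72.Err
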