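import Pool.Agent.MP_6e64bc_an.H72.Main
import Pool.Agent.MP_6e64bc_an.H72.Chk0
import Pool.Agent.MP_6e64bc_an.H72.Chk1
import Pool.Agent.MP_6e64bc_an.H72.Chk2
import Pool.Agent.MP_6e64bc_an.H72.Chk3

open Metric

namespace Pool.Agent.MP_6e64bc_an.H72

theorem allA (a : ℕ) (ha : a < 90) : okr LL pz sc 90 (dat.drop a) = true := by
  have h : ∀ s n, ckA s n = true → s ≤ a → a < s + n → okr LL pz sc 90 (dat.drop a) = true :=
    fun s n h h1 h2 => List.all_eq_true.1 h a (List.mem_range'_1.2 ⟨h1, h2⟩)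
  by_cases c0 : a < 5; · exact h _ _ a0 (by omega) (by omega)
  by_cases c1 : a < 10; · exact h _ _ a5 (by omega) (by omega)
  by_cases c2 : a < 15; · exact h _ _ a10 (by omega) (by omega)
  by_cases c3 : a < 20; · exact h _ _ a15 (by omega) (by omega)
  by_cases c4 : a < 25; · exact h _ _ a20 (by omega) (by omega)
  by_cases c5 : a < 30; · exact h _ _ a25 (by omega) (by omega)
  by_cases c6 : a < 35; · exact h _ _ a30 (by omega) (by omega)
  by_cases c7 : a < 40; · exact h _ _ a35 (by omega) (by omega)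
  by_cases c8 : a < 45; · exact h _ _ a40 (by omega) (by omega)
  by_cases c9 : a < 50; · exact h _ _ a45 (by omega) (by omega)
  by_cases c10 : a < 55; · exact h _ _ a50 (by omega) (by omega)
  by_cases c11 : a < 60; · exact h _ _ a55 (by omega) (by omega)
  by_cases c12 : a < 70; · exact h _ _ a60 (by omega) (by omega)
  by_cases c13 : a < 80; · exact h _ _ a70 (by omega) (by omega)
  exact h _ _ a80 (by omega) (by omega)

theorem allW (c : ℕ) (hc : c < 62) :
    okw dat c (gs.getD c 0 : ℕ) ((rows (13 / 40) 21 ld lj ls).getD c []) = true := by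
  have h : ∀ s n, ckW s n = true → s ≤ c → c < s + n →
      okw dat c (gs.getD c 0 : ℕ) ((rows (13 / 40) 21 ld lj ls).getD c []) = true :=
    fun s n h h1 h2 => List.all_eq_true.1 h c (List.mem_range'_1.2 ⟨h1, h2⟩)
  by_cases c0 : c < 23; · exact h _ _ w0 (by omega) (by omega)
  by_cases c1 : c < 46; · exact h _ _ w23 (by omega) (by omega)
  by_cases c2 : c < 52; · exact h _ _ w46 (by omega) (by omega)
  by_cases c3 : c < 53; · exact h _ _ w52 (by omega) (by omega)
  by_cases c4 : c < 54; · exact h _ _ w53 (by omega) (by omega)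
  by_cases c5 : c < 55; · exact h _ _ w54 (by omega) (by omega)
  by_cases c6 : c < 58; · exact h _ _ w55 (by omega) (by omega)
  exact h _ _ w58 (by omega) (by omega)

theorem len1 : dat.length = 90 := by decide +kernel

theorem len2 : (rows (13 / 40) 21 ld lj ls).length = 62 := by decide +kernel

theorem tabs : okt (13 / 40) (Gam : ℕ) (Lam : ℕ) 21 ms hs pz dat = true := by decide +kernel

theorem coef_bound (M : ℝ) :
    ∃ C : ℝ, ∀ f : ℂ → ℂ, DifferentiableOn ℂ f (ball 0 1) → Set.InjOn f (ball 0 1) → f 0 = 0 →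
      deriv f 0 = 1 → (∀ z ∈ ball (0 : ℂ) 1, ‖f z‖ < M) → ∀ n : ℕ, 1 ≤ n →
        ‖iteratedDeriv n f 0 / (n.factorial : ℂ)‖ ≤ C * (n : ℝ) ^ (-(27 / 40 : ℝ)) := by
  have hq : (((13 / 40 : ℚ)) : ℝ) = 13 / 40 := by norm_num
  obtain ⟨C, C0, hC⟩ := key (q := 13 / 40) (Γ := (Gam : ℕ)) (Λ := (Lam : ℕ)) (m := 90) (D := 21)
    (sc := sc) (L := LL) (ms := ms) (hs := hs) (ld := ld) (lj := lj) (ls := ls) (pz := pz)
    (dat := dat) (gs := fun c => (gs.getD c 0 : ℕ)) (by rw [hq]; norm_num)
    (by rw [Rat.cast_natCast]; exact Nat.cast_nonneg _)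
    (by rw [len1]; exact allA)
    (by rw [len2]; decide +kernel) tabs
    (by rw [len2]; exact allW)
    (by decide +kernel) (by decide +kernel) (by decide +kernel) (by decide +kernel)
  obtain ⟨K, hK⟩ := total (by rw [hq]; norm_num) M
    (by rw [Rat.cast_natCast]; exact Nat.cast_nonneg _)
    (by rw [Rat.cast_natCast]; exact Nat.cast_nonneg _) C0 (m := 90) (by decide +kernel) hC
  refine ⟨2 * K, fun f hf hi f0 f1 hM n hn => ?_⟩
  obtain ⟨m, rfl⟩ := Nat.exists_eq_add_of_le' hn
  have := coef (by rw [hq]; norm_num) (by rw [hq]; norm_num) hK hf hi f0 f1 hM m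
  rwa [hq, show (13 / 40 - 1 : ℝ) = -(27 / 40) by norm_num] at this

end Pool.Agent.MP_6e64bc_an.H72
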