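import Pool.Agent.MP_6e64bc_an.H72.Spec

open Finset Filter Topology

namespace Pool.Agent.MP_6e64bc_an.H72.Wz

lemma po_succ (a : ℝ) (n : ℕ) : po a (n + 1) = po a n * (a + n) := rfl

lemma po_zero (a : ℝ) : po a 0 = 1 := rfl

lemma po_pos {a : ℝ} (ha : 0 < a) (n : ℕ) : 0 < po a n := by
  induction n with
  | zero => rw [po_zero]; exact one_pos
  | succ n ih => rw [po_succ]; positivity

lemma po_succ' (a : ℝ) (n : ℕ) : po a (n + 1) = a * po (a + 1) n := by
  induction n with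
  | zero => simp [po_succ, po_zero]
  | succ n ih => rw [po_succ, ih, po_succ]; push_cast; ring

/-- the term in closed form -/
noncomputable def tt (b : ℝ) (N m : ℕ) : ℝ :=
  po ((N : ℝ) + 1 / 2) m ^ 2 / m.factorial * po b (2 * N) /
    (po (b + 1) (m + 2 * N) * po (b + 1) (2 * N))

lemma jj_eq {b : ℝ} (hb : 0 < b) (N m : ℕ) : jj b (N + m) N = tt b N m := by
  have h1 := po_pos (show 0 < b + 1 by linarith) (m + 2 * N)
  have h2 := po_pos (show 0 < b + 1 by linarith) (2 * N)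
  have h3 : (0 : ℝ) < m.factorial := by exact_mod_cast m.factorial_pos
  have h4 : ((-1 : ℝ) ^ m) ^ 2 = 1 := by rw [← pow_mul, mul_comm, pow_mul]; simp
  rw [jj, if_pos (Nat.le_add_right N m), Nat.add_sub_cancel_left, gch, bw, tt, div_pow, mul_pow, h4]
  field_simp

lemma tt_pos {b : ℝ} (hb : 0 < b) (N m : ℕ) : 0 < tt b N m := by
  have h0 := po_pos (show 0 < (N : ℝ) + 1 / 2 by positivity) m
  have h1 := po_pos (show 0 < b + 1 by linarith) (m + 2 * N)
  have h2 := po_pos (show 0 < b + 1 by linarith) (2 * N)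
  have h3 : (0 : ℝ) < m.factorial := by exact_mod_cast m.factorial_pos
  have h4 := po_pos hb (2 * N)
  unfold tt
  positivity

lemma jj_nonneg {b : ℝ} (hb : 0 < b) (l N : ℕ) : 0 ≤ jj b l N := by
  by_cases h : N ≤ l
  · obtain ⟨m, rfl⟩ := Nat.exists_eq_add_of_le h
    rw [jj_eq hb]; exact (tt_pos hb N m).le
  · rw [jj, if_neg h]

lemma tt_succ {b : ℝ} (hb : 0 < b) (N m : ℕ) : tt b N (m + 1) =
    tt b N m * (((N : ℝ) + 1 / 2 + m) ^ 2 / ((m + 1) * (b + 1 + m + 2 * N))) := by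
  have h1 := po_pos (show 0 < b + 1 by linarith) (m + 2 * N)
  have h2 := po_pos (show 0 < b + 1 by linarith) (2 * N)
  have h3 : (0 : ℝ) < m.factorial := by exact_mod_cast m.factorial_pos
  have e : m + 1 + 2 * N = m + 2 * N + 1 := by ring
  rw [tt, tt, e, po_succ, po_succ, Nat.factorial_succ]
  push_cast
  field_simp
  ring

lemma tt_shift {b : ℝ} (hb : 0 < b) (N m : ℕ) : tt b (N + 1) m =
    tt b N (m + 1) * ((m + 1) * (b + 2 * N) /
      (((N : ℝ) + 1 / 2) ^ 2 * (b + 2 * N + 2) * (b + m + 2 * N + 2))) := by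
  have h1 := po_pos (show 0 < b + 1 by linarith) (m + 1 + 2 * N)
  have h2 := po_pos (show 0 < b + 1 by linarith) (2 * N)
  have h3 : (0 : ℝ) < m.factorial := by exact_mod_cast m.factorial_pos
  have e : m + 2 * (N + 1) = m + 1 + 2 * N + 1 := by ring
  have e2 : 2 * (N + 1) = 2 * N + 1 + 1 := by ring
  have e3 : (((N + 1 : ℕ) : ℝ) + 1 / 2) = (N : ℝ) + 1 / 2 + 1 := by push_cast; ring
  rw [tt, tt, e, e2, e3, po_succ' ((N : ℝ) + 1 / 2), po_succ (b + 1) (m + 1 + 2 * N),
    po_succ b, po_succ b, po_succ (b + 1) (2 * N + 1), po_succ (b + 1) (2 * N),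
    Nat.factorial_succ]
  push_cast
  field_simp
  ring

/-- truncated sums -/
noncomputable def SS (b : ℝ) (N L : ℕ) : ℝ := ∑ l ∈ range (L + 1), jj b l N / (l - 1 / 2)

/-- ratio of consecutive energies -/
noncomputable def rr (b : ℝ) (N : ℕ) : ℝ :=
  (b + 2 * N) * (N - 1 / 2) /
    ((b + 2 * N + 2) * (N + 1 / 2) * (b + N + 1 / 2) * (b + N + 3 / 2))

/-- coefficient of the remainder -/
noncomputable def CC (b : ℝ) (N : ℕ) : ℝ :=
  (b + 2 * N) * (b + 2 * N + 1) /
    ((b + 2 * N + 2) * (N + 1 / 2) ^ 2 * (b + N + 1 / 2) * (b + N + 3 / 2))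

lemma CC_pos {b : ℝ} (hb : 0 < b) (N : ℕ) : 0 < CC b N := by
  unfold CC; positivity

lemma half_ne (N : ℕ) : (N : ℝ) - 1 / 2 ≠ 0 := by
  intro h
  have h2 : ((2 * N : ℕ) : ℝ) = ((1 : ℕ) : ℝ) := by push_cast; linarith
  have := Nat.cast_injective h2
  omega

lemma kk_succ {b : ℝ} (hb : 0 < b) (N : ℕ) : kk b (N + 1) = rr b N * kk b N := by
  have h1 := po_pos (show 0 < b + 1 / 2 by linarith) N
  have h2 := po_pos (show 0 < b + 3 / 2 by linarith) N
  have h3 := half_ne N
  have h0 : kk b N =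
      b / 2 / ((b + 2 * N) * (N - 1 / 2) * po (b + 1 / 2) N * po (b + 3 / 2) N) := by
    rcases Nat.eq_zero_or_pos N with rfl | h
    · simp only [kk, if_true, po_zero]
      field_simp
      ring
    · rw [kk, if_neg h.ne']
  have e : (((N + 1 : ℕ) : ℝ) - 1 / 2) = (N : ℝ) + 1 / 2 := by push_cast; ring
  rw [h0, kk, if_neg (Nat.succ_ne_zero N), e, po_succ, po_succ, rr]
  generalize (N : ℝ) - 1 / 2 = d at h3
  push_cast
  field_simp
  ring

lemma kk_pos {b : ℝ} (hb : 0 < b) {N : ℕ} (hN : 1 ≤ N) : 0 < kk b N := by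
  have h1 := po_pos (show 0 < b + 1 / 2 by linarith) N
  have h2 := po_pos (show 0 < b + 3 / 2 by linarith) N
  have h3 : (0 : ℝ) < N - 1 / 2 := by
    have : (1 : ℝ) ≤ N := by exact_mod_cast hN
    linarith
  rw [kk, if_neg (by omega)]
  positivity

lemma SS_succ (b : ℝ) (N L : ℕ) :
    SS b N (L + 1) = SS b N L + jj b (L + 1) N / (L + 1 / 2) := by
  rw [SS, sum_range_succ, ← SS]
  push_cast
  congr 2
  ring

lemma ident {b : ℝ} (hb : 0 < b) (N m : ℕ) :
    rr b N * SS b N (N + m) - SS b (N + 1) (N + m) =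
      CC b N * ((m + 1) * (tt b N (m + 1) / (N + m + 1 / 2))) := by
  induction m with
  | zero =>
    have h1 : SS b N N = tt b N 0 / (N - 1 / 2) := by
      rw [SS, sum_range_succ, sum_eq_zero, zero_add, ← jj_eq hb N 0, add_zero]
      intro l hl
      rw [jj, if_neg (by simpa using hl), zero_div]
    have h2 : SS b (N + 1) N = 0 := by
      refine sum_eq_zero fun l hl => ?_
      rw [jj, if_neg (by simpa using hl), zero_div]
    have h3 := half_ne N
    rw [add_zero, h1, h2, tt_succ hb, rr, CC]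
    generalize (N : ℝ) - 1 / 2 = d at h3
    push_cast
    field_simp
    ring
  | succ m ih =>
    have e1 : jj b (N + m + 1) N = tt b N (m + 1) := jj_eq hb N (m + 1)
    have e2 : jj b (N + m + 1) (N + 1) = tt b (N + 1) m := by
      rw [← jj_eq hb (N + 1) m]; congr 1; ring
    rw [← add_assoc, SS_succ, SS_succ, e1, e2, tt_shift hb, tt_succ hb N (m + 1)]
    generalize tt b N (m + 1) = t at ih ⊢
    have key : rr b N * (t / (N + m + 1 / 2)) - t * ((m + 1) * (b + 2 * N) /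
        (((N : ℝ) + 1 / 2) ^ 2 * (b + 2 * N + 2) * (b + m + 2 * N + 2))) / (N + m + 1 / 2) +
        CC b N * ((m + 1) * (t / (N + m + 1 / 2))) =
        CC b N * ((m + 1 + 1) * (t * (((N : ℝ) + 1 / 2 + (m + 1)) ^ 2 /
          ((m + 1 + 1) * (b + 1 + (m + 1) + 2 * N))) / (N + (m + 1) + 1 / 2))) := by
      rw [rr, CC]
      field_simp
      ring
    push_cast
    linarith

lemma SS_mono {b : ℝ} (hb : 0 < b) (N : ℕ) : Monotone (SS b N) :=
  monotone_nat_of_le_succ fun L => by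
    rw [SS_succ]
    have := jj_nonneg hb (L + 1) N
    have : 0 ≤ jj b (L + 1) N / (L + 1 / 2) := by positivity
    linarith

lemma rem_nonneg {b : ℝ} (hb : 0 < b) (N m : ℕ) :
    SS b (N + 1) (N + m) ≤ rr b N * SS b N (N + m) := by
  have h := ident hb N m
  have h1 := CC_pos hb N
  have h2 := tt_pos hb N (m + 1)
  have : 0 ≤ CC b N * ((m + 1) * (tt b N (m + 1) / (N + m + 1 / 2))) := by positivity
  linarith

lemma rr_neg {b : ℝ} (hb : 0 < b) : rr b 0 < 0 := by
  unfold rr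
  apply div_neg_of_neg_of_pos
  · push_cast; nlinarith
  · positivity

lemma SS_one_pos {b : ℝ} (hb : 0 < b) : 0 < SS b 1 1 := by
  have h := tt_pos hb 1 0
  rw [← jj_eq hb] at h
  rw [SS_succ, SS, sum_range_one, jj, if_neg (by norm_num), zero_div, zero_add]
  have : (0 : ℝ) < ((0 : ℕ) : ℝ) + 1 / 2 := by positivity
  exact div_pos h this

lemma conv0 {b : ℝ} (hb : 0 < b) : ∃ s, Tendsto (SS b 0) atTop (𝓝 s) := by
  refine ⟨_, tendsto_atTop_ciSup (SS_mono hb 0) ⟨0, ?_⟩⟩
  rintro _ ⟨L, rfl⟩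
  have h1 := rem_nonneg hb 0 (L + 1)
  have h2 := SS_mono hb 1 (show 1 ≤ 0 + (L + 1) by omega)
  have h3 := SS_one_pos hb
  have h4 := rr_neg hb
  have h5 := SS_mono hb 0 (show L ≤ 0 + (L + 1) by omega)
  by_contra h
  push Not at h
  have : rr b 0 * SS b 0 (0 + (L + 1)) < 0 := mul_neg_of_neg_of_pos h4 (by linarith)
  simp only [zero_add] at *
  linarith

lemma step {b : ℝ} (hb : 0 < b) (N : ℕ) {s : ℝ} (hs : Tendsto (SS b N) atTop (𝓝 s)) :
    Tendsto (SS b (N + 1)) atTop (𝓝 (rr b N * s)) := by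
  have sh : Tendsto (fun m => N + m) atTop atTop := tendsto_atTop_mono (fun m => by simp) tendsto_id
  have hs' : Tendsto (fun m => rr b N * SS b N (N + m)) atTop (𝓝 (rr b N * s)) :=
    (hs.comp sh).const_mul _
  obtain ⟨B, hB⟩ := hs'.bddAbove_range
  have hc : Tendsto (SS b (N + 1)) atTop (𝓝 (⨆ L, SS b (N + 1) L)) := by
    refine tendsto_atTop_ciSup (SS_mono hb _) ⟨B, ?_⟩
    rintro _ ⟨L, rfl⟩
    exact (SS_mono hb _ (Nat.le_add_left L N)).trans ((rem_nonneg hb N L).trans (hB ⟨L, rfl⟩))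
  generalize (⨆ L, SS b (N + 1) L) = s' at hc
  have hd := hs'.sub (hc.comp sh)
  have hle : 0 ≤ rr b N * s - s' :=
    ge_of_tendsto' hd fun m => sub_nonneg.2 (rem_nonneg hb N m)
  rcases hle.eq_or_lt with h | h
  · have : rr b N * s = s' := by linarith
    rwa [this]
  exfalso
  set τ := rr b N * s - s' with hτ
  have hC := CC_pos hb N
  have ha : Summable fun m : ℕ => tt b N (m + 1) / (N + m + 1 / 2) := by
    refine summable_of_sum_range_le (c := s - SS b N N)
      (fun m => by have := tt_pos hb N (m + 1); positivity) fun n => ?_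
    have e : ∑ m ∈ range n, tt b N (m + 1) / (N + m + 1 / 2) = SS b N (N + n) - SS b N N := by
      induction n with
      | zero => simp
      | succ n ih =>
        rw [sum_range_succ, ih, ← add_assoc, SS_succ, ← jj_eq hb N (n + 1), ← add_assoc]
        push_cast
        ring
    rw [e]
    have := (SS_mono hb N).ge_of_tendsto hs (N + n)
    linarith
  have hev : ∀ᶠ m : ℕ in atTop, ‖1 / ((m + 1 : ℕ) : ℝ)‖ ≤
      2 * CC b N / τ * (tt b N (m + 1) / (N + m + 1 / 2)) := by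
    filter_upwards [hd.eventually (lt_mem_nhds (show τ / 2 < τ by linarith))] with m hm
    simp only [Function.comp] at hm
    rw [ident hb] at hm
    rw [Real.norm_of_nonneg (by positivity)]
    generalize tt b N (m + 1) / (N + m + 1 / 2) = a at hm
    push_cast
    rw [div_le_iff₀ (by positivity), div_mul_eq_mul_div, div_mul_eq_mul_div, le_div_iff₀ h]
    nlinarith
  have h1 : Summable fun m : ℕ => 1 / ((m + 1 : ℕ) : ℝ) :=
    Summable.of_norm_bounded_eventually_nat (ha.mul_left _) hev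
  exact Real.not_summable_one_div_natCast ((summable_nat_add_iff 1).1 h1)

lemma part1 {b : ℝ} (hb : 0 < b) :
    ∃ κ : ℝ, 0 < κ ∧ ∀ N, Tendsto (SS b N) atTop (𝓝 (κ * kk b N)) := by
  obtain ⟨s, hs⟩ := conv0 hb
  refine ⟨-s, ?_, fun N => ?_⟩
  · have h1 := (SS_mono hb 1).ge_of_tendsto (step hb 0 hs) 1
    have h2 := SS_one_pos hb
    have h3 := rr_neg hb
    by_contra h
    have : rr b 0 * s ≤ 0 := mul_nonpos_of_nonpos_of_nonneg h3.le (by linarith)
    linarith
  · induction N with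
    | zero => simpa [kk] using hs
    | succ N ih =>
      have := step hb N ih
      rw [kk_succ hb]
      convert this using 2
      ring

lemma KK_nonneg {b : ℝ} (hb : 0 < b) {N : ℕ} (hN : 1 ≤ N) : 0 ≤ KK b N := by
  have h1 := po_pos (show 0 < b + 1 / 2 by linarith) N
  have h2 := po_pos (show 0 < b + 3 / 2 by linarith) N
  have h0 : (1 : ℝ) ≤ N := by exact_mod_cast hN
  have h3 : (0 : ℝ) < N - 1 / 2 := by linarith
  have h4 : (0 : ℝ) < b + N - 1 / 2 := by linarith
  unfold KK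
  positivity

lemma KK_sub {b : ℝ} (hb : 0 < b) {j : ℕ} (hj : 1 ≤ j) :
    ps b (b + 1 / 2) (1 / 2) j ^ 2 / kk b j = KK b j - KK b (j + 1) := by
  have h1 := po_pos (show 0 < b + 1 / 2 by linarith) j
  have h2 := po_pos (show 0 < b + 3 / 2 by linarith) j
  have h3 := half_ne j
  have e1 : b + 1 + 1 / 2 = b + 3 / 2 := by ring
  have e2 : -(1 / 2 : ℝ) = -1 / 2 := by ring
  rw [ps, kk, if_neg (by omega), KK, KK, e1, e2, po_succ, po_succ, po_succ]
  push_cast
  have h4 : (2 * j - 1 : ℝ) ≠ 0 := fun h => h3 (by linarith)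
  have h5 : (j * 2 - 1 : ℝ) ≠ 0 := fun h => h3 (by linarith)
  field_simp
  ring

lemma part2 {b : ℝ} (hb : 0 < b) (N n : ℕ) (c : ℕ → ℝ) (hN : 1 ≤ N) :
    (∑ j ∈ Ico N n, c j * ((-1) ^ j * ps b (b + 1 / 2) (1 / 2) j)) ^ 2 ≤
      KK b N * ∑ j ∈ Ico N n, kk b j * c j ^ 2 := by
  have hk : ∀ j ∈ Ico N n, 0 < kk b j := fun j hj => kk_pos hb (hN.trans (mem_Ico.1 hj).1)
  have h1 := sum_sq_le_sum_mul_sum_of_sq_eq_mul (Ico N n)
    (r := fun j => c j * ((-1) ^ j * ps b (b + 1 / 2) (1 / 2) j))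
    (f := fun j => ps b (b + 1 / 2) (1 / 2) j ^ 2 / kk b j) (g := fun j => kk b j * c j ^ 2)
    (fun j hj => by have := hk j hj; positivity) (fun j hj => by have := hk j hj; positivity)
    (fun j hj => by
      have := (hk j hj).ne'
      have h4 : ((-1 : ℝ) ^ j) ^ 2 = 1 := by rw [← pow_mul, mul_comm, pow_mul]; simp
      rw [mul_pow, mul_pow, h4]
      field_simp)
  refine h1.trans (mul_le_mul_of_nonneg_right ?_
    (sum_nonneg fun j hj => by have := hk j hj; positivity))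
  rcases le_or_gt N n with h | h
  · obtain ⟨m, rfl⟩ := Nat.exists_eq_add_of_le h
    have e : ∀ m, ∑ j ∈ Ico N (N + m), ps b (b + 1 / 2) (1 / 2) j ^ 2 / kk b j =
        KK b N - KK b (N + m) := by
      intro m
      induction m with
      | zero => simp
      | succ m ih =>
        rw [← add_assoc, sum_Ico_succ_top (Nat.le_add_right N m), ih, KK_sub hb (by omega)]
        ring
    rw [e]
    have := KK_nonneg hb (show 1 ≤ N + m by omega)
    linarith
  · rw [Ico_eq_empty_of_le h.le, sum_empty]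
    exact KK_nonneg hb hN

theorem main : WZ := fun _ hb => ⟨part1 hb, part2 hb⟩

end Pool.Agent.MP_6e64bc_an.H72.Wz
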