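import Pool.Agent.MP_6e64bc_an.H72.Asym
import Pool.Agent.MP_6e64bc_an.H72.Wz

open Finset Filter Topology Asymptotics

namespace Pool.Agent.MP_6e64bc_an.H72

/-- product of two basic monomials -/
def pm (hs : List (List ℕ)) (i l : ℕ) : List ℕ := hs.getD i [] ++ hs.getD l []

/-- the twisted form in degree `n` -/
noncomputable def tw {b : ℝ} (L : List (List (List ℤ))) (hs : List (List ℕ)) (p : Alg b × ℕ) : ℝ :=
  ∑ i ∈ range hs.length, ∑ l ∈ range hs.length, ∑ k ∈ range hs.length, ∑ j ∈ range hs.length,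
    (dot (lk L i j) (lk L k l) : ℝ) * bw b p.2 ((pm hs i l).sum + (pm hs k j).sum) *
      (p.1.g (pm hs i l) p.2 * p.1.g (pm hs k j) p.2)

theorem sum_flatMap' {α β : Type} (l : List α) (f : α → List β) (F : β → ℝ) :
    ((l.flatMap f).map F).sum = (l.map fun a => ((f a).map F).sum).sum := by
  induction l with
  | nil => simp
  | cons a l ih => simp [ih]

theorem rsum_comm {α β : Type} (f : List α) (g : List β) (F : α → β → ℝ) :
    (f.map fun a => (g.map fun c => F a c).sum).sum =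
      (g.map fun c => (f.map fun a => F a c).sum).sum := by
  induction f with
  | nil => simp
  | cons a f ih => simp [ih, List.sum_map_add]

theorem lsum_rng (n : ℕ) (F : ℕ → ℝ) : ((List.range n).map F).sum = ∑ i ∈ range n, F i := by
  induction n with
  | zero => simp
  | succ n ih => simp [List.range_succ, ih, sum_range_succ]

theorem fib_sum {dat : List Rc} {h : ℕ} (hp : (dat.flatMap Rc.fib).Perm
    ((List.range h).flatMap fun i => (List.range h).map fun l => (i, l))) (F : ℕ × ℕ → ℝ) :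
    (dat.map fun r => (r.fib.map F).sum).sum = ∑ i ∈ range h, ∑ l ∈ range h, F (i, l) := by
  rw [← sum_flatMap', (hp.map F).sum_eq, sum_flatMap', lsum_rng]
  simp only [List.map_map, lsum_rng, Function.comp]

theorem KK_pos {b : ℝ} (hb : 0 < b) (D : ℕ) : 0 < KK b (D + 1) := by
  have h1 : ∀ n, po (-1 / 2 : ℝ) n ≠ 0 := fun n => by
    rcases n with _ | n
    · simp [po]
    · rw [po_succ']; exact mul_ne_zero (by norm_num) (po_pos (by norm_num) n).ne'
  have := po_pos (show 0 < b + 1 / 2 by positivity) (D + 1)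
  have := po_pos (show 0 < b + 3 / 2 by positivity) (D + 1)
  have := pow_pos (abs_pos.2 (h1 (D + 1))) 2
  rw [sq_abs] at this
  have h0 : (0 : ℝ) ≤ D := D.cast_nonneg
  have a1 : 0 < b + (D + 1 : ℕ) - 1 / 2 := by push_cast; linarith
  have a2 : 0 < ((D + 1 : ℕ) : ℝ) - 1 / 2 := by push_cast; linarith
  unfold KK; positivity

theorem key {q Γ Λ : ℚ} (hq : 0 < (q : ℝ)) (hΓ : 0 ≤ (Γ : ℝ)) {D sc m : ℕ} {L : List (List (List ℤ))}
    {ms hs ld : List (List ℕ)} {lj ls : List ℕ} {pz : List ℤ} {dat : List Rc} {gs : ℕ → ℚ}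
    (hA : ∀ a < dat.length, okr L pz sc dat.length (dat.drop a) = true)
    (hn : ∀ r ∈ dat, r.rc.length ≤ (rows q D ld lj ls).length ∧ r.l2.length ≤ m)
    (hT : okt q Γ Λ D ms hs pz dat = true)
    (hW : ∀ c < (rows q D ld lj ls).length,
      okw dat c (gs c) ((rows q D ld lj ls).getD c []) = true)
    (hD : ∀ l ∈ ld, l ∈ ms) (hJ : ∀ e ∈ lj, e ≤ D ∧ ∀ a ∈ rr e, a.1.sum = e)
    (hS : ∀ e ∈ ls, e ≤ D) (h0 : [] ∈ ms) :
    ∃ C : ℝ, 0 ≤ C ∧ ∀ᶠ p in FF q, bw q p.2 0 * p.1.g [] p.2 ^ 2 / 3 ≤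
      Γ * (bw q p.2 0 * ∑ N ∈ range (p.2 + 1), kk (q : ℝ) N * p.1.c p.2 N ^ 2) - Λ * tw L hs p +
        C * (bw q p.2 1 * er p ^ 2) := by
  simp only [okt, Bool.and_eq_true, decide_eq_true_eq, List.all_eq_true, beq_iff_eq,
    List.isPerm_iff, List.mem_range] at hT
  obtain ⟨⟨⟨⟨t1, t2⟩, t3⟩, t4⟩, t5⟩ := hT
  set vs := dat.map Rc.v with hvs
  have hv : ∀ N ≤ D, Var.cc N ∈ vs := fun N hN => by simp [t1]; omega
  have hm : ∀ l ∈ ms, Var.mon l ∈ vs := fun l hl => by simp [t1, hl]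
  have hp : ∀ i < hs.length, ∀ l < hs.length, Var.mon (nf (pm hs i l)) ∈ vs := fun i hi l hl => by
    obtain ⟨r, hr, ha⟩ := List.mem_flatMap.1 (t3.mem_iff.2 (show (i, l) ∈ _ by simp [hi, hl]))
    exact List.mem_map.2 ⟨r, hr, (t2 r hr).2 _ ha⟩
  set R := ld.map rowD ++ lj.map (rowJ q) ++ ls.map (rowS q) with hR
  have sq_o : ∀ {u : Alg q × ℕ → ℝ}, u =o[FF q] Nm D vs →
      (fun p => u p ^ 2) =o[FF q] fun p => Nm D vs p ^ 2 := fun h => by
    simpa only [sq] using h.mul_isBigO h.isBigO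
  have s1 : (fun p => ∑ c ∈ range R.length, ((gs (c + 1) : ℝ) * ev (R.getD c []) (XX D p)) ^ 2)
      =o[FF q] fun p => Nm D vs p ^ 2 := by
    refine IsLittleO.fun_sum fun c hc => sq_o (IsLittleO.const_mul_left ?_ _)
    have : R.getD c [] ∈ R := by
      rw [List.getD_eq_getElem _ _ (mem_range.1 hc)]; exact List.getElem_mem _
    generalize R.getD c [] = row at this
    simp only [hR, List.mem_append, List.mem_map] at this
    rcases this with (⟨l, hl, rfl⟩ | ⟨e, he, rfl⟩) | ⟨e, he, rfl⟩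
    · exact rowD_small D (hm l (hD l hl))
    · exact rowJ_small hq hv (hJ e he).1 (hJ e he).2
    · exact rowS_small hq hv (hS e he)
  set T : ℕ → ℕ → ℕ → ℕ → Alg q × ℕ → ℝ := fun i l k j p =>
    Λ * (dot (lk L i j) (lk L k l) : ℝ) * po (q : ℝ) ((pm hs i l).sum + (pm hs k j).sum) *
      (XX D p (.mon (nf (pm hs i l))) * XX D p (.mon (nf (pm hs k j)))) with hTd
  have s2 : (fun p => Λ * tw L hs p / bw q p.2 0 - ∑ i ∈ range hs.length, ∑ l ∈ range hs.length,
      ∑ k ∈ range hs.length, ∑ j ∈ range hs.length, T i l k j p) =o[FF q]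
      fun p => Nm D vs p ^ 2 := by
    simp only [tw, mul_sum, sum_div, ← sum_sub_distrib]
    refine IsLittleO.fun_sum fun i hi => IsLittleO.fun_sum fun l hl => IsLittleO.fun_sum fun k hk =>
      IsLittleO.fun_sum fun j hj => ?_
    have t := ((po_lim (q + 1) ((pm hs i l).sum + (pm hs k j).sum)).inv₀ one_ne_zero).sub_const 1
    rw [inv_one, sub_self] at t
    have u : T i l k j =O[FF q] fun p => Nm D vs p ^ 2 := by
      simpa only [sq] using ((big D (hp i (mem_range.1 hi) l (mem_range.1 hl))).mul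
        (big D (hp k (mem_range.1 hk) j (mem_range.1 hj)))).const_mul_left _
    refine (small t u).congr' ?_ EventuallyEq.rfl
    filter_upwards [evF (eventually_gt_atTop 0)] with ⟨A, n⟩ hn
    have a0 : (n : ℝ) ≠ 0 := by positivity
    have a1 := (bw_pos hq n 0).ne'
    have a2 := (po_pos (show (0 : ℝ) < q + 1 + n by positivity)
      ((pm hs i l).sum + (pm hs k j).sum)).ne'
    simp only [hTd, XX, sum_nf, A.nrm, bw_eq hq n (_ + _), pow_add]
    field_simp
  refine ⟨gs 0 ^ 2 * ((q + 1) / q), by positivity, ?_⟩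
  filter_upwards [s1.bound (show (0 : ℝ) < 1 / 3 by norm_num),
    s2.bound (show (0 : ℝ) < 1 / 3 by norm_num), evF (eventually_ge_atTop D)] with p e1 e2 e3
  have b0 := bw_pos hq p.2 0
  have n2 : Nm D vs p ^ 2 = (vs.map fun v => XX D p v ^ 2).sum :=
    Real.sq_sqrt (List.sum_nonneg (by simp; intros; positivity))
  have k0 : p.1.g [] p.2 ^ 2 ≤ Nm D vs p ^ 2 := by
    rw [n2]
    exact le_of_eq_of_le (by simp [XX]) (List.single_le_sum (by simp; intros; positivity) _
      (List.mem_map_of_mem (hm _ h0)))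
  have k1 := sound hA hn fun a => XX D p (dat.getD a r0).v
  rw [sum_congr rfl fun c hc => congrArg (· ^ 2) (okw_ev (hW c (mem_range.1 hc)) (XX D p)),
    lsum_range dat r0 fun r => XX D p r.v ^ 2, lsum_range dat r0 fun r => r.ez * XX D p r.v ^ 2,
    rows, List.length_cons, sum_range_succ'] at k1
  simp only [List.getD_cons_succ, List.getD_cons_zero, ← hR] at k1
  have k2 : (dat.map fun r => (r.ez : ℝ) * XX D p r.v ^ 2).sum ≤
      Γ * ∑ N ∈ range (p.2 + 1), kk (q : ℝ) N * p.1.c p.2 N ^ 2 := by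
    have a1 : (dat.map fun r => (r.ez : ℝ) * XX D p r.v ^ 2).sum ≤
        Γ * (vs.map fun v => en (q : ℝ) D v * XX D p v ^ 2).sum := by
      rw [hvs, List.map_map, ← List.sum_map_mul_left]
      refine List.sum_le_sum fun r hr => ?_
      have : (r.ez : ℝ) ≤ Γ * en (q : ℝ) D r.v := by
        rw [← en_cast]; exact_mod_cast (t2 r hr).1.1
      simp only [Function.comp, ← mul_assoc]
      gcongr
    refine a1.trans (mul_le_mul_of_nonneg_left ?_ hΓ)
    have a2 := (Wz.main q hq).2 (D + 1) (p.2 + 1) (p.1.c p.2) (by omega)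
    rw [← div_le_iff₀' (KK_pos hq D)] at a2
    rw [t1, ← sum_range_add_sum_Ico _ (show D + 1 ≤ p.2 + 1 by omega)]
    simp only [List.map_append, List.sum_append, List.map_map, Function.comp_def, en, XX, lsum_rng,
      zero_mul, List.map_const', List.sum_replicate, smul_zero, zero_add, List.map_cons,
      List.map_nil, List.sum_cons, List.sum_nil, add_zero, one_div_mul_eq_div]
    linarith
  have k3 : ∑ a ∈ range dat.length, ∑ b ∈ range dat.length,
      ((pz.getD ((dat.getD a r0).wt + (dat.getD b r0).wt) 0 *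
        gat L (dat.getD a r0).fib (dat.getD b r0).fib : ℤ) : ℝ) *
        (XX D p (dat.getD a r0).v * XX D p (dat.getD b r0).v) =
      ∑ i ∈ range hs.length, ∑ l ∈ range hs.length,
        ∑ k ∈ range hs.length, ∑ j ∈ range hs.length, T i l k j p := by
    rw [← fib_sum t3 fun a => ∑ k ∈ range hs.length, ∑ j ∈ range hs.length, T a.1 a.2 k j p,
      lsum_range dat r0 fun r => ∑ b ∈ range dat.length,
        ((pz.getD (r.wt + (dat.getD b r0).wt) 0 * gat L r.fib (dat.getD b r0).fib : ℤ) : ℝ) *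
          (XX D p r.v * XX D p (dat.getD b r0).v)]
    refine congrArg _ (List.map_congr_left fun r hr => ?_)
    rw [lsum_range dat r0 fun s => ((pz.getD (r.wt + s.wt) 0 * gat L r.fib s.fib : ℤ) : ℝ) *
      (XX D p r.v * XX D p s.v)]
    have c1 : ∀ a : ℕ × ℕ, ∑ k ∈ range hs.length, ∑ j ∈ range hs.length, T a.1 a.2 k j p =
        (dat.map fun s => (s.fib.map fun c => T a.1 a.2 c.1 c.2 p).sum).sum := fun a =>
      (fib_sum t3 fun c => T a.1 a.2 c.1 c.2 p).symm
    simp only [c1]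
    rw [rsum_comm]
    refine congrArg _ (List.map_congr_left fun s hs' => ?_)
    have c2 : ((pz.getD (r.wt + s.wt) 0 : ℤ) : ℝ) = Λ * po (q : ℝ) (r.wt + s.wt) := by
      rw [← po_cast]
      exact_mod_cast t5 _ (by have := t4 r hr; have := t4 s hs'; omega)
    rw [Int.cast_mul, c2, gat, Int.cast_list_sum, List.map_map, ← List.sum_map_mul_left,
      ← List.sum_map_mul_right]
    refine congrArg _ (List.map_congr_left fun a ha => ?_)
    rw [Function.comp, Int.cast_list_sum, List.map_map, ← List.sum_map_mul_left,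
      ← List.sum_map_mul_right]
    refine congrArg _ (List.map_congr_left fun c hc => ?_)
    rw [(t2 r hr).1.2, (t2 s hs').1.2, (t2 r hr).2 a ha, (t2 s hs').2 c hc]
    simp only [hTd, vw, sum_nf, pm, Function.comp]; ring
  have k4 := rowI_eq hq p e3
  rw [k3, show (dat.map fun r => XX D p r.v ^ 2).sum = Nm D vs p ^ 2 by
    rw [n2, hvs, List.map_map]; rfl] at k1
  rw [Real.norm_eq_abs, Real.norm_eq_abs, abs_of_nonneg (sq_nonneg (Nm D vs p))] at e1 e2
  have k5 : p.1.g [] p.2 ^ 2 / 3 ≤ Γ * ∑ N ∈ range (p.2 + 1), kk (q : ℝ) N * p.1.c p.2 N ^ 2 -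
      Λ * tw L hs p / bw q p.2 0 + gs 0 ^ 2 * ev (rowI q D) (XX D p) ^ 2 := by
    rw [← mul_pow]; linarith [le_abs_self (∑ c ∈ range R.length,
      ((gs (c + 1) : ℝ) * ev (R.getD c []) (XX D p)) ^ 2), (abs_le.1 e2).2]
  have k6 := mul_le_mul_of_nonneg_left k5 b0.le
  rw [mul_add, mul_sub, mul_div_cancel₀ _ b0.ne'] at k6
  nlinarith [mul_le_mul_of_nonneg_left k4 (sq_nonneg (gs 0 : ℝ))]

end Pool.Agent.MP_6e64bc_an.H72
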