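import Pool.Agent.MP_6e64bc_an.H72.Ser1

open Finset PowerSeries Metric Filter Topology

namespace Pool.Agent.MP_6e64bc_an.H72.Ser

theorem hs_congr {u v : ℕ → ℂ} {a b : ℂ} (h : HasSum u a) (e : ∀ n, v n = u n) (e' : b = a) :
    HasSum v b := by rwa [funext e, e']

theorem hs_mul {G H : ℂ⟦X⟧} {a b : ℂ} (hG : HasSum (fun n => coeff n G) a)
    (hH : HasSum (fun n => coeff n H) b) : HasSum (fun n => coeff n (G * H)) (a * b) := by
  have h1 := hG.summable.norm
  have h2 := hH.summable.norm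
  rw [← hG.tsum_eq, ← hH.tsum_eq, tsum_mul_tsum_eq_tsum_sum_antidiagonal_of_summable_norm h1 h2]
  simpa only [coeff_mul] using
    (summable_norm_sum_mul_antidiagonal_of_summable_norm h1 h2).of_norm.hasSum

/-- `G` sums to `g` on the disc -/
def HS (G : ℂ⟦X⟧) (g : ℂ → ℂ) : Prop :=
  ∀ s ∈ ball (0 : ℂ) 1, HasSum (fun n => coeff n (rescale s G)) (g s)

theorem HS.mul {G H : ℂ⟦X⟧} {g h : ℂ → ℂ} (a : HS G g) (b : HS H h) :
    HS (G * H) fun s => g s * h s := fun s hs => by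
  rw [map_mul]; exact hs_mul (a s hs) (b s hs)

theorem HS.cv {G : ℂ⟦X⟧} {g : ℂ → ℂ} (a : HS G g) : Cv G := fun r h0 h1 => by
  have := (a r (by simpa [abs_of_nonneg h0] using h1)).summable.norm
  simpa [coeff_rescale, abs_of_nonneg h0, mul_comm] using this

theorem cv_hs {G : ℂ⟦X⟧} (a : Cv G) : HS G fun s => ∑' n, coeff n (rescale s G) := fun s hs =>
  (Summable.of_norm (by
    simpa [coeff_rescale, mul_comm] using a ‖s‖ (norm_nonneg _) (by simpa using hs))).hasSum

theorem cv_mul (G H : ℂ⟦X⟧) (a : Cv G) (b : Cv H) : Cv (G * H) := ((cv_hs a).mul (cv_hs b)).cv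

theorem HS.fp {G : ℂ⟦X⟧} {g : ℂ → ℂ} (a : HS G g) :
    HasFPowerSeriesOnBall g (FormalMultilinearSeries.ofScalars ℂ fun n => coeff n G) 0 1 where
  r_le := ENNReal.le_of_forall_nnreal_lt fun r hr => FormalMultilinearSeries.le_radius_of_summable _
    (by simpa [FormalMultilinearSeries.ofScalars_norm] using a.cv r r.2 (by exact_mod_cast hr))
  r_pos := one_pos
  hasSum := fun {y} hy => by
    have : y ∈ ball (0 : ℂ) 1 := by rwa [← ENNReal.coe_one, Metric.eball_coe] at hy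
    simpa [coeff_rescale, mul_comm] using a y this

theorem HS.diff {G : ℂ⟦X⟧} {g : ℂ → ℂ} (a : HS G g) : DifferentiableOn ℂ g (ball 0 1) := by
  have := a.fp.differentiableOn
  rwa [← ENNReal.coe_one, Metric.eball_coe] at this

theorem HS.uniq {G H : ℂ⟦X⟧} {g : ℂ → ℂ} (a : HS G g) (b : HS H g) : G = H := by
  ext1 n
  exact congrFun (FormalMultilinearSeries.ofScalars_series_injective ℂ ℂ
    (a.fp.hasFPowerSeriesAt.eq_formalMultilinearSeries b.fp.hasFPowerSeriesAt)) n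

theorem tay {g : ℂ → ℂ} (hg : DifferentiableOn ℂ g (ball 0 1)) : HS (mk (aa g)) g := fun s hs => by
  refine hs_congr (Complex.hasSum_taylorSeries_on_ball hg hs) (fun n => ?_) rfl
  simp only [coeff_rescale, coeff_mk, aa, sub_zero, smul_eq_mul]; ring

theorem HS.bound {G : ℂ⟦X⟧} {g : ℂ → ℂ} (a : HS G g) {r c : ℝ} (h0 : 0 < r) (h1 : r < 1)
    (h : ∀ z : ℂ, ‖z‖ = r → ‖g z‖ ≤ c) (n : ℕ) : ‖coeff n G‖ * r ^ n ≤ c := by
  have := Complex.norm_iteratedDeriv_le_of_forall_mem_sphere_norm_le (f := g) (c := 0) n h0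
    (DifferentiableOn.diffContOnCl (a.diff.mono (by
      rw [closure_ball _ h0.ne']; exact closedBall_subset_ball h1)))
    fun z hz => h z (by simpa using hz)
  rw [a.uniq (tay a.diff), coeff_mk, aa, norm_div, Complex.norm_natCast]
  rw [le_div_iff₀ (by positivity)] at this
  rw [div_mul_eq_mul_div, div_le_iff₀ (by positivity)]
  linarith

theorem sum_lin {u : ℕ → ℝ} (hu : ∀ n, 0 ≤ u n) {r t c : ℝ} (h0 : 0 ≤ r) (h1 : r < t)
    (h : ∀ n, u n * t ^ n ≤ (n + 1) * c) : Summable fun n => u n * r ^ n := by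
  have t0 : 0 < t := h0.trans_lt h1
  have q : ‖r / t‖ < 1 := by
    rw [Real.norm_of_nonneg (by positivity)]; exact (div_lt_one t0).2 h1
  refine Summable.of_nonneg_of_le (fun n => by have := hu n; positivity) (fun n => ?_)
    (((summable_pow_mul_geometric_of_norm_lt_one 1 q).add
      (summable_geometric_of_norm_lt_one q)).mul_left c)
  calc u n * r ^ n = u n * t ^ n * (r / t) ^ n := by rw [div_pow]; field_simp
    _ ≤ (n + 1) * c * (r / t) ^ n := mul_le_mul_of_nonneg_right (h n) (by positivity)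
    _ = _ := by ring

theorem cv_eu {G : ℂ⟦X⟧} (a : Cv G) : Cv (eu G) := fun r h0 h1 => by
  obtain ⟨t, h2, h3⟩ := exists_between h1
  have t0 := h0.trans h2.le
  refine sum_lin (fun _ => norm_nonneg _) h0 h2 (c := ∑' n, ‖coeff n G‖ * t ^ n) fun n => ?_
  have := (a t t0 h3).le_tsum n fun _ _ => by positivity
  rw [eu, coeff_mk, norm_mul, Complex.norm_natCast, mul_assoc]
  gcongr; linarith

variable {f : ℂ → ℂ}

theorem hs_deriv (hf : DifferentiableOn ℂ f (ball 0 1)) : HS (YY f 0) (deriv f) := by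
  convert tay (hf.deriv isOpen_ball) using 1
  ext1 n
  have : (n + 1 : ℂ) ≠ 0 := by exact_mod_cast n.succ_ne_zero
  simp only [YY0, aa, coeff_mk, iteratedDeriv_succ', Nat.factorial_succ]
  push_cast; field_simp

theorem cv_YY (hf : DifferentiableOn ℂ f (ball 0 1)) (k : ℕ) : Cv (YY f k) := by
  induction k with
  | zero => exact (hs_deriv hf).cv
  | succ k ih =>
    intro r h0 h1
    refine Summable.of_nonneg_of_le (fun n => by positivity) (fun n => ?_)
      ((cv_eu ih r h0 h1).add ((ih r h0 h1).mul_left (k : ℝ)))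
    rw [eq_sub_of_add_eq' (eu_YY f k).symm, map_sub, map_smul, ← mul_assoc, ← add_mul]
    gcongr
    simpa using norm_sub_le (coeff n (eu (YY f k))) ((k : ℂ) • coeff n (YY f k))

/-- the terms of the difference quotient -/
noncomputable def tq (f : ℂ → ℂ) (n : ℕ) (p : ℂ × ℂ) : ℂ :=
  aa f (n + 1) * ∑ k ∈ range (n + 1), p.2 ^ k * p.1 ^ (n - k)

theorem tq_le {p : ℂ × ℂ} {r : ℝ} (h1 : ‖p.1‖ ≤ r) (h2 : ‖p.2‖ ≤ r) (n : ℕ) :
    ‖tq f n p‖ ≤ ‖coeff n (YY f 0)‖ * r ^ n := by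
  have r0 := (norm_nonneg _).trans h1
  have : ‖∑ k ∈ range (n + 1), p.2 ^ k * p.1 ^ (n - k)‖ ≤ ∑ k ∈ range (n + 1), r ^ n :=
    norm_sum_le_of_le _ fun k hk => by
      rw [norm_mul, norm_pow, norm_pow, ← Nat.add_sub_cancel' (Nat.lt_succ_iff.1 (mem_range.1 hk)),
        pow_add r, Nat.add_sub_cancel_left]
      gcongr
  rw [tq, YY0, norm_mul, norm_mul, show (n + 1 : ℂ) = (n + 1 : ℕ) by simp, Complex.norm_natCast,
    mul_comm _ ‖aa f (n + 1)‖, mul_assoc]
  gcongr
  simpa using this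

theorem hs_q (hf : DifferentiableOn ℂ f (ball 0 1)) {z w : ℂ} (hz : z ∈ ball (0 : ℂ) 1)
    (hw : w ∈ ball (0 : ℂ) 1) : HasSum (fun n => tq f n (z, w)) (dslope f z w) := by
  by_cases e : w = z
  · rw [e, dslope_same]
    convert hs_deriv hf z hz using 2 with n
    rw [tq, sum_congr rfl fun k hk => pow_mul_pow_sub z (Nat.lt_succ_iff.1 (mem_range.1 hk))]
    simp only [coeff_rescale, YY0, sum_const, card_range, nsmul_eq_mul]
    push_cast; ring
  · have h := (hasSum_nat_add_iff' 1).2 ((tay hf w hw).sub (tay hf z hz))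
    have d := sub_ne_zero.2 e
    refine hs_congr (h.div_const (w - z)) (fun n => ?_) ?_
    · have := geom_sum₂_mul w z (n + 1)
      simp only [coeff_rescale, coeff_mk, tq, Nat.add_sub_cancel] at this ⊢
      rw [eq_div_iff d, mul_assoc, this]; ring
    · simp [dslope_of_ne _ e, slope, div_eq_inv_mul]

theorem ex_root (hf : DifferentiableOn ℂ f (ball 0 1)) (hi : Set.InjOn f (ball 0 1))
    (f1 : deriv f 0 = 1) {R : A⟦X⟧} (h0 : constantCoeff R = 1) (h : R ^ 2 * QQ f = 1) {w : ℂ}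
    (hw : ‖w‖ ≤ 1) : ∃ g, HS (psi 1 w R) g ∧
      ∀ s ∈ ball (0 : ℂ) 1, g s ^ 2 * dslope f s (s * w) = 1 := by
  have m : ∀ s ∈ ball (0 : ℂ) 1, s * w ∈ ball (0 : ℂ) 1 := fun s hs => by
    rw [mem_ball_zero_iff] at hs ⊢
    exact (norm_mul_le _ _).trans_lt ((mul_le_of_le_one_right (norm_nonneg _) hw).trans_lt hs)
  have hq : HS (psi 1 w (QQ f)) fun s => dslope f s (s * w) := fun s hs => by
    convert hs_q hf hs (m s hs) using 2 with n
    rw [coeff_rescale, psi_QQ one_ne_zero, tq, mul_left_comm, mul_sum]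
    refine congrArg _ (sum_congr rfl fun k hk => ?_)
    rw [← pow_mul_pow_sub s (Nat.lt_succ_iff.1 (mem_range.1 hk))]
    simp only [mul_pow, one_pow]; ring
  obtain ⟨M, hM, M0, hMe⟩ := H26.exists_log _ hq.diff (fun s hs => H80.dslope_ne hf hi hs (m s hs))
    0 (by simp [f1])
  have e : ∀ s ∈ ball (0 : ℂ) 1, Complex.exp (-M s / 2) ^ 2 * dslope f s (s * w) = 1 :=
    fun s hs => by rw [← hMe s hs, ← Complex.exp_nat_mul, ← Complex.exp_add]; simp [mul_div_cancel₀]
  have t := tay (g := fun s => Complex.exp (-M s / 2)) (hM.neg.div_const 2).cexp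
  refine ⟨_, ?_, e⟩
  have h1 := congrArg (psi 1 w) h
  rw [map_mul, map_pow, map_one] at h1
  refine sq_uniq ?_ (const_psi _ _ h0) ?_ h1 ▸ t
  · simp [← coeff_zero_eq_constantCoeff_apply, aa, M0]
  · rw [sq]
    refine ((t.mul t).mul hq).uniq fun s hs => ?_
    simp only [← sq, e s hs, map_one]
    simpa using hasSum_single (f := fun n => coeff n (1 : ℂ⟦X⟧)) 0 fun n hn => by simp [coeff_one, hn]

theorem ex_bound (hf : DifferentiableOn ℂ f (ball 0 1)) (hi : Set.InjOn f (ball 0 1)) {r : ℝ}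
    (h0 : 0 ≤ r) (h1 : r < 1) : ∃ c : ℝ, ∀ z w : ℂ, ‖z‖ ≤ r → ‖w‖ ≤ r →
      ‖deriv f z ^ 2 / dslope f z w‖ ≤ c := by
  have sub : closedBall (0 : ℂ) r ⊆ ball 0 1 := closedBall_subset_ball h1
  have c1 : ContinuousOn (fun p : ℂ × ℂ => dslope f p.1 p.2) (closedBall 0 r ×ˢ closedBall 0 r) :=
    (continuousOn_tsum (f := tq f) (fun n => by unfold tq; fun_prop) (cv_YY hf 0 r h0 h1)
      fun n p hp => tq_le (by simpa using hp.1) (by simpa using hp.2) n).congr
      fun p hp => (hs_q hf (sub hp.1) (sub hp.2)).tsum_eq.symm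
  have c2 : ContinuousOn (fun p : ℂ × ℂ => deriv f p.1) (closedBall 0 r ×ˢ closedBall 0 r) :=
    (hf.deriv isOpen_ball).continuousOn.comp continuousOn_fst fun p hp => sub hp.1
  obtain ⟨c, hc⟩ := ((isCompact_closedBall (0 : ℂ) r).prod
    (isCompact_closedBall (0 : ℂ) r)).exists_bound_of_continuousOn ((c2.pow 2).div c1
      fun p hp => H80.dslope_ne hf hi (sub hp.1) (sub hp.2))
  exact ⟨c, fun z w hz hw => hc (z, w) ⟨by simpa using hz, by simpa using hw⟩⟩

theorem hs_poly (P : A) : HS (P : ℂ⟦X⟧) fun s => P.eval s := fun s _ => by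
  simp only [Polynomial.eval_eq_sum_range, coeff_rescale, Polynomial.coeff_coe, mul_comm (s ^ _)]
  exact hasSum_sum_of_ne_finset_zero fun n hn => by
    rw [Polynomial.coeff_eq_zero_of_natDegree_lt (by simpa using hn), zero_mul]

theorem sum_W (hf : DifferentiableOn ℂ f (ball 0 1)) (hi : Set.InjOn f (ball 0 1))
    (f1 : deriv f 0 = 1) {R : A⟦X⟧} (h0 : constantCoeff R = 1) (h : R ^ 2 * QQ f = 1) (r : ℝ)
    (r0 : 0 ≤ r) (r1 : r < 1) :
    Summable fun n => (∑ k ∈ range (n + 1), ‖(coeff n (FZ f * R)).coeff k‖) * r ^ n := by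
  obtain ⟨u, hu, u1⟩ := exists_between r1
  have u0 := r0.trans_lt hu
  set t := √u with ht
  have t0 : 0 < t := Real.sqrt_pos.2 u0
  have t1 : t < 1 := by rw [ht, Real.sqrt_lt' one_pos]; simpa using u1
  have tt : t * t = u := Real.mul_self_sqrt u0.le
  obtain ⟨c, hc⟩ := ex_bound hf hi t0.le t1
  have b1 : ∀ w : ℂ, ‖w‖ = t → ∀ n, ‖(coeff n (FZ f * R)).eval w‖ ≤ (c + 1) / t ^ n :=
    fun w hw n => by
      obtain ⟨g, hg, e⟩ := ex_root hf hi f1 h0 h (hw.trans_le t1.le)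
      have := ((hs_deriv hf).mul hg).bound t0 t1 (c := c + 1) (fun z hz => by
        have m : z ∈ ball (0 : ℂ) 1 := by simpa [hz] using t1
        have a := hc z (z * w) hz.le (by rw [norm_mul, hz, hw]; nlinarith)
        rw [div_eq_mul_inv, ← eq_inv_of_mul_eq_one_left (e z m), ← mul_pow, norm_pow] at a
        nlinarith [norm_nonneg (deriv f z * g z)]) n
      rw [le_div_iff₀ (by positivity)]
      have e := coeff_psi 1 w (FZ f * R) n
      rw [map_mul, psi_FZ] at e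
      simp only [rescale_one, RingHom.id_apply, one_pow, one_mul, div_one] at e
      rwa [← e]
  refine sum_lin (fun n => by positivity) r0 hu (c := c + 1) fun n => ?_
  rw [sum_mul]
  refine (sum_le_card_nsmul _ _ (c + 1) fun k hk => ?_).trans (by simp [mul_add])
  have := (hs_poly (coeff n (FZ f * R))).bound t0 t1 (fun w hw => b1 w hw n) k
  rw [Polynomial.coeff_coe, le_div_iff₀ (by positivity)] at this
  refine le_trans ?_ this
  rw [← tt, mul_pow, mul_assoc]
  gcongr _ * (?_ * _)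
  exact pow_le_pow_of_le_one t0.le t1.le (Nat.lt_succ_iff.1 (mem_range.1 hk))

theorem main : SER := fun f hf hi f1 => by
  obtain ⟨R, h0, h⟩ := ex_sqrt (QQ f) (by
    simp [← coeff_zero_eq_constantCoeff_apply, QQ, aa, f1])
  obtain ⟨g, hg, -⟩ := ex_root hf hi f1 h0 h (w := 1) (by simp)
  obtain ⟨φ, y, r, hJ⟩ := jet_alg f1 h0 h cv_mul (cv_YY hf) hg.cv
  refine ⟨_, φ, y, r, ⟨supp_W h0 h, sum_W hf hi f1 h0 h, fun z hz w hw z0 => ?_⟩, hJ⟩
  have s1 : Summable fun n => ∑ k ∈ range (n + 1),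
      (coeff n (FZ f * R)).coeff k * z ^ (n - k) * w ^ k := by
    refine (sum_W hf hi f1 h0 h (max ‖z‖ ‖w‖) (by positivity)
      (max_lt (by simpa using hz) (by simpa using hw))).of_norm_bounded fun n => ?_
    rw [sum_mul]
    refine norm_sum_le_of_le _ fun k hk => ?_
    rw [norm_mul, norm_mul, norm_pow, norm_pow, mul_assoc,
      ← pow_sub_mul_pow (max ‖z‖ ‖w‖) (Nat.lt_succ_iff.1 (mem_range.1 hk))]
    gcongr
    exacts [le_max_left _ _, le_max_right _ _]
  have a1 := s1.hasSum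
  simp only [← psi_sum z0 w (supp_W h0 h _)] at a1 ⊢
  have a2 : HasSum (fun n => coeff n (psi z w (QQ f))) (dslope f z w) := by
    simpa only [psi_QQ z0, tq] using hs_q hf hz hw
  have a3 := hs_deriv hf z hz
  have a4 := hs_mul (hs_mul a1 a1) a2
  rw [← map_mul, ← map_mul, show FZ f * R * (FZ f * R) * QQ f = FZ f * FZ f by
    linear_combination FZ f ^ 2 * h, map_mul, psi_FZ] at a4
  rw [sq, sq]
  exact a4.unique (hs_mul a3 a3)

end Pool.Agent.MP_6e64bc_an.H72.Ser
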