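import Pool.Agent.MP_6e64bc_an.H72.Spec

/-! Row S: the orthogonal decomposition under `sl 2`. -/

open Finset

namespace Pool.Agent.MP_6e64bc_an.H72.Sl2

noncomputable section

/-! ### rising factorials -/

theorem po_zero (a : ℝ) : po a 0 = 1 := rfl

theorem po_succ (a : ℝ) (n : ℕ) : po a (n + 1) = po a n * (a + n) := rfl

theorem po_add (a : ℝ) (m n : ℕ) : po a (m + n) = po a m * po (a + m) n := by
  induction n with
  | zero => simp [po_zero]
  | succ n ih => rw [← add_assoc, po_succ, po_succ, ih]; push_cast; ring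

theorem po_succ' (a : ℝ) (n : ℕ) : po a (n + 1) = a * po (a + 1) n := by
  rw [add_comm n 1, po_add]
  simp [po]

theorem po_pos {a : ℝ} (ha : 0 < a) (n : ℕ) : 0 < po a n := by
  induction n with
  | zero => exact one_pos
  | succ n ih => rw [po_succ]; positivity

theorem gch_succ (a : ℝ) (m : ℕ) : ((m : ℝ) + 1) * gch a (m + 1) = -(a + m) * gch a m := by
  have h1 : (m.factorial : ℝ) ≠ 0 := by positivity
  simp only [gch, po_succ, Nat.factorial_succ]
  push_cast
  field_simp
  ring

theorem gch_shift (a : ℝ) (m : ℕ) : a * gch (a + 1) m = (a + m) * gch a m := by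
  have h : a * po (a + 1) m = po a m * (a + m) := by rw [← po_succ', po_succ]
  simp only [gch]
  linear_combination ((-1) ^ m / (m.factorial : ℝ)) * h

theorem gch_pascal (a : ℝ) (m : ℕ) : gch a (m + 1) = gch (a + 1) (m + 1) + gch (a + 1) m := by
  have h1 : (m.factorial : ℝ) ≠ 0 := by positivity
  simp only [gch, po_succ' a, po_succ (a + 1), Nat.factorial_succ]
  push_cast
  field_simp
  ring

theorem gch_zero (a : ℝ) : gch a 0 = 1 := by simp [gch, po_zero]

theorem bw_diff {b : ℝ} (hb : 0 < b) (m w : ℕ) : bw b (m + 1) w - bw b m w = -bw b m (w + 1) := by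
  have h1 := (po_pos (show 0 < b + 1 by linarith) (m + w)).ne'
  have h2 : b + 1 + ((m + w : ℕ) : ℝ) ≠ 0 := by positivity
  simp only [bw, show m + 1 + w = m + w + 1 by ring, show m + (w + 1) = m + w + 1 by ring, po_succ,
    Nat.factorial_succ]
  field_simp
  push_cast
  ring

theorem bw_rec {b : ℝ} (hb : 0 < b) (m : ℕ) :
    ((m : ℝ) + 1 + b) * bw b (m + 1) 0 = ((m : ℝ) + 1) * bw b m 0 := by
  have h1 := (po_pos (show 0 < b + 1 by linarith) m).ne'
  have h2 : b + 1 + (m : ℝ) ≠ 0 := by positivity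
  simp only [bw, add_zero, po_succ, Nat.factorial_succ]
  field_simp
  push_cast
  ring

theorem choose_succ (n k : ℕ) :
    ((k : ℝ) + 1) * n.choose (k + 1) = ((n : ℝ) - k) * n.choose k := by
  rcases le_or_gt k n with h | h
  · have := congrArg (Nat.cast (R := ℝ)) (Nat.choose_succ_right_eq n k)
    push_cast [h] at this
    linarith
  · rw [Nat.choose_eq_zero_of_lt h, Nat.choose_eq_zero_of_lt (by omega)]
    simp

/-! ### alternating sums -/

/-- alternating binomial sum -/
def alt (N : ℕ) (f : ℕ → ℝ) : ℝ := ∑ k ∈ range (N + 1), (-1) ^ k * (N.choose k : ℝ) * f k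

theorem alt_zero (f : ℕ → ℝ) : alt 0 f = f 0 := by simp [alt]

theorem alt_succ (N : ℕ) (f : ℕ → ℝ) : alt (N + 1) f = alt N fun k => f k - f (k + 1) := by
  have h := sum_choose_succ_mul (fun i _ => (-1 : ℝ) ^ i * f i) N
  simp only [alt]
  rw [sum_congr rfl fun k _ => show (-1 : ℝ) ^ k * ((N + 1).choose k : ℝ) * f k =
    ((N + 1).choose k : ℝ) * ((-1) ^ k * f k) by ring, h, ← sum_add_distrib]
  exact sum_congr rfl fun k _ => by ring

theorem alt_congr {N : ℕ} {f g : ℕ → ℝ} (c : ℝ) (h : ∀ k ≤ N, f k = c * g k) :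
    alt N f = c * alt N g := by
  simp only [alt, mul_sum]
  exact sum_congr rfl fun k hk => by rw [h k (by simpa [Nat.lt_succ_iff] using hk)]; ring

theorem alt_reflect (N : ℕ) (f : ℕ → ℝ) : alt N (fun k => f (N - k)) = (-1) ^ N * alt N f := by
  simp only [alt, mul_sum]
  rw [← sum_range_reflect]
  refine sum_congr rfl fun k hk => ?_
  have hk' : k ≤ N := by simpa [Nat.lt_succ_iff] using hk
  obtain ⟨j, rfl⟩ := Nat.exists_eq_add_of_le hk'
  rw [show k + j + 1 - 1 - k = j by omega, show k + j - j = k by omega, Nat.choose_symm_add, pow_add]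
  have : ((-1 : ℝ) ^ k) * (-1) ^ k = 1 := by rw [← mul_pow]; simp
  linear_combination (-((-1) ^ j * ((k + j).choose j : ℝ) * f k)) * this

theorem chu (N : ℕ) : ∀ a e : ℝ, 0 < a →
    alt N (fun k => po (a + e) k / po a k) = po (-e) N / po a N := by
  induction N with
  | zero => intro a e _; simp [alt_zero, po_zero]
  | succ N ih =>
    intro a e ha
    rw [alt_succ, alt_congr (g := fun k => po (a + 1 + (e - 1)) k / po (a + 1) k) (-e / a),
      ih _ _ (by linarith), po_succ', po_succ', show -e + 1 = -(e - 1) by ring]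
    · have := (po_pos (show 0 < a + 1 by linarith) N).ne'
      field_simp
    · intro k _
      have h1 := (po_pos (show 0 < a + 1 by linarith) k).ne'
      have h2 := (po_pos ha k).ne'
      have h3 : a + (k : ℝ) ≠ 0 := by positivity
      have h4 : po (a + 1) k = po a k * (a + k) / a := by
        rw [← po_succ, po_succ']
        field_simp
      rw [show a + 1 + (e - 1) = a + e by ring, h4, po_succ, po_succ]
      field_simp
      ring

theorem alt_gch (N : ℕ) : ∀ (a : ℝ) (m : ℕ),
    alt N (fun k => gch (k + a) (N + m)) = gch (N + a) m := by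
  induction N with
  | zero => intro a m; simp [alt_zero]
  | succ N ih =>
    intro a m
    rw [alt_succ, alt_congr (g := fun k => gch (k + (a + 1)) (N + m)) 1, ih, one_mul]
    · push_cast
      congr 1
      ring
    · intro k _
      rw [show N + 1 + m = N + m + 1 by ring, gch_pascal]
      push_cast
      rw [show (k : ℝ) + 1 + a = k + a + 1 by ring, show (k : ℝ) + (a + 1) = k + a + 1 by ring]
      ring

theorem alt_bw {b : ℝ} (hb : 0 < b) (N : ℕ) : ∀ M w : ℕ,
    alt N (fun k => bw b (M + N - k) w) = (-1) ^ N * bw b M (w + N) := by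
  induction N with
  | zero => intro M w; simp [alt_zero]
  | succ N ih =>
    intro M w
    rw [alt_succ, alt_congr (g := fun k => bw b (M + N - k) (w + 1)) (-1), ih,
      show w + 1 + N = w + (N + 1) by ring]
    · ring
    · intro k hk
      rw [show M + (N + 1) - k = M + N - k + 1 by omega,
        show M + (N + 1) - (k + 1) = M + N - k by omega, bw_diff hb]
      ring

/-! ### the ladder -/

/-- shift to the right -/
def sh (X : ℕ → ℝ) : ℕ → ℝ
  | 0 => 0
  | k + 1 => X k

/-- raising operator -/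
def Lp (b n : ℝ) (X : ℕ → ℝ) (k : ℕ) : ℝ :=
  (n - k + (b + 1 / 2)) * X k + (k - 1 + 1 / 2) * sh X k

/-- lowering operator -/
def Lm (n : ℝ) (X : ℕ → ℝ) (k : ℕ) : ℝ := (n - k) * X k + (k + 1) * X (k + 1)

/-- the basis -/
def v (b : ℝ) (N : ℕ) : ℕ → ℕ → ℝ
  | 0 => fun k => (-1) ^ k * (N.choose k : ℝ)
  | m + 1 => Lp b (N + m) (v b N m)

theorem comm (b n : ℝ) (X : ℕ → ℝ) (k : ℕ) :
    Lm (n + 1) (Lp b n X) k = Lp b (n - 1) (Lm n X) k + (2 * n + b + 1) * X k := by
  rcases k with _ | k
  · simp only [Lm, Lp, sh]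
    push_cast
    ring
  · simp only [Lm, Lp, sh]
    push_cast
    ring

theorem Lp_smul (b n c : ℝ) (X : ℕ → ℝ) (k : ℕ) :
    Lp b n (fun j => c * X j) k = c * Lp b n X k := by
  rcases k with _ | k <;> simp only [Lp, sh] <;> ring

theorem Lm_v0 (b : ℝ) (N k : ℕ) : Lm N (v b N 0) k = 0 := by
  simp only [Lm, v]
  linear_combination (-(-1) ^ k) * choose_succ N k

theorem v_succ (b : ℝ) (N m : ℕ) : v b N (m + 1) = Lp b (N + m) (v b N m) := rfl

theorem Lm_v (b : ℝ) (N m : ℕ) : Lm ((N : ℝ) + m + 1) (v b N (m + 1)) =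
    fun k => ((m : ℝ) + 1) * (2 * N + b + 1 + m) * v b N m k := by
  induction m with
  | zero =>
    funext k
    have h : Lm N (v b N 0) = fun j => 0 * v b N 0 j := funext fun j => by rw [Lm_v0, zero_mul]
    rw [v_succ, comm, Nat.cast_zero, add_zero, h, Lp_smul]
    ring
  | succ m ih =>
    funext k
    rw [v, comm]
    push_cast
    rw [← add_assoc, ih, Lp_smul, add_sub_cancel_right, v]
    ring

theorem v_supp (b : ℝ) (N m : ℕ) : ∀ k, N + m < k → v b N m k = 0 := by
  induction m with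
  | zero => intro k hk; simp [v, Nat.choose_eq_zero_of_lt (show N < k by omega)]
  | succ m ih =>
    intro k hk
    obtain ⟨k, rfl⟩ : ∃ j, k = j + 1 := ⟨k - 1, by omega⟩
    simp only [v, Lp, sh, ih k (by omega), ih (k + 1) (by omega), mul_zero, add_zero]

theorem ker (b : ℝ) {N : ℕ} {Z : ℕ → ℝ} (h : ∀ k, Lm N Z k = 0) (k : ℕ) :
    Z k = Z 0 * v b N 0 k := by
  induction k with
  | zero => simp [v]
  | succ k ih =>
    have h1 := h k
    have h2 := Lm_v0 b N k
    simp only [Lm] at h1 h2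
    have h3 : (k : ℝ) + 1 ≠ 0 := by positivity
    refine mul_left_cancel₀ h3 ?_
    rw [ih] at h1
    linear_combination h1 - Z 0 * h2

theorem span {b : ℝ} (hb : 0 < b) (n : ℕ) : ∀ X : ℕ → ℝ, (∀ k, n < k → X k = 0) →
    ∃ c : ℕ → ℝ, ∀ k, X k = ∑ N ∈ range (n + 1), c N * v b N (n - N) k := by
  induction n with
  | zero =>
    intro X hX
    refine ⟨fun _ => X 0, fun k => ?_⟩
    rcases k with _ | k
    · simp [v]
    · simp [v, hX (k + 1) (by omega)]
  | succ n ih =>
    intro X hX
    obtain ⟨c, hc⟩ := ih (Lm ((n : ℝ) + 1) X) fun k hk => by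
      rcases (show k = n + 1 ∨ n + 1 < k by omega) with rfl | h
      · simp [Lm, hX (n + 1 + 1) (by omega)]
      · simp [Lm, hX k h, hX (k + 1) (by omega)]
    set d : ℕ → ℝ := fun N =>
      c N / ((((n - N : ℕ) : ℝ) + 1) * (2 * N + b + 1 + (n - N : ℕ))) with hd
    set Z : ℕ → ℝ := fun k => X k - ∑ N ∈ range (n + 1), d N * v b N (n - N + 1) k with hZ
    have h1 : ∀ k, Lm (n + 1 : ℕ) Z k = 0 := by
      intro k
      have h2 : Lm (n + 1 : ℕ) Z k = Lm ((n : ℝ) + 1) X k -
          ∑ N ∈ range (n + 1), d N * Lm ((n : ℝ) + 1) (v b N (n - N + 1)) k := by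
        simp only [Lm, hZ, mul_sub, mul_add, mul_sum, sum_add_distrib]
        push_cast
        rw [sum_congr rfl fun N _ => mul_left_comm (d N) _ _,
          sum_congr (s₁ := range (n + 1)) rfl fun N _ => mul_left_comm (d N) ((k : ℝ) + 1) _]
        ring
      rw [h2, hc, ← sum_sub_distrib]
      refine sum_eq_zero fun N hN => ?_
      have hN' : N ≤ n := by simpa [Nat.lt_succ_iff] using hN
      have h3 : (n : ℝ) = N + (n - N : ℕ) := by push_cast [hN']; ring
      have h4 : (((n - N : ℕ) : ℝ) + 1) * (2 * N + b + 1 + (n - N : ℕ)) ≠ 0 := by positivity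
      have h5 := Lm_v b N (n - N)
      rw [← h3] at h5
      rw [h5, hd]
      field_simp
      ring
    refine ⟨fun N => if N = n + 1 then Z 0 else d N, fun k => ?_⟩
    beta_reduce
    rw [sum_range_succ, if_pos rfl, Nat.sub_self, ← ker b h1 k, hZ]
    rw [sum_congr rfl (g := fun N => d N * v b N (n - N + 1) k) fun N hN => by
      have hN' : N ≤ n := by simpa [Nat.lt_succ_iff] using hN
      rw [if_neg (by omega), show n + 1 - N = n - N + 1 by omega]]
    ring

/-! ### pairings -/

theorem sum_Lm (n : ℕ) (s : ℝ) (X f : ℕ → ℝ) (h : (s - (n + 1)) * X (n + 1) = 0) :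
    ∑ k ∈ range (n + 1), Lm s X k * f k =
      ∑ k ∈ range (n + 2), X k * ((s - k) * f k + k * sh f k) := by
  simp only [Lm, add_mul, mul_add, sum_add_distrib]
  rw [sum_range_succ (fun k => X k * ((s - k) * f k)) (n + 1),
    sum_range_succ' (fun k => X k * (k * sh f k)) (n + 1), ← sum_add_distrib]
  have e1 : ∑ k ∈ range (n + 1), X k * ((s - k) * f k) =
      ∑ k ∈ range (n + 1), (s - k) * X k * f k := sum_congr rfl fun k _ => by ring
  have e2 : ∑ k ∈ range (n + 1), X (k + 1) * (((k + 1 : ℕ) : ℝ) * sh f (k + 1)) =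
      ∑ k ∈ range (n + 1), (k * X (k + 1) * f k + 1 * X (k + 1) * f k) :=
    sum_congr rfl fun k _ => by simp only [sh]; push_cast; ring
  rw [e1, e2]
  push_cast
  linear_combination (-f (n + 1)) * h

theorem sum_sh (n : ℕ) (X f g h : ℕ → ℝ) (hX : X (n + 1) = 0) :
    ∑ k ∈ range (n + 2), (g k * X k + h k * sh X k) * f k =
      ∑ k ∈ range (n + 1), X k * (g k * f k + h (k + 1) * f (k + 1)) := by
  simp only [add_mul, mul_add, sum_add_distrib]
  rw [sum_range_succ (fun k => g k * X k * f k) (n + 1),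
    sum_range_succ' (fun k => h k * sh X k * f k) (n + 1), hX]
  simp only [sh, mul_zero, zero_mul, add_zero]
  congr 1 <;> exact sum_congr rfl fun k _ => by ring

theorem sum_Lp (b s : ℝ) (n : ℕ) (X f : ℕ → ℝ) (hX : X (n + 1) = 0) :
    ∑ k ∈ range (n + 2), Lp b s X k * f k =
      ∑ k ∈ range (n + 1), X k * ((s - k + (b + 1 / 2)) * f k + (k + 1 / 2) * f (k + 1)) := by
  rw [show (∑ k ∈ range (n + 2), Lp b s X k * f k) = _ from
    sum_sh n X f (fun k => s - k + (b + 1 / 2)) (fun k => k - 1 + 1 / 2) hX]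
  exact sum_congr rfl fun k _ => by push_cast; ring

theorem mom_w (b e : ℝ) (N m : ℕ) :
    ∑ k ∈ range (N + m + 1), v b N m k * (po (1 / 2 + e) k / po (1 / 2) k) =
      po (b + 1 + e + N) m * (po (-e) N / po (1 / 2) N) := by
  induction m with
  | zero => rw [po_zero, one_mul, ← chu N _ _ (by norm_num)]; rfl
  | succ m ih =>
    rw [v, show N + (m + 1) + 1 = N + m + 2 by ring, sum_Lp _ _ _ _ _ (v_supp b N m _ (by omega)),
      po_succ, mul_right_comm, ← ih, sum_mul]
    refine sum_congr rfl fun k _ => ?_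
    have h1 := (po_pos (show (0 : ℝ) < 1 / 2 by norm_num) k).ne'
    have h2 : (1 / 2 : ℝ) + k ≠ 0 := by positivity
    rw [po_succ, po_succ]
    field_simp
    ring

theorem mom_z {b : ℝ} (hb : 0 < b) (e : ℝ) (N m : ℕ) :
    ∑ k ∈ range (N + m + 1),
        v b N m k * (po (b + 1 / 2 + e) (N + m - k) / po (b + 1 / 2) (N + m - k)) =
      po (b + 1 + e + N) m * ((-1) ^ N * (po (-e) N / po (b + 1 / 2) N)) := by
  induction m with
  | zero =>
    rw [po_zero, one_mul, ← chu N _ _ (by linarith), ← alt_reflect]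
    rfl
  | succ m ih =>
    rw [v, show N + (m + 1) + 1 = N + m + 2 by ring, sum_Lp _ _ _ _ _ (v_supp b N m _ (by omega)),
      po_succ, mul_right_comm, ← ih, sum_mul]
    refine sum_congr rfl fun k hk => ?_
    have hk' : k ≤ N + m := by simpa [Nat.lt_succ_iff] using hk
    have h1 := (po_pos (show (0 : ℝ) < b + 1 / 2 by linarith) (N + m - k)).ne'
    have h2 : b + 1 / 2 + ((N + m - k : ℕ) : ℝ) ≠ 0 := by positivity
    have h3 : (N : ℝ) + m - k + (b + 1 / 2) = b + 1 / 2 + ((N + m - k : ℕ) : ℝ) := by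
      push_cast [hk']; ring
    have h4 : (k : ℝ) = N + m - ((N + m - k : ℕ) : ℝ) := by push_cast [hk']; ring
    rw [show N + (m + 1) - k = N + m - k + 1 by omega, show N + (m + 1) - (k + 1) = N + m - k by omega,
      po_succ, po_succ, h3, h4]
    generalize ((N + m - k : ℕ) : ℝ) = j at h2 ⊢
    generalize po (b + 1 / 2) (N + m - k) = A at h1 ⊢
    generalize hc : b + 1 / 2 + j = c at h2 ⊢
    obtain rfl : j = c - (b + 1 / 2) := by linarith
    field_simp
    ring

/-! ### the intertwiner -/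

/-- coefficients after the substitution -/
def xi (l n : ℕ) (X : ℕ → ℝ) (i : ℕ) : ℝ :=
  if i ≤ l then ∑ k ∈ range (n + 1), X k * (k.choose i * gch (k + 1 / 2) (l - i)) else 0

theorem xi_gt_l {l i : ℕ} (n : ℕ) (X : ℕ → ℝ) (h : l < i) : xi l n X i = 0 := if_neg (by omega)

theorem xi_gt_n {n i : ℕ} (l : ℕ) (X : ℕ → ℝ) (h : n < i) : xi l n X i = 0 := by
  unfold xi
  split_ifs
  · exact sum_eq_zero fun k hk => by
      rw [Nat.choose_eq_zero_of_lt (by have := mem_range.1 hk; omega)]; simp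
  · rfl

theorem choose_pred (k i : ℕ) :
    ((k : ℝ) + 1) * k.choose i = ((k : ℝ) + 1 - i) * (k + 1).choose i := by
  have h1 := choose_succ (k + 1) i
  have h2 := congrArg (Nat.cast (R := ℝ)) (Nat.add_one_mul_choose_eq k i)
  push_cast at h1 h2
  linarith

theorem xi_Lm (l n : ℕ) (X : ℕ → ℝ) (i : ℕ) :
    xi l n (Lm ((n : ℝ) + 1) X) i = Lm ((n : ℝ) + 1) (xi l (n + 1) X) i := by
  rcases le_or_gt i l with hi | hi
  · obtain ⟨m, rfl⟩ := Nat.exists_eq_add_of_le hi
    rw [xi, if_pos hi, sum_Lm _ _ _ _ (by simp), Lm, xi, if_pos hi, Nat.add_sub_cancel_left]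
    rcases m with _ | m
    · rw [xi_gt_l _ _ (by omega), mul_zero, add_zero, mul_sum]
      refine sum_congr rfl fun k _ => ?_
      rcases k with _ | k
      · rcases i with _ | i <;> simp [sh]
        ring
      · simp only [sh, gch_zero]
        push_cast
        linear_combination X (k + 1) * choose_pred k i
    · rw [xi, if_pos (by omega), show i + (m + 1) - (i + 1) = m by omega, mul_sum, mul_sum,
        ← sum_add_distrib]
      refine sum_congr rfl fun k _ => ?_
      rcases k with _ | k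
      · rcases i with _ | i <;> simp [sh]
        ring
      · have h1 := choose_succ (k + 1) i
        simp only [sh]
        rw [gch_pascal ((k : ℝ) + 1 / 2)]
        push_cast at h1 ⊢
        rw [show (k : ℝ) + 1 / 2 + 1 = k + 1 + 1 / 2 by ring]
        linear_combination X (k + 1) * (gch ((k : ℝ) + 1 + 1 / 2) (m + 1) +
          gch ((k : ℝ) + 1 + 1 / 2) m) * choose_pred k i -
          X (k + 1) * gch ((k : ℝ) + 1 + 1 / 2) m * h1
  · rw [Lm, xi_gt_l _ _ hi, xi_gt_l _ _ hi, xi_gt_l _ _ (by omega)]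
    ring

theorem xi_Lp (b : ℝ) {l n i : ℕ} {X : ℕ → ℝ} (hX : X (n + 1) = 0) (hi : i ≤ l) :
    xi l (n + 1) (Lp b n X) i =
      ((n : ℝ) - i + l + b + 1) * xi l n X i + -((l : ℝ) - i + 1) * sh (xi l n X) i := by
  obtain ⟨m, rfl⟩ := Nat.exists_eq_add_of_le hi
  rw [xi, if_pos hi, sum_Lp _ _ _ _ _ hX, xi, if_pos hi, Nat.add_sub_cancel_left]
  have hs : ∀ k : ℕ, ((k : ℝ) + 1 / 2) * gch (((k + 1 : ℕ) : ℝ) + 1 / 2) m =
      ((k : ℝ) + 1 / 2 + m) * gch ((k : ℝ) + 1 / 2) m := fun k => by
    rw [← gch_shift]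
    push_cast
    rw [show (k : ℝ) + 1 / 2 + 1 = k + 1 + 1 / 2 by ring]
  rcases i with _ | i
  · rw [sh, mul_zero, add_zero, mul_sum]
    refine sum_congr rfl fun k _ => ?_
    simp only [Nat.choose_zero_right, Nat.cast_one, one_mul, Nat.cast_zero, zero_add]
    linear_combination X k * hs k
  · rw [sh, xi, if_pos (by omega), show i + 1 + m - i = m + 1 by omega, mul_sum, mul_sum,
      ← sum_add_distrib]
    refine sum_congr rfl fun k _ => ?_
    have h1 := hs k
    rw [Nat.choose_succ_succ']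
    push_cast at h1 ⊢
    linear_combination X k * ((k.choose i : ℝ) + k.choose (i + 1)) * h1 +
      X k * (k.choose i : ℝ) * gch_succ ((k : ℝ) + 1 / 2) m

theorem xi_XW {l n i : ℕ} {W : ℕ → ℝ} (hW : W (n + 1) = 0) (hi : i ≤ l) :
    xi l n (XW W) i = (1 - 2 * (l : ℝ)) * xw l n W i := by
  obtain ⟨m, rfl⟩ := Nat.exists_eq_add_of_le hi
  have h0 := sum_Lm n 0 W (fun k => k.choose i * gch (k + 1 / 2) m) (by simp [hW])
  rw [sum_range_succ _ (n + 1), hW, zero_mul, add_zero] at h0
  have h1 : ∑ k ∈ range (n + 1), XW W k * (k.choose i * gch (k + 1 / 2) m) =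
      ∑ k ∈ range (n + 1), W k * (k.choose i * gch (k + 1 / 2) m) +
        2 * ∑ k ∈ range (n + 1), Lm 0 W k * (k.choose i * gch (k + 1 / 2) m) := by
    rw [mul_sum, ← sum_add_distrib]
    exact sum_congr rfl fun k _ => by simp only [XW, Lm]; ring
  rw [xi, if_pos hi, xw, Nat.add_sub_cancel_left, h1, h0, mul_sum, mul_sum, ← sum_add_distrib]
  refine sum_congr rfl fun k _ => ?_
  have h2 := gch_shift ((k : ℝ) - 1 / 2) m
  rw [show (k : ℝ) - 1 / 2 + 1 = k + 1 / 2 by ring] at h2
  rcases k with _ | k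
  · rcases i with _ | i
    · simp only [sh, Nat.choose_self]
      push_cast at h2 ⊢
      linear_combination (-2) * W 0 * h2
    · simp [sh]
  · simp only [sh]
    push_cast at h2 ⊢
    rw [show (k : ℝ) + 1 - 1 / 2 = k + 1 / 2 by ring] at h2 ⊢
    linear_combination (-2) * W (k + 1) * ((k + 1).choose i : ℝ) * h2 +
      2 * W (k + 1) * gch ((k : ℝ) + 1 / 2) m * choose_pred k i

/-! ### the form -/

/-- the invariant form -/
def F (b : ℝ) (l n : ℕ) (X Y : ℕ → ℝ) : ℝ :=
  ∑ i ∈ range (l + 1), ∑ j ∈ range (l + 1), xi l n X i * xi l n Y j * bw b (n + l - (i + j)) 0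

theorem F_comm (b : ℝ) (l n : ℕ) (X Y : ℕ → ℝ) : F b l n X Y = F b l n Y X := by
  rw [F, sum_comm]
  exact sum_congr rfl fun i _ => sum_congr rfl fun j _ => by rw [add_comm j i]; ring

theorem adj {b : ℝ} (hb : 0 < b) (l n : ℕ) (X : ℕ → ℝ) {Y : ℕ → ℝ} (hY : Y (n + 1) = 0) :
    F b l (n + 1) X (Lp b n Y) = F b l n (Lm ((n : ℝ) + 1) X) Y := by
  set x := xi l (n + 1) X
  set y := xi l n Y
  have hx : x (l + 1) = 0 := xi_gt_l _ _ (by omega)
  have hy : y (l + 1) = 0 := xi_gt_l _ _ (by omega)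
  have e1 : F b l (n + 1) X (Lp b n Y) = ∑ i ∈ range (l + 1), ∑ j ∈ range (l + 1), x i * (y j *
      (((n : ℝ) - j + l + b + 1) * bw b (n + 1 + l - (i + j)) 0 +
        -((l : ℝ) - (j + 1 : ℕ) + 1) * bw b (n + 1 + l - (i + (j + 1))) 0)) := by
    refine sum_congr rfl fun i _ => ?_
    have h := sum_sh l y (fun j => bw b (n + 1 + l - (i + j)) 0)
      (fun j => (n : ℝ) - j + l + b + 1) (fun j => -((l : ℝ) - j + 1)) hy
    rw [← mul_sum, ← h, sum_range_succ _ (l + 1), hy, mul_add, mul_sum]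
    have h0 : -((l : ℝ) - (l + 1 : ℕ) + 1) = 0 := by push_cast; ring
    rw [h0]
    simp only [mul_zero, zero_mul, add_zero]
    refine sum_congr rfl fun j hj => ?_
    rw [xi_Lp b hY (by simpa [Nat.lt_succ_iff] using hj), mul_assoc]
  have e2 : F b l n (Lm ((n : ℝ) + 1) X) Y = ∑ j ∈ range (l + 1), ∑ i ∈ range (l + 1), y j * (x i *
      (((n : ℝ) + 1 - i) * bw b (n + l - (i + j)) 0 +
        i * sh (fun i => bw b (n + l - (i + j)) 0) i)) := by
    rw [F, sum_comm]
    refine sum_congr rfl fun j _ => ?_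
    have h := sum_Lm l ((n : ℝ) + 1) x (fun i => bw b (n + l - (i + j)) 0) (by rw [hx, mul_zero])
    rw [sum_range_succ _ (l + 1), hx, zero_mul, add_zero] at h
    rw [← mul_sum, ← h, mul_sum]
    refine sum_congr rfl fun i _ => ?_
    rw [xi_Lm]
    ring
  rw [e1, e2, sum_comm]
  refine sum_congr rfl fun j _ => sum_congr rfl fun i hi => ?_
  have hi' : i ≤ l := by simpa [Nat.lt_succ_iff] using hi
  rcases le_or_gt j n with hj | hj
  · have h1 := bw_rec hb (n + l - (i + j))
    have h2 : ((n + l - (i + j) : ℕ) : ℝ) = n + l - (i + j) := by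
      push_cast [show i + j ≤ n + l by omega]; ring
    have h3 : (i : ℝ) * sh (fun i => bw b (n + l - (i + j)) 0) i =
        i * bw b (n + l - (i + j) + 1) 0 := by
      rcases i with _ | i
      · simp
      · simp only [sh]
        rw [show n + l - (i + 1 + j) + 1 = n + l - (i + j) by omega]
    rw [h3, show n + 1 + l - (i + j) = n + l - (i + j) + 1 by omega,
      show n + 1 + l - (i + (j + 1)) = n + l - (i + j) by omega]
    rw [h2] at h1
    push_cast
    linear_combination x i * y j * h1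
  · rw [show y j = 0 from xi_gt_n _ _ hj]
    ring

theorem xi_sum {ι : Type} (s : Finset ι) (l n : ℕ) (c : ι → ℝ) (X : ι → ℕ → ℝ) (i : ℕ) :
    xi l n (fun k => ∑ N ∈ s, c N * X N k) i = ∑ N ∈ s, c N * xi l n (X N) i := by
  unfold xi
  split_ifs
  · simp only [sum_mul, mul_sum, mul_assoc]
    exact sum_comm
  · simp

theorem F_sum {ι : Type} (s : Finset ι) (b : ℝ) (l n : ℕ) (c : ι → ℝ) (X : ι → ℕ → ℝ)
    (Y : ℕ → ℝ) : F b l n (fun k => ∑ N ∈ s, c N * X N k) Y = ∑ N ∈ s, c N * F b l n (X N) Y := by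
  simp only [F, xi_sum, sum_mul, mul_sum, mul_assoc]
  rw [sum_congr rfl fun i _ => sum_comm, sum_comm]

theorem F_smul (b : ℝ) (l n : ℕ) (c : ℝ) (X Y : ℕ → ℝ) :
    F b l n (fun k => c * X k) Y = c * F b l n X Y := by
  simpa using F_sum {()} b l n (fun _ => c) (fun _ => X) Y

theorem F_top {b : ℝ} (hb : 0 < b) (l n : ℕ) {Y : ℕ → ℝ} (hY : Y (n + 1) = 0) :
    F b l (n + 1) (v b (n + 1) 0) (Lp b n Y) = 0 := by
  have h : Lm ((n : ℝ) + 1) (v b (n + 1) 0) = fun k => 0 * Y k := funext fun k => by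
    have := Lm_v0 b (n + 1) k
    push_cast at this
    rw [this, zero_mul]
  rw [adj hb _ _ _ hY, h, F_smul, zero_mul]

theorem orth {b : ℝ} (hb : 0 < b) (l n : ℕ) : ∀ N m N' m' : ℕ, N + m = n → N' + m' = n →
    F b l n (v b N m) (v b N' m') =
      if N = N' then m.factorial * po (2 * N + b + 1) m * F b l N (v b N 0) (v b N 0) else 0 := by
  induction n with
  | zero =>
    intro N m N' m' h h'
    obtain ⟨rfl, rfl⟩ : N = 0 ∧ m = 0 := by omega
    obtain ⟨rfl, rfl⟩ : N' = 0 ∧ m' = 0 := by omega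
    simp [po_zero]
  | succ n ih =>
    intro N m N' m' h h'
    have hc : ∀ N m : ℕ, N + (m + 1) = n + 1 → v b N (m + 1) = Lp b n (v b N m) := fun N m h => by
      rw [v, ← Nat.cast_add, show N + m = n by omega]
    rcases m with _ | m <;> rcases m' with _ | m'
    · obtain rfl : N = n + 1 := by omega
      obtain rfl : N' = n + 1 := by omega
      simp [po_zero]
    · obtain rfl : N = n + 1 := by omega
      rw [if_neg (by omega), hc _ _ h', F_top hb _ _ (v_supp b _ _ _ (by omega))]
    · obtain rfl : N' = n + 1 := by omega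
      rw [if_neg (by omega), hc _ _ h, F_comm, F_top hb _ _ (v_supp b _ _ _ (by omega))]
    · have h1 := Lm_v b N m
      rw [← Nat.cast_add, show N + m = n by omega] at h1
      rw [hc _ _ h', adj hb _ _ _ (v_supp b _ _ _ (by omega)), h1, F_smul,
        ih N m N' m' (by omega) (by omega)]
      split_ifs
      · rw [po_succ, Nat.factorial_succ]
        push_cast
        ring
      · simp

theorem xi_v0 (b : ℝ) (l N i : ℕ) : xi l N (v b N 0) i = xi l N (v b N 0) 0 * v b N 0 i := by
  refine ker b (fun k => ?_) i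
  rcases N with _ | N
  · simp [Lm, xi_gt_n l (v b 0 0) (Nat.succ_pos k)]
    rcases k with _ | k
    · simp
    · exact Or.inr (xi_gt_n l _ (Nat.succ_pos k))
  · have h : Lm ((N : ℝ) + 1) (v b (N + 1) 0) = fun _ => 0 := funext fun k => by
      have := Lm_v0 b (N + 1) k
      push_cast at this
      exact this
    push_cast
    rw [← xi_Lm, h]
    simp [xi]

theorem F_v0 {b : ℝ} (hb : 0 < b) (l N : ℕ) :
    F b l N (v b N 0) (v b N 0) = jj b l N * po (b + 1) (2 * N) := by
  rcases le_or_gt N l with h | h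
  · obtain ⟨m, rfl⟩ := Nat.exists_eq_add_of_le h
    have h0 : xi (N + m) N (v b N 0) 0 = gch (N + 1 / 2) m := by
      rw [← alt_gch, xi, if_pos (by omega)]
      exact sum_congr rfl fun k _ => by simp [v]
    have h1 : ∀ f : ℕ → ℝ, ∑ i ∈ range (N + m + 1), v b N 0 i * f i = alt N f := fun f =>
      (sum_subset (range_mono (by omega)) fun k _ hk => by
        rw [v_supp b N 0 k (by simpa using hk), zero_mul]).symm
    have h2 := (po_pos (show 0 < b + 1 by linarith) (2 * N)).ne'
    have h3 : F b (N + m) N (v b N 0) (v b N 0) = gch (N + 1 / 2) m ^ 2 *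
        ∑ i ∈ range (N + m + 1), v b N 0 i *
          ∑ j ∈ range (N + m + 1), v b N 0 j * bw b (N + (N + m) - (i + j)) 0 := by
      simp only [F, mul_sum]
      refine sum_congr rfl fun i _ => sum_congr rfl fun j _ => ?_
      rw [xi_v0 b _ _ i, xi_v0 b _ _ j, h0]
      ring
    rw [h3, h1, alt_congr (g := fun i => bw b (m + N - i) N) ((-1) ^ N), alt_bw hb, jj, if_pos h,
      Nat.add_sub_cancel_left, div_mul_cancel₀ _ h2, ← mul_assoc ((-1 : ℝ) ^ N), ← mul_pow,
      two_mul]
    · simp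
    · intro i hi
      have h4 := alt_bw hb N (m + N - i) 0
      rw [zero_add] at h4
      rw [h1, ← h4]
      congr 1
      funext j
      congr 1
      omega
  · have h1 := xi_v0 b l N (l + 1)
    rw [xi_gt_l _ _ (by omega)] at h1
    have h2 : v b N 0 (l + 1) ≠ 0 := by
      have : (N.choose (l + 1) : ℝ) ≠ 0 := by exact_mod_cast (Nat.choose_pos h).ne'
      simp [v, this]
    have h3 : xi l N (v b N 0) 0 = 0 := (mul_eq_zero.1 h1.symm).resolve_right h2
    rw [jj, if_neg (by omega), zero_mul]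
    refine sum_eq_zero fun i _ => sum_eq_zero fun j _ => ?_
    rw [xi_v0 b _ _ i, h3]
    ring

theorem NW_eq (b : ℝ) (l : ℕ) {n : ℕ} {W : ℕ → ℝ} (hW : W (n + 1) = 0) :
    (1 - 2 * (l : ℝ)) ^ 2 * NW b l n W = F b l n (XW W) (XW W) := by
  have hs : range (min n l + 1) ⊆ range (l + 1) := range_mono (by omega)
  have h0 : ∀ i ∈ range (l + 1), i ∉ range (min n l + 1) → xi l n (XW W) i = 0 := fun i h1 h2 =>
    xi_gt_n _ _ (by simp only [mem_range] at h1 h2; omega)
  rw [F, ← sum_subset hs fun i h1 h2 => sum_eq_zero fun j _ => by rw [h0 i h1 h2]; ring, NW, mul_sum]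
  refine sum_congr rfl fun i hi => ?_
  rw [← sum_subset hs fun j h1 h2 => by rw [h0 j h1 h2]; ring, mul_sum]
  refine sum_congr rfl fun j hj => ?_
  rw [xi_XW hW (by have := mem_range.1 hi; omega), xi_XW hW (by have := mem_range.1 hj; omega),
    Nat.sub_sub]
  ring

theorem main : SL2 := by
  intro b hb n W hW
  obtain ⟨c, hc⟩ := span hb n (XW W) fun k hk => by simp [XW, hW k hk, hW (k + 1) (by omega)]
  have hn := (po_pos (show 0 < b + 1 by linarith) n).ne'
  have hX : XW W = fun k => ∑ N ∈ range (n + 1), c N * v b N (n - N) k := funext hc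
  refine ⟨fun N => c N * po (b + 1) n, ⟨fun e he => ?_, fun e he => ?_⟩, fun l => ?_⟩
  · simp only [hc, sum_mul, mul_assoc]
    rw [sum_comm, mul_sum]
    refine sum_congr rfl fun N hN => ?_
    obtain ⟨m, rfl⟩ := Nat.exists_eq_add_of_le (show N ≤ n by simpa [Nat.lt_succ_iff] using hN)
    have h1 := (po_pos (show 0 < b + 1 + e by linarith) N).ne'
    have h2 := (po_pos (show (0 : ℝ) < 1 / 2 by norm_num) N).ne'
    rw [← mul_sum, Nat.add_sub_cancel_left, mom_w, ps, po_add (b + 1 + e)]
    generalize po (1 / 2 : ℝ) N = A at h2 ⊢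
    field_simp
  · simp only [hc, sum_mul, mul_assoc]
    rw [sum_comm, mul_sum]
    refine sum_congr rfl fun N hN => ?_
    obtain ⟨m, rfl⟩ := Nat.exists_eq_add_of_le (show N ≤ n by simpa [Nat.lt_succ_iff] using hN)
    have h1 := (po_pos (show 0 < b + 1 + e by linarith) N).ne'
    have h2 := (po_pos (show (0 : ℝ) < b + 1 / 2 by linarith) N).ne'
    rw [← mul_sum, Nat.add_sub_cancel_left, mom_z hb, ps, po_add (b + 1 + e)]
    generalize po (b + 1 / 2 : ℝ) N = A at h2 ⊢
    field_simp
  · rw [NW_eq b l (hW _ (by omega)), hX, F_sum, mul_sum]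
    refine sum_congr rfl fun N hN => ?_
    rw [F_comm, F_sum, sum_eq_single N]
    · obtain ⟨m, rfl⟩ := Nat.exists_eq_add_of_le (show N ≤ n by simpa [Nat.lt_succ_iff] using hN)
      have h1 : (m.factorial : ℝ) * (N + m).descFactorial N = (N + m).factorial := by
        have := Nat.factorial_mul_descFactorial (show N ≤ N + m by omega)
        rw [Nat.add_sub_cancel_left] at this
        exact_mod_cast this
      have h2 : ((N + m).descFactorial N : ℝ) ≠ 0 := by
        intro h
        rw [h, mul_zero] at h1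
        exact absurd h1.symm (by positivity)
      have h3 : po (b + 1) (N + m) * po (b + 1 + (N + m : ℕ)) N =
          po (b + 1) (2 * N) * po (2 * N + b + 1) m := by
        rw [← po_add, show N + m + N = 2 * N + m by ring, po_add]
        push_cast
        rw [show b + 1 + 2 * (N : ℝ) = 2 * N + b + 1 by ring]
      rw [Nat.add_sub_cancel_left, orth hb l _ N m N m rfl rfl, if_pos rfl, F_v0 hb, bw, add_zero,
        po_zero, ← h1]
      generalize po (b + 1 + (N + m : ℕ)) N = A at h3 ⊢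
      field_simp
      linear_combination (-(c N ^ 2 * jj b l N)) * h3
    · intro N' hN' hne
      rw [orth hb l n N' (n - N') N (n - N) (by have := mem_range.1 hN'; omega)
        (by have := mem_range.1 hN; omega), if_neg hne, mul_zero]
    · exact fun h => absurd hN h

end

end Pool.Agent.MP_6e64bc_an.H72.Sl2
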