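import Pool.Agent.MP_6e64bc_an.H72.Beta

/-! Twisted positivity. -/

open MeasureTheory ProbabilityTheory Finset Filter Topology
open scoped ComplexConjugate
open Pool.Agent.MP_6e64bc_an.H80 Pool.Agent.MP_6e64bc_an.H72.Beta

namespace Pool.Agent.MP_6e64bc_an.H72.Twi

/-- coefficients on the circle of radius `r` -/
noncomputable def cf (G : PowerSeries ℂ) (r : ℝ) (n : ℕ) : ℂ := PowerSeries.coeff n G * (r : ℂ) ^ n

variable {G H : PowerSeries ℂ} {r : ℝ}

theorem norm_cf (h0 : 0 ≤ r) (n : ℕ) : ‖cf G r n‖ = ‖PowerSeries.coeff n G‖ * r ^ n := by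
  simp [cf, abs_of_nonneg h0]

theorem sum_cf (hG : Cv G) (h0 : 0 ≤ r) (h1 : r < 1) : Summable fun n => ‖cf G r n‖ := by
  simpa only [norm_cf h0] using hG r h0 h1

theorem cf_mul (G H : PowerSeries ℂ) (r : ℝ) (n : ℕ) :
    cf (G * H) r n = ∑ p ∈ antidiagonal n, cf G r p.1 * cf H r p.2 := by
  rw [cf, PowerSeries.coeff_mul, sum_mul]
  refine sum_congr rfl fun p hp => ?_
  rw [← mem_antidiagonal.1 hp, cf, cf]; ring

theorem cv_mul (hG : Cv G) (hH : Cv H) : Cv (G * H) := fun r h0 h1 => by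
  simpa only [← cf_mul, norm_cf h0] using
    summable_norm_sum_mul_antidiagonal_of_summable_norm (sum_cf hG h0 h1) (sum_cf hH h0 h1)

theorem tr_mul (hG : Cv G) (hH : Cv H) (h0 : 0 ≤ r) (h1 : r < 1) (x : ℝ) :
    tr (cf (G * H) r) x = tr (cf G r) x * tr (cf H r) x := by
  rw [tr, tr, tr, tsum_mul_tsum_eq_tsum_sum_antidiagonal_of_summable_norm
    (by simpa using sum_cf hG h0 h1) (by simpa using sum_cf hH h0 h1)]
  refine tsum_congr fun n => ?_
  rw [cf_mul, sum_mul]
  refine sum_congr rfl fun p hp => ?_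
  rw [← mem_antidiagonal.1 hp, Nat.cast_add, add_mul, ee_add]; ring

/-- real part of the hermitian product of the coefficients -/
noncomputable def hp (G H : PowerSeries ℂ) (n : ℕ) : ℝ :=
  (PowerSeries.coeff n G).re * (PowerSeries.coeff n H).re +
    (PowerSeries.coeff n G).im * (PowerSeries.coeff n H).im

theorem hp_eq (G H : PowerSeries ℂ) (n : ℕ) :
    hp G H n = (PowerSeries.coeff n G * conj (PowerSeries.coeff n H)).re := by simp [hp]

theorem pars_re (hG : Cv G) (hH : Cv H) (h0 : 0 ≤ r) (h1 : r < 1) :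
    HasSum (fun n => r ^ (2 * n) * hp G H n)
      (∫ x, (tr (cf G r) x * conj (tr (cf H r) x)).re ∂mu) := by
  have c1 := cont_tr (sum_cf hG h0 h1)
  have c2 := cont_tr (sum_cf hH h0 h1)
  have h := Complex.hasSum_re (pars_two (sum_cf hG h0 h1) (sum_cf hH h0 h1))
  rw [← RCLike.re_to_complex (x := ∫ _, _ ∂mu), ← integral_re (intg (by fun_prop))] at h
  refine h.congr_fun fun n => ?_
  rw [hp_eq, ← Complex.re_ofReal_mul, cf, cf, map_mul, map_pow, Complex.conj_ofReal]
  congr 1; push_cast; ring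

theorem sum_hp (hG : Cv G) (hH : Cv H) (h0 : 0 ≤ r) (h1 : r < 1) :
    Summable fun n => r ^ (2 * n) * |hp G H n| := by
  refine (pars_re hG hH h0 h1).summable.abs.congr fun n => ?_
  rw [abs_mul, abs_of_nonneg (pow_nonneg h0 _)]

theorem sq_eq (h : ℕ) (p : ℕ → ℂ) (f : ℂ) (y : ℕ → ℕ → ℝ) :
    ∑ i ∈ range h, ∑ l ∈ range h, ∑ k ∈ range h, ∑ j ∈ range h,
      y i j * y k l * (p i * p l * f * conj (p k * p j * f)).re =
    Complex.normSq (∑ i ∈ range h, ∑ j ∈ range h, y i j * (p i * conj (p j) * f)) := by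
  rw [← Complex.ofReal_re (Complex.normSq _), ← Complex.mul_conj, map_sum, sum_mul_sum,
    Complex.re_sum]
  refine sum_congr rfl fun i _ => ?_
  rw [sum_comm, Complex.re_sum]
  refine sum_congr rfl fun k _ => ?_
  rw [sum_comm, map_sum, sum_mul_sum, Complex.re_sum]
  refine sum_congr rfl fun j _ => ?_
  rw [Complex.re_sum]
  refine sum_congr rfl fun l _ => ?_
  rw [← Complex.re_ofReal_mul]
  congr 1
  simp only [map_mul, Complex.conj_ofReal, Complex.conj_conj]
  push_cast; ring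

theorem pos (h0 : 0 ≤ r) (h1 : r < 1) (h : ℕ) {P : ℕ → PowerSeries ℂ} {φ : PowerSeries ℂ}
    (y : ℕ → ℕ → ℝ) (hP : ∀ i, Cv (P i)) (hφ : Cv φ) : ∃ s ≥ 0,
    HasSum (fun n => ∑ i ∈ range h, ∑ l ∈ range h, ∑ k ∈ range h, ∑ j ∈ range h,
      y i j * y k l * (r ^ (2 * n) * hp (P i * P l * φ) (P k * P j * φ) n)) s := by
  have hc : ∀ i l, Cv (P i * P l * φ) := fun i l => cv_mul (cv_mul (hP i) (hP l)) hφ
  have c1 := fun i l => cont_tr (sum_cf (hc i l) h0 h1)
  refine ⟨_, ?_, hasSum_sum fun i _ => hasSum_sum fun l _ => hasSum_sum fun k _ =>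
    hasSum_sum fun j _ => (pars_re (hc i l) (hc k j) h0 h1).mul_left (y i j * y k l)⟩
  have e : ∀ (F : ℕ → ℝ → ℝ), (∀ i, Continuous (F i)) →
      ∑ i ∈ range h, ∫ x, F i x ∂mu = ∫ x, ∑ i ∈ range h, F i x ∂mu := fun F hF =>
    (integral_finsetSum _ fun i _ => intg (hF i)).symm
  simp only [← integral_const_mul]
  rw [sum_congr rfl fun i _ => sum_congr rfl fun l _ => sum_congr rfl fun k _ =>
      e _ (by fun_prop),
    sum_congr rfl fun i _ => sum_congr rfl fun l _ => e _ (by fun_prop),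
    sum_congr rfl fun i _ => e _ (by fun_prop), e _ (by fun_prop)]
  refine integral_nonneg fun x => ?_
  simp only [tr_mul (cv_mul (hP _) (hP _)) hφ h0 h1, tr_mul (hP _) (hP _) h0 h1]
  rw [sq_eq h (fun i => tr (cf (P i) r) x)]
  exact Complex.normSq_nonneg _

theorem main : TWI := by
  intro b ρ hb h0 h1 h P φ w x hP hφ
  have hc : ∀ i l, Cv (P i * P l * φ) := fun i l => cv_mul (cv_mul (hP i) (hP l)) hφ
  have key : ∀ u : ℝ, ∃ s ≥ 0, u ∈ Set.Ioo (0 : ℝ) 1 → HasSum (fun n =>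
      ∑ i ∈ range h, ∑ l ∈ range h, ∑ k ∈ range h, ∑ j ∈ range h,
        ρ ^ (2 * n) * (x i j * x k l * hp (P i * P l * φ) (P k * P j * φ) n) *
          (u ^ n * (1 - u) ^ (w i + w j + w k + w l))) s := fun u => by
    by_cases hu : u ∈ Set.Ioo (0 : ℝ) 1
    swap
    · exact ⟨0, le_rfl, fun h' => absurd h' hu⟩
    have hs : √u < 1 := by rw [Real.sqrt_lt' one_pos]; simpa using hu.2
    obtain ⟨s, hs0, hs1⟩ := pos (r := ρ * √u) (by positivity)
      (mul_lt_one_of_nonneg_of_lt_one_left h0.le h1 hs.le) h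
      (fun i j => x i j * (1 - u) ^ (w i + w j)) hP hφ
    refine ⟨s, hs0, fun _ => hs1.congr_fun fun n => ?_⟩
    refine sum_congr rfl fun i _ => sum_congr rfl fun l _ => sum_congr rfl fun k _ =>
      sum_congr rfl fun j _ => ?_
    rw [mul_pow, pow_mul √u, Real.sq_sqrt hu.1.le]; ring
  choose g hg0 hg using key
  refine ⟨_, integral_nonneg hg0, (hasSum_beta one_pos hb (fun n => by fun_prop)
    (B := fun n => ∑ i ∈ range h, ∑ l ∈ range h, ∑ k ∈ range h, ∑ j ∈ range h,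
      |x i j * x k l| * (ρ ^ (2 * n) * |hp (P i * P l * φ) (P k * P j * φ) n|))
    (summable_sum fun i _ => summable_sum fun l _ => summable_sum fun k _ =>
      summable_sum fun j _ => (sum_hp (hc i l) (hc k j) h0.le h1).mul_left _)
    (fun n u hu => ?_) hg).congr_fun fun n => ?_⟩
  · refine norm_sum_le_of_le _ fun i _ => norm_sum_le_of_le _ fun l _ =>
      norm_sum_le_of_le _ fun k _ => norm_sum_le_of_le _ fun j _ => ?_
    have a1 : 0 ≤ 1 - u := by linarith [hu.2]
    have a2 : u ^ n * (1 - u) ^ (w i + w j + w k + w l) ≤ 1 :=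
      mul_le_one₀ (pow_le_one₀ hu.1.le hu.2.le) (by positivity)
        (pow_le_one₀ a1 (by linarith [hu.1]))
    have a3 : 0 ≤ u ^ n * (1 - u) ^ (w i + w j + w k + w l) := by have := hu.1; positivity
    rw [Real.norm_eq_abs, abs_mul, abs_of_nonneg a3, abs_mul, abs_mul, abs_of_pos (pow_pos h0 _),
      mul_left_comm (ρ ^ (2 * n))]
    exact mul_le_of_le_one_right (by positivity) a2
  · have e : ∀ (F : ℕ → ℝ → ℝ), (∀ i, Continuous (F i)) →
        ∫ u, ∑ i ∈ range h, F i u ∂betaMeasure 1 b =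
          ∑ i ∈ range h, ∫ u, F i u ∂betaMeasure 1 b := fun F hF =>
      integral_finsetSum _ fun i _ => intg_on one_pos hb (hF i).continuousOn
    rw [e _ (by fun_prop), mul_sum]
    refine sum_congr rfl fun i _ => ?_
    rw [e _ (by fun_prop), mul_sum]
    refine sum_congr rfl fun l _ => ?_
    rw [e _ (by fun_prop), mul_sum]
    refine sum_congr rfl fun k _ => ?_
    rw [e _ (by fun_prop), mul_sum]
    refine sum_congr rfl fun j _ => ?_
    rw [integral_const_mul, mom_bw hb, hp]; ring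

end Pool.Agent.MP_6e64bc_an.H72.Twi
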