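import Pool.Agent.MP_6e64bc_an.H72.Key
import Pool.Agent.MP_6e64bc_an.H72.Ser
import Pool.Agent.MP_6e64bc_an.H72.Sl2
import Pool.Agent.MP_6e64bc_an.H72.Twi

open Finset Filter Topology Asymptotics PowerSeries

namespace Pool.Agent.MP_6e64bc_an.H72

/-- value of a monomial -/
noncomputable def mo (y : ℕ → ℂ⟦X⟧) (l : List ℕ) : ℂ⟦X⟧ := (l.map y).prod

/-- value of a polynomial -/
noncomputable def evP (y : ℕ → ℂ⟦X⟧) (P : List (List ℕ × ℚ)) : ℂ⟦X⟧ :=
  (P.map fun a => (a.2 : ℂ) • mo y a.1).sum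

variable {y r : ℕ → ℂ⟦X⟧} {φ : ℂ⟦X⟧} {f : ℂ → ℂ} {W : ℕ → ℕ → ℂ}

theorem mo_cons (k : ℕ) (l : List ℕ) : mo y (k :: l) = y k * mo y l := by simp [mo]

theorem mo_ins (k : ℕ) : ∀ l, mo y (ins k l) = y k * mo y l
  | [] => by simp [ins, mo]
  | a :: l => by
    rw [ins]; split_ifs
    · rw [mo_cons]
    · rw [mo_cons, mo_ins k l, mo_cons]; ring

theorem mo_nf : ∀ l, mo y (nf l) = mo y l
  | [] => rfl
  | a :: l => by rw [nf, mo_ins, mo_nf l, mo_cons]

theorem evP_stp (i : ℕ) : ∀ (t : List (List (List ℕ × ℚ))) (j : ℕ), evP y (stp i j t) =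
    -∑ k ∈ range t.length, ((2 * i + 1 - (j + k : ℕ) : ℂ) / (j + k + 2).factorial / (2 * (i + 1))) •
      (y (j + k + 1) * evP y (t.getD k []))
  | [], _ => by simp [stp, evP]
  | p :: t, j => by
    have h := evP_stp i t (j + 1)
    rw [List.length_cons, sum_range_succ', neg_add, add_comm]
    simp only [stp, evP, List.map_append, List.sum_append, List.map_map, List.getD_cons_succ,
      List.getD_cons_zero, add_zero] at h ⊢
    rw [h]
    congr 1
    · rw [← List.sum_map_mul_left, ← neg_smul, List.smul_sum, List.map_map]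
      refine congrArg _ (List.map_congr_left fun a _ => ?_)
      simp only [Function.comp, mo_ins, mul_smul_comm, smul_smul]
      congr 1; push_cast; ring
    · simp only [add_assoc, add_comm 1]

theorem rrs_len : ∀ i, (rrs i).length = i + 1
  | 0 => rfl
  | i + 1 => by simp [rrs, rrs_len i]

theorem evP_rrs (J : Jet f W φ y r) : ∀ i, ∀ j ≤ i, evP y ((rrs i).getD j []) = r (i - j)
  | 0, 0, _ => by simp [rrs, evP, mo, J.r0]
  | i + 1, j + 1, h => by simpa [rrs] using evP_rrs J i j (by omega)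
  | i + 1, 0, _ => by
    have h0 : (2 * (i + 1) : ℂ) ≠ 0 := by norm_cast
    rw [rrs, List.getD_cons_zero, evP_stp, rrs_len, tsub_zero, ← smul_right_inj h0, J.rs, smul_neg,
      smul_sum]
    refine congrArg _ (sum_congr rfl fun j hj => ?_)
    rw [evP_rrs J i j (by simpa [Nat.lt_succ_iff] using hj), smul_smul, zero_add,
      mul_div_cancel₀ _ h0]

theorem evP_rr (J : Jet f W φ y r) (i : ℕ) : evP y (rr i) = r i := by
  have := evP_rrs J i 0 i.zero_le
  rwa [tsub_zero, List.getD_eq_getElem?_getD, ← List.head?_eq_getElem?,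
    ← List.headD_eq_head?_getD] at this

theorem eu_mo (J : Jet f W φ y r) : ∀ l : List ℕ, eu (mo y l * φ) = (l.sum : ℂ) • (mo y l * φ) +
    ((1 / 2 - l.length : ℂ) • (mo y (ins 1 l) * φ) + ((dl l).map fun m => mo y (nf m) * φ).sum)
  | [] => by simp [mo, dl, ins, J.dφ]
  | k :: l => by
    have h := eu_mo J l
    have h2 : ((dl l).map fun m => mo y (nf (k :: m)) * φ).sum =
        y k * ((dl l).map fun m => mo y (nf m) * φ).sum := by
      rw [← List.sum_map_mul_left]; simp only [mo_nf, mo_cons, mul_assoc]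
    rw [mo_cons, mul_assoc, Ser.eu_mul, h, J.dy]
    simp only [dl, List.map_cons, List.sum_cons, List.map_map, Function.comp_def, h2]
    simp only [mo_nf, mo_ins, mo_cons, List.length_cons, smul_eq_C_mul]
    push_cast
    simp only [map_add, map_sub, map_one]
    ring

theorem cv_mo (J : Jet f W φ y r) : ∀ l, Cv (mo y l)
  | [] => fun ρ _ _ => summable_of_ne_finset_zero (s := {0}) fun n hn => by
    simp [mo, coeff_one, show n ≠ 0 by simpa using hn]
  | k :: l => by rw [mo_cons]; exact Twi.cv_mul (J.cy k) (cv_mo J l)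

theorem pi_mul (π : ℂ →L[ℝ] ℝ) (a : ℝ) (z : ℂ) : π (a * z) = a * π z := by
  rw [← Complex.real_smul, map_smul, smul_eq_mul]

theorem pi_XW (π : ℂ →L[ℝ] ℝ) (W : ℕ → ℂ) (k : ℕ) : XW (fun k => π (W k)) k = π (XW W k) := by
  rw [XW, XW, map_add, ← pi_mul, ← pi_mul]; push_cast; rfl

/-- real and imaginary parts of the data -/
noncomputable def alg {b : ℝ} (hb : 0 < b) (T : Two f W) (J : Jet f W φ y r) (π : ℂ →L[ℝ] ℝ) :
    Alg b where
  W n k := π (W n k)
  c n := (Sl2.main b hb n (fun k => π (W n k)) fun k hk => by simp [T.supp n k hk]).choose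
  g l n := π (coeff n (mo y l * φ))
  supp n k hk := by simp [T.supp n k hk]
  comp n := (Sl2.main b hb n (fun k => π (W n k)) fun k hk => by simp [T.supp n k hk]).choose_spec.1
  symm n k hk := by rw [pi_XW, pi_XW, J.symm n k hk]
  jet n i := by
    have h := congrArg π (J.jet n i)
    rw [← evP_rr J, evP, mul_comm, ← List.sum_map_mul_right, map_list_sum, map_list_sum, map_sum,
      List.map_map, List.map_map] at h
    refine Eq.trans (sum_congr rfl fun k _ => ?_) (h.trans (congrArg _ (List.map_congr_left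
      fun a _ => ?_)))
    · rw [mul_comm, ← pi_mul, mul_comm]; rfl
    · rw [← pi_mul]; simp
  der l n := by
    have h := congrArg (fun G => π (coeff n G)) (eu_mo J l)
    simp only [eu, coeff_mk, map_add, map_smul, smul_eq_mul, map_list_sum, List.map_map] at h
    rw [sub_mul, ← pi_mul, ← pi_mul, ← pi_mul, sub_eq_iff_eq_add']
    simp only [Complex.ofReal_natCast, Complex.ofReal_sub, Complex.ofReal_div, Complex.ofReal_one,
      Complex.ofReal_ofNat]
    exact h
  nrm l n := by rw [mo_nf]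

theorem alg_nw {b : ℝ} (hb : 0 < b) (T : Two f W) (J : Jet f W φ y r) (π : ℂ →L[ℝ] ℝ) (n l : ℕ) :
    (1 - 2 * (l : ℝ)) ^ 2 * NW b l n (fun k => π (W n k)) = bw b n 0 * ∑ N ∈ range (n + 1),
      po (b + 1 + n) N / n.descFactorial N * jj b l N * (alg hb T J π).c n N ^ 2 :=
  (Sl2.main b hb n (fun k => π (W n k)) fun k hk => by simp [T.supp n k hk]).choose_spec.2 l

theorem Alg.c0 {b : ℝ} (hb : 0 < b) (A : Alg b) (n : ℕ) : A.c n 0 = A.g [] n := by
  have h1 := (A.comp n).1 0 le_rfl
  have h2 := cut (b := b) n.zero_le (1 / 2) (A.c n) fun _ => 1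
  have h3 := parts_choose (A.supp n _ n.lt_succ_self) 0
  have h4 := A.jet n 0
  simp only [add_zero, div_self (po_pos (show (0 : ℝ) < 1 / 2 by norm_num) _).ne',
    div_self (po_pos (show (0 : ℝ) < b + 1 by positivity) _).ne'] at h1
  simp [ps, po, rr, rrs] at h1 h2 h3 h4
  rw [← h2, ← h1, h3, h4]

theorem tw_sum {b ρ : ℝ} (hb : 0 < b) (h0 : 0 < ρ) (h1 : ρ < 1) (T : Two f W) (J : Jet f W φ y r)
    {L : List (List (List ℤ))} {hs : List (List ℕ)} {m : ℕ}
    (hL : ∀ i < hs.length, ∀ j < hs.length, (lk L i j).length ≤ m) : ∃ s ≥ 0,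
    HasSum (fun n => ρ ^ (2 * n) * (tw L hs (alg hb T J Complex.reCLM, n) +
      tw L hs (alg hb T J Complex.imCLM, n))) s := by
  choose s s0 hs' using fun c : ℕ => Twi.main b ρ hb h0 h1 hs.length (fun i => mo y (hs.getD i []))
    φ (fun i => (hs.getD i []).sum) (fun i j => ((lk L i j).getD c 0 : ℝ)) (fun i => cv_mo J _) J.cφ
  refine ⟨∑ c ∈ range m, s c, sum_nonneg fun c _ => s0 c, ?_⟩
  convert hasSum_sum (s := range m) fun c _ => hs' c using 2 with n
  simp only [tw, ← mul_sum, ← sum_add_distrib]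
  congr 1
  rw [sum_comm (s := range m)]
  refine sum_congr rfl fun i hi => ?_
  rw [sum_comm (s := range m)]
  refine sum_congr rfl fun l _ => ?_
  rw [sum_comm (s := range m)]
  refine sum_congr rfl fun k _ => ?_
  rw [sum_comm (s := range m)]
  refine sum_congr rfl fun j hj => ?_
  rw [dot_eq m _ _ (hL i (mem_range.1 hi) j (mem_range.1 hj)), ← mul_add, ← sum_mul, ← sum_mul]
  simp only [alg, pm, mo, List.map_append, List.prod_append, List.sum_append, Complex.reCLM_apply,
    Complex.imCLM_apply]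
  push_cast
  congr 3; ring

end Pool.Agent.MP_6e64bc_an.H72
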