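import Pool.Agent.MP_6e64bc_an.H72.Pra2

open MeasureTheory Complex Filter Topology Metric Finset
open scoped ComplexConjugate Real

namespace Pool.Agent.MP_6e64bc_an.H72.Pra

open H80

theorem at_z {f : ℂ → ℂ} (hf : DifferentiableOn ℂ f (ball 0 1)) (hi : Set.InjOn f (ball 0 1))
    {W : ℕ → ℕ → ℂ} (hW : Two f W) {ρ : ℝ} (h0 : 0 < ρ) (h1 : ρ < 1) {z : ℂ} (hz : ‖z‖ < 1)
    (z0 : z ≠ 0) (L : ℕ) :
    ∑ l ∈ range (L + 1), ((l : ℝ) - 1 / 2) * ‖∑' n, (ρ : ℂ) ^ n * cf n (W n) z l‖ ^ 2 ≤ 0 := by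
  have hu := (hW.sum ρ h0.le h1).mul_left 2
  have hg : ∀ n, DifferentiableOn ℂ (fun η => (ρ : ℂ) ^ n * tm n (W n) z η) (ball 0 1) :=
    fun n => (tm_diff n (W n) hz).const_mul _
  have hb : ∀ n, ∀ η ∈ ball (0 : ℂ) 1, ‖(ρ : ℂ) ^ n * tm n (W n) z η‖ ≤
      2 * ((∑ k ∈ range (n + 1), ‖W n k‖) * ρ ^ n) := fun n η hη => by
    rw [norm_mul, norm_pow, Complex.norm_real, Real.norm_eq_abs, abs_of_pos h0, mul_comm,
      ← mul_assoc]
    exact mul_le_mul_of_nonneg_right (tm_le n (W n) hz (mem_ball_zero_iff.1 hη)) (by positivity)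
  set B : ℂ → ℂ := fun η => ∑' n, (ρ : ℂ) ^ n * tm n (W n) z η with hBd
  have hB : DifferentiableOn ℂ B (ball 0 1) :=
    Complex.differentiableOn_tsum_of_summable_norm hu hg isOpen_ball hb
  have hρ : (ρ : ℂ) ≠ 0 := by exact_mod_cast h0.ne'
  have hm : ∀ w : ℂ, ‖w‖ < 1 → (ρ * w : ℂ) ∈ ball (0 : ℂ) 1 := fun w hw => by
    rw [mem_ball_zero_iff, norm_mul, Complex.norm_real, Real.norm_eq_abs, abs_of_pos h0]
    exact mul_lt_one_of_nonneg_of_lt_one_left h0.le h1 hw.le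
  have hD := deriv_ne hf hi (hm z hz)
  have key : ∀ η ∈ ball (0 : ℂ) 1, B η ^ 2 * dslope f (ρ * z) (ρ * sg z η) =
      deriv f (ρ * z) ^ 2 * (1 + conj z * η) := fun η hη => by
    have h := hW.sq _ (hm z hz) _ (hm _ (sg_lt hz (mem_ball_zero_iff.1 hη))) (mul_ne_zero hρ z0)
    have e : B η = (∑' n, ∑ k ∈ range (n + 1), W n k * (ρ * z) ^ (n - k) * (ρ * sg z η) ^ k) *
        (1 + conj z * η) ^ (1 / 2 : ℂ) := by
      rw [← tsum_mul_right]
      refine tsum_congr fun n => ?_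
      rw [tm, ← mul_assoc, mul_sum]
      refine congrArg (· * _) (sum_congr rfl fun k hk => ?_)
      have hk' : k ≤ n := by simpa [Nat.lt_succ_iff] using hk
      rw [mul_pow, mul_pow, show (ρ : ℂ) ^ n = ρ ^ (n - k) * ρ ^ k by
        rw [← pow_add, Nat.sub_add_cancel hk']]
      ring
    rw [e, mul_pow, rt_sq, ← h]
    ring
  have hne : ∀ η ∈ ball (0 : ℂ) 1, B η ≠ 0 := fun η hη e => by
    have := key η hη
    rw [e] at this
    exact mul_ne_zero (pow_ne_zero 2 hD) (den_ne hz (mem_ball_zero_iff.1 hη)) (by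
      rw [← this]; simp)
  have hG : ∀ ζ ∈ ball (0 : ℂ) 1, f (ρ * sg z (ζ ^ 2)) - f (ρ * z) =
      (ζ / B (ζ ^ 2)) ^ 2 * (ρ * (1 - conj z * z) * deriv f (ρ * z) ^ 2) := fun ζ hζ => by
    have h2 := sq_mem hζ
    have h3 := key _ h2
    have h4 := den_ne hz (mem_ball_zero_iff.1 h2)
    have h5 := hne _ h2
    have h6 : (sg z (ζ ^ 2) - z) * (1 + conj z * ζ ^ 2) = ζ ^ 2 * (1 - conj z * z) := by
      rw [sg, sub_mul, div_mul_cancel₀ _ h4]
      ring
    rw [← sub_smul_dslope f (ρ * z), smul_eq_mul, div_pow, div_mul_eq_mul_div,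
      eq_div_iff (pow_ne_zero 2 h5)]
    linear_combination (ρ * (sg z (ζ ^ 2) - z)) * h3 + (ρ * deriv f (ρ * z) ^ 2) * h6
  have hinj : Set.InjOn (fun ζ => ζ / B (ζ ^ 2)) (ball 0 1) := fun ζ hζ ξ hξ e => by
    simp only at e
    have h2 := mem_ball_zero_iff.1 (sq_mem hζ)
    have h3 := mem_ball_zero_iff.1 (sq_mem hξ)
    have h4 : f (ρ * sg z (ζ ^ 2)) = f (ρ * sg z (ξ ^ 2)) :=
      sub_left_injective ((hG ζ hζ).trans (by rw [e]; exact (hG ξ hξ).symm))
    have h5 := mul_left_cancel₀ hρ (hi (hm _ (sg_lt hz h2)) (hm _ (sg_lt hz h3)) h4)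
    rw [sg, sg, div_eq_div_iff (den_ne hz h2) (den_ne hz h3)] at h5
    have h6 : ζ ^ 2 = ξ ^ 2 := by
      refine mul_right_cancel₀ (den_ne hz (η := -z) (by simpa using hz)) ?_
      linear_combination h5
    rw [h6] at e
    exact (div_left_inj' (hne _ (sq_mem hξ))).1 e
  obtain ⟨a, ha⟩ := taylor hB
  have h := prawitz hB hne hinj ha L
  have e : ∀ l, a l = ∑' n, (ρ : ℂ) ^ n * cf n (W n) z l := fun l => by
    rw [← co_eq ha l, ← (co_sum hu hg hb l).tsum_eq]
    refine tsum_congr fun n => co_eq (a := fun l => (ρ : ℂ) ^ n * cf n (W n) z l) (fun η hη => ?_) l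
    simpa only [mul_assoc] using (tm_sum n (W n) hz (mem_ball_zero_iff.1 hη)).mul_left ((ρ : ℂ) ^ n)
  simpa only [e] using h

theorem cf_rot (n : ℕ) (W : ℕ → ℂ) (s : ℂ) (x : ℝ) (l : ℕ) :
    cf n W (s * ee x) l * ee x ^ l = cf n W s l * ee x ^ n := by
  rw [cf, cf, sum_mul, sum_mul]
  refine sum_congr rfl fun i hi => ?_
  have hi' : i ≤ n ∧ i ≤ l := by simpa [Nat.lt_succ_iff] using hi
  obtain ⟨a, rfl⟩ := Nat.exists_eq_add_of_le hi'.1
  obtain ⟨c, rfl⟩ := Nat.exists_eq_add_of_le hi'.2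
  have e : conj (ee x) ^ c * ee x ^ c = 1 := by
    rw [← mul_pow, ← ee_neg, ← ee_add]
    simp
  simp only [Nat.add_sub_cancel_left, map_mul, mul_pow, pow_add]
  linear_combination (xc (i + c) (i + a) W i * s ^ a * conj s ^ c * ee x ^ a * ee x ^ i) * e

theorem term_le (W : ℕ → ℕ → ℂ) {ρ : ℝ} (h0 : 0 < ρ) {z : ℂ} (hz : ‖z‖ < 1) (n l : ℕ) :
    ‖(ρ : ℂ) ^ n * cf n (W n) z l‖ ≤ 2 ^ l * 2 * ((∑ k ∈ range (n + 1), ‖W n k‖) * ρ ^ n) := by
  rw [norm_mul, norm_pow, Complex.norm_real, Real.norm_eq_abs, abs_of_pos h0, mul_comm,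
    ← mul_assoc, mul_assoc (2 ^ l)]
  exact mul_le_mul_of_nonneg_right (cf_le n (W n) hz l) (by positivity)

theorem at_s {f : ℂ → ℂ} (hf : DifferentiableOn ℂ f (ball 0 1)) (hi : Set.InjOn f (ball 0 1))
    {W : ℕ → ℕ → ℂ} (hW : Two f W) {ρ : ℝ} (h0 : 0 < ρ) (h1 : ρ < 1) {s : ℂ} (hs : ‖s‖ < 1)
    (s0 : s ≠ 0) (L : ℕ) : ∃ S ≤ 0, HasSum (fun n =>
      ∑ l ∈ range (L + 1), ((l : ℝ) - 1 / 2) * ‖(ρ : ℂ) ^ n * cf n (W n) s l‖ ^ 2) S := by
  have hz : ∀ x, ‖s * ee x‖ < 1 := fun x => by simpa using hs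
  have hsum : ∀ z : ℂ, ‖z‖ < 1 → ∀ l, Summable fun n => ‖(ρ : ℂ) ^ n * cf n (W n) z l‖ :=
    fun z hz l => Summable.of_nonneg_of_le (fun _ => norm_nonneg _) (fun n => term_le W h0 hz n l)
      ((hW.sum ρ h0.le h1).mul_left _)
  have hA : ∀ l x, HasSum (fun n => (ρ : ℂ) ^ n * cf n (W n) s l * ee x ^ n)
      ((∑' n, (ρ : ℂ) ^ n * cf n (W n) (s * ee x) l) * ee x ^ l) := fun l x => by
    simpa only [mul_assoc, cf_rot] using
      (hsum _ (hz x) l).of_norm.hasSum.mul_right (ee x ^ l)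
  refine ⟨_, ?_, hasSum_sum fun l _ => (pars_nat (hsum s hs l) (hA l)).mul_left _⟩
  simp only [← integral_const_mul]
  rw [← integral_finsetSum _ fun l _ => intg (by
    have := cont_sum (hsum s hs l) (hA l)
    exact continuous_const.mul (this.norm.pow 2))]
  refine integral_nonpos fun x => ?_
  simpa using at_z hf hi hW h0 h1 (hz x) (mul_ne_zero s0 (ee_ne x)) L

theorem cf_sq (n : ℕ) (W : ℕ → ℂ) (s : ℝ) (l : ℕ) :
    ‖cf n W s l‖ ^ 2 = ∑ i ∈ range (min n l + 1), ∑ j ∈ range (min n l + 1),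
      (xw l n (fun k => (W k).re) i * xw l n (fun k => (W k).re) j +
        xw l n (fun k => (W k).im) i * xw l n (fun k => (W k).im) j) * (s ^ 2) ^ (n + l - i - j) := by
  have e : cf n W s l =
      ∑ i ∈ range (min n l + 1), ((s ^ (n - i) * s ^ (l - i) : ℝ) : ℂ) * xc l n W i := by
    refine sum_congr rfl fun i _ => ?_
    rw [conj_ofReal]
    push_cast
    ring
  rw [e, Complex.sq_norm, normSq_apply, re_sum, im_sum, sum_mul_sum, sum_mul_sum, ← sum_add_distrib]
  refine sum_congr rfl fun i hi => ?_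
  rw [← sum_add_distrib]
  refine sum_congr rfl fun j hj => ?_
  have hi' : i ≤ n ∧ i ≤ l := by simpa [Nat.lt_succ_iff] using hi
  have hj' : j ≤ n ∧ j ≤ l := by simpa [Nat.lt_succ_iff] using hj
  have e2 : (s ^ 2) ^ (n + l - i - j) = s ^ (n - i) * s ^ (l - i) * (s ^ (n - j) * s ^ (l - j)) := by
    rw [← pow_mul, ← pow_add, ← pow_add, ← pow_add]
    congr 1
    omega
  simp only [re_ofReal_mul, im_ofReal_mul, xc_re, xc_im]
  rw [e2]
  ring

theorem po_pos {a : ℝ} (h : 0 < a) (n : ℕ) : 0 < po a n := by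
  induction n with
  | zero => simp [po]
  | succ n ih => exact mul_pos ih (by positivity)

theorem po_shift (b : ℝ) (w : ℕ) : po b w * (b + w) = b * po (b + 1) w := by
  induction w with
  | zero => simp [po]
  | succ w ih =>
    rw [po, po, ih]
    push_cast
    ring

theorem mom {b : ℝ} (hb : 0 < b) (m w : ℕ) :
    ∫ v in (0 : ℝ)..1, (1 - v ^ (1 / b)) ^ m * (v ^ (1 / b)) ^ w = bw b m w := by
  have hc : Continuous fun v : ℝ => v ^ (1 / b) := Real.continuous_rpow_const (by positivity)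
  induction m generalizing w with
  | zero =>
    have e : ∫ v in (0 : ℝ)..1, (1 - v ^ (1 / b)) ^ 0 * (v ^ (1 / b)) ^ w =
        ∫ v in (0 : ℝ)..1, v ^ (1 / b * w) := by
      refine intervalIntegral.integral_congr fun v hv => ?_
      rw [Set.uIcc_of_le zero_le_one] at hv
      simp only [pow_zero, one_mul]
      rw [Real.rpow_mul hv.1, Real.rpow_natCast]
    have hp : (0 : ℝ) < 1 / b * w + 1 := by positivity
    rw [e, integral_rpow (Or.inl (by linarith)), Real.one_rpow, Real.zero_rpow hp.ne', bw,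
      div_eq_div_iff hp.ne' (po_pos (by linarith) _).ne']
    have := po_shift b w
    simp only [zero_add, Nat.factorial_zero, Nat.cast_one, one_mul, sub_zero]
    field_simp
    linarith
  | succ m ih =>
    have e : ∀ v : ℝ, (1 - v ^ (1 / b)) ^ (m + 1) * (v ^ (1 / b)) ^ w =
        (1 - v ^ (1 / b)) ^ m * (v ^ (1 / b)) ^ w - (1 - v ^ (1 / b)) ^ m * (v ^ (1 / b)) ^ (w + 1) :=
      fun v => by ring
    simp only [e]
    rw [intervalIntegral.integral_sub (Continuous.intervalIntegrable (by fun_prop) _ _)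
      (Continuous.intervalIntegrable (by fun_prop) _ _), ih, ih, bw, bw, bw,
      show m + 1 + w = m + w + 1 by ring, ← add_assoc, po, po, Nat.factorial_succ]
    have h1 := (po_pos (show 0 < b + 1 by linarith) (m + w)).ne'
    have h2 : b + 1 + ((m + w : ℕ) : ℝ) ≠ 0 := by positivity
    field_simp
    push_cast
    ring

theorem main : PRA := by
  intro f hf hi W hW b ρ hb h0 h1 L
  have hc : Continuous fun v : ℝ => v ^ (1 / b) := Real.continuous_rpow_const (by positivity)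
  set P : ℕ → ℝ → ℝ := fun n v => ρ ^ (2 * n) * ∑ l ∈ range (L + 1), ((l : ℝ) - 1 / 2) *
    ∑ i ∈ range (min n l + 1), ∑ j ∈ range (min n l + 1),
      (xw l n (fun k => (W n k).re) i * xw l n (fun k => (W n k).re) j +
        xw l n (fun k => (W n k).im) i * xw l n (fun k => (W n k).im) j) *
          (1 - v ^ (1 / b)) ^ (n + l - i - j) with hP
  have hPc : ∀ n, Continuous (P n) := fun n => by
    simp only [hP]
    fun_prop
  have hv : ∀ v ∈ Set.Ioo (0 : ℝ) 1, ∃ s : ℝ, ‖(s : ℂ)‖ < 1 ∧ (s : ℂ) ≠ 0 ∧ ∀ n, P n v =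
      ∑ l ∈ range (L + 1), ((l : ℝ) - 1 / 2) * ‖(ρ : ℂ) ^ n * cf n (W n) s l‖ ^ 2 := fun v hv => by
    have a1 : 0 < v ^ (1 / b) := Real.rpow_pos_of_pos hv.1 _
    have a2 : v ^ (1 / b) < 1 := Real.rpow_lt_one hv.1.le hv.2 (by positivity)
    refine ⟨√(1 - v ^ (1 / b)), ?_, ?_, fun n => ?_⟩
    · rw [Complex.norm_real, Real.norm_eq_abs, abs_of_nonneg (Real.sqrt_nonneg _),
        Real.sqrt_lt' one_pos]
      linarith
    · exact_mod_cast (Real.sqrt_pos.2 (by linarith)).ne'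
    · simp only [hP, mul_sum (range (L + 1))]
      refine sum_congr rfl fun l _ => ?_
      rw [norm_mul, mul_pow, cf_sq, Real.sq_sqrt (by linarith), norm_pow, Complex.norm_real,
        Real.norm_eq_abs, abs_of_pos h0]
      ring
  have hI : ∀ n, Integrable (P n) (volume.restrict (Set.Ioo (0 : ℝ) 1)) := fun n =>
    ((hPc n).integrableOn_Icc (a := 0) (b := 1)).mono_set Set.Ioo_subset_Icc_self
  have hU := hW.sum ρ h0.le h1
  have hU2 : Summable fun n => ((∑ k ∈ range (n + 1), ‖W n k‖) * ρ ^ n) ^ 2 := by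
    refine Summable.of_nonneg_of_le (fun _ => sq_nonneg _) (fun n => ?_)
      (hU.mul_left (∑' n, (∑ k ∈ range (n + 1), ‖W n k‖) * ρ ^ n))
    rw [sq]
    exact mul_le_mul_of_nonneg_right (hU.le_tsum n fun _ _ => by positivity) (by positivity)
  have hS := hasSum_integral_of_summable_integral_norm hI
    (Summable.of_nonneg_of_le (fun n => integral_nonneg fun _ => norm_nonneg _) (fun n => by
      have := norm_setIntegral_le_of_norm_le_const (μ := volume) (s := Set.Ioo (0 : ℝ) 1)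
        (f := fun v => ‖P n v‖) (C := (∑ l ∈ range (L + 1), |(l : ℝ) - 1 / 2| * (2 ^ l * 2) ^ 2) *
          ((∑ k ∈ range (n + 1), ‖W n k‖) * ρ ^ n) ^ 2) measure_Ioo_lt_top (fun v h => by
          obtain ⟨s, hs, -, e⟩ := hv v h
          rw [norm_norm, e, sum_mul]
          refine (norm_sum_le _ _).trans (sum_le_sum fun l _ => ?_)
          rw [norm_mul, mul_assoc, ← mul_pow, norm_pow, norm_norm, Real.norm_eq_abs]
          exact mul_le_mul_of_nonneg_left
            (pow_le_pow_left₀ (norm_nonneg _) (term_le W h0 hs n l) 2) (abs_nonneg _))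
      refine (le_abs_self _).trans ?_
      simpa using this) (hU2.mul_left _))
  refine ⟨_, ?_, HasSum.congr_fun hS fun n => ?_⟩
  · refine setIntegral_nonpos measurableSet_Ioo fun v h => ?_
    obtain ⟨s, hs, s0, e⟩ := hv v h
    obtain ⟨S, hS0, h2⟩ := at_s hf hi hW h0 h1 hs s0 L
    simp only [e]
    rw [h2.tsum_eq]
    exact hS0
  · rw [← integral_Ioc_eq_integral_Ioo, ← intervalIntegral.integral_of_le zero_le_one]
    simp only [hP]
    rw [intervalIntegral.integral_const_mul, intervalIntegral.integral_finsetSum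
      fun l _ => Continuous.intervalIntegrable (by fun_prop) _ _, PW, PW, ← sum_add_distrib]
    refine congrArg _ (sum_congr rfl fun l _ => ?_)
    rw [intervalIntegral.integral_const_mul, intervalIntegral.integral_finsetSum
      fun i _ => Continuous.intervalIntegrable (by fun_prop) _ _, ← mul_add, NW, NW,
      ← sum_add_distrib]
    refine congrArg _ (sum_congr rfl fun i _ => ?_)
    rw [intervalIntegral.integral_finsetSum
      fun j _ => Continuous.intervalIntegrable (by fun_prop) _ _, ← sum_add_distrib]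
    refine sum_congr rfl fun j _ => ?_
    have := mom hb (n + l - i - j) 0
    simp only [pow_zero, mul_one] at this
    rw [intervalIntegral.integral_const_mul, this]
    ring

end Pool.Agent.MP_6e64bc_an.H72.Pra
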