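import Pool.Agent.MP_6e64bc_an.H72.Link
import Pool.Agent.MP_6e64bc_an.H72.Pra
import Pool.Agent.MP_6e64bc_an.H72.Err

open Finset Filter Topology Asymptotics PowerSeries Metric

namespace Pool.Agent.MP_6e64bc_an.H72

theorem kk_pos {b : ℝ} (hb : 0 < b) (N : ℕ) : 0 < kk b (N + 1) := by
  have := po_pos (show 0 < b + 1 / 2 by positivity) (N + 1)
  have := po_pos (show 0 < b + 3 / 2 by positivity) (N + 1)
  have a2 : 0 < ((N + 1 : ℕ) : ℝ) - 1 / 2 := by push_cast; linarith [N.cast_nonneg (α := ℝ)]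
  rw [kk, if_neg N.succ_ne_zero]; positivity

theorem tau_ge {b : ℝ} (hb : 0 < b) (n : ℕ) : ∀ N, (n.descFactorial N : ℝ) ≤ po (b + 1 + n) N
  | 0 => by simp [po]
  | N + 1 => by
    rw [Nat.descFactorial_succ, po, mul_comm, Nat.cast_mul]
    have h : ((n - N : ℕ) : ℝ) ≤ n := by exact_mod_cast Nat.sub_le n N
    exact mul_le_mul (tau_ge hb n N) (by linarith [N.cast_nonneg (α := ℝ)]) (by positivity)
      (po_pos (by positivity) N).le

theorem SS_nonneg {b : ℝ} (hb : 0 < b) (L N : ℕ) :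
    0 ≤ ∑ l ∈ range (L + 1), jj b l (N + 1) / (l - 1 / 2) := sum_nonneg fun l _ => by
  rw [jj]; split_ifs with h
  · have h1 : ((N + 1 : ℕ) : ℝ) ≤ l := by exact_mod_cast h
    have := bw_pos hb (l - (N + 1)) (2 * (N + 1))
    have := po_pos (show 0 < b + 1 by positivity) (2 * (N + 1))
    exact div_nonneg (by positivity) (by push_cast at h1; linarith [N.cast_nonneg (α := ℝ)])
  · simp

theorem pw_ge {b : ℝ} (hb : 0 < b) {n : ℕ} {W c : ℕ → ℝ} (h : ∀ l : ℕ, (1 - 2 * (l : ℝ)) ^ 2 *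
    NW b l n W = bw b n 0 * ∑ N ∈ range (n + 1),
      po (b + 1 + n) N / n.descFactorial N * jj b l N * c N ^ 2) (L : ℕ) :
    bw b n 0 * ∑ N ∈ range n, (∑ l ∈ range (L + 1), jj b l (N + 1) / (l - 1 / 2)) * c (N + 1) ^ 2 ≤
      4 * PW b L n W - (∑ l ∈ range (L + 1), jj b l 0 / (l - 1 / 2)) * (bw b n 0 * c 0 ^ 2) := by
  have e : 4 * PW b L n W = bw b n 0 * ∑ N ∈ range (n + 1), po (b + 1 + n) N / n.descFactorial N *
      (∑ l ∈ range (L + 1), jj b l N / (l - 1 / 2)) * c N ^ 2 := by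
    simp only [PW, mul_sum, sum_mul]
    rw [sum_comm]
    refine sum_congr rfl fun l _ => ?_
    have h0 : (l : ℝ) - 1 / 2 ≠ 0 := fun e => by
      have : ((2 * l : ℕ) : ℝ) = (1 : ℕ) := by push_cast; linarith
      have := Nat.cast_injective this; omega
    have h1 : 4 * (((l : ℝ) - 1 / 2) * NW b l n W) =
        (1 - 2 * (l : ℝ)) ^ 2 * NW b l n W / (l - 1 / 2) := by
      rw [eq_div_iff h0]; ring
    rw [h1, h, mul_sum, sum_div]
    exact sum_congr rfl fun N _ => by ring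
  rw [e, sum_range_succ' (n := n), le_sub_iff_add_le, mul_left_comm, ← mul_add]
  refine mul_le_mul_of_nonneg_left (add_le_add (sum_le_sum fun N hN => ?_) (by simp [po]))
    (bw_pos hb n 0).le
  have := SS_nonneg hb L N
  have h2 : (0 : ℝ) < n.descFactorial (N + 1) := by
    exact_mod_cast Nat.descFactorial_pos.2 (mem_range.1 hN)
  gcongr
  exact le_mul_of_one_le_left this ((one_le_div h2).2 (tau_ge hb n _))

/-- all data attached to a bounded univalent function and a radius -/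
structure Dt (M : ℝ) where
  f : ℂ → ℂ
  W : ℕ → ℕ → ℂ
  φ : ℂ⟦X⟧
  y : ℕ → ℂ⟦X⟧
  r : ℕ → ℂ⟦X⟧
  ρ : ℝ
  hf : DifferentiableOn ℂ f (ball 0 1)
  hi : Set.InjOn f (ball 0 1)
  f0 : f 0 = 0
  f1 : deriv f 0 = 1
  hM : ∀ z ∈ ball (0 : ℂ) 1, ‖f z‖ < M
  T : Two f W
  J : Jet f W φ y r
  h0 : 1 / 2 ≤ ρ
  h1 : ρ < 1

variable {M b : ℝ}

/-- coefficients are bounded uniformly -/
def Bd (G : Dt M → ℂ⟦X⟧) (n : ℕ) : Prop := (fun d => coeff n (G d)) =O[⊤] fun _ => (1 : ℝ)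

theorem o_mul {E : Type} [NormedRing E] {u v : Dt M → E} (hu : u =O[⊤] fun _ => (1 : ℝ))
    (hv : v =O[⊤] fun _ => (1 : ℝ)) : (fun d => u d * v d) =O[⊤] fun _ => (1 : ℝ) :=
  (hu.mul hv).congr_right fun _ => one_mul _

theorem bd_mul {G H : Dt M → ℂ⟦X⟧} (hG : ∀ n, Bd G n) (hH : ∀ n, Bd H n) (n : ℕ) :
    Bd (fun d => G d * H d) n := by
  simp only [Bd, coeff_mul]
  exact IsBigO.fun_sum fun a _ => o_mul (hG _) (hH _)

theorem bd_YY (k n : ℕ) : Bd (fun d : Dt M => YY d.f k) n := by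
  simp only [Bd, YY, coeff_mk]
  refine IsBigO.const_mul_left (IsBigO.of_bound (M * 2 ^ (n + 1)) (eventually_top.2 fun d => ?_)) _
  have h := H80.coef_le d.hf (r := 1 / 2) (by norm_num) (by norm_num) (n + 1)
  have hm := H80.w_mem (r := 1 / 2) (by norm_num) (by norm_num)
  have h2 := MeasureTheory.integral_mono (μ := H80.mu) (H80.intg
    (d.hf.continuousOn.comp_continuous (by fun_prop) hm).norm) (MeasureTheory.integrable_const M)
    fun β => (d.hM _ (hm β)).le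
  simp only [MeasureTheory.integral_const, MeasureTheory.probReal_univ, one_smul] at h2
  rw [norm_one, mul_one, ← div_le_iff₀ (by positivity), div_eq_mul_inv, ← inv_pow, ← one_div]
  exact h.trans h2

theorem bd_phi (n : ℕ) : Bd (fun d : Dt M => d.φ) n := by
  induction n using Nat.strong_induction_on with | _ n ih
  rcases n with _ | n
  · simp only [Bd, fun d : Dt M => d.J.φ0]; exact isBigO_const_const _ one_ne_zero _
  have h : (fun d : Dt M => ∑ i ∈ range n, coeff (i + 1) d.φ * coeff (n - i) d.φ) =O[⊤]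
      fun _ => (1 : ℝ) := IsBigO.fun_sum fun i hi => by
    have := mem_range.1 hi
    exact o_mul (ih _ (by omega)) (ih _ (by omega))
  refine (((bd_YY 0 (n + 1)).sub h).const_mul_left (1 / 2)).congr_left fun d => ?_
  beta_reduce
  rw [← d.J.φ2, sq, coeff_mul, Nat.sum_antidiagonal_eq_sum_range_succ_mk, sum_range_succ',
    sum_range_succ]
  simp only [Nat.add_sub_add_right, tsub_self, tsub_zero, d.J.φ0]
  ring

theorem bd_y (k n : ℕ) : Bd (fun d : Dt M => d.y k) n := by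
  induction n using Nat.strong_induction_on with | _ n ih
  have h : (fun d : Dt M => ∑ i ∈ range n, coeff (i + 1) (d.φ * d.φ) * coeff (n - (i + 1)) (d.y k))
      =O[⊤] fun _ => (1 : ℝ) := IsBigO.fun_sum fun i hi => by
    have := mem_range.1 hi
    exact o_mul (bd_mul bd_phi bd_phi _) (ih _ (by omega))
  refine ((bd_YY k n).sub h).congr_left fun d => ?_
  have h0 : coeff 0 (d.φ * d.φ) = 1 := by rw [coeff_mul]; simp only [Nat.antidiagonal_zero, sum_singleton, d.J.φ0, mul_one]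
  beta_reduce
  rw [← d.J.yd, sq, coeff_mul, Nat.sum_antidiagonal_eq_sum_range_succ_mk, sum_range_succ', h0]
  simp

theorem bd_mo : ∀ (l : List ℕ) (n : ℕ), Bd (fun d : Dt M => mo d.y l * d.φ) n
  | [], n => by simpa [mo] using bd_phi n
  | k :: l, n => by simpa only [mo_cons, mul_assoc] using bd_mul (bd_y k) (bd_mo l) n

theorem o_rho (n : ℕ) : (fun d : Dt M => d.ρ ^ n) =O[⊤] fun _ => (1 : ℝ) :=
  IsBigO.of_bound' (eventually_top.2 fun d => by
    rw [norm_one, norm_pow, Real.norm_of_nonneg (by linarith [d.h0])]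
    exact pow_le_one₀ (by linarith [d.h0]) d.h1.le)

theorem o_tw (hb : 0 < b) (π : ℂ →L[ℝ] ℝ) (L : List (List (List ℤ))) (hs : List (List ℕ)) (n : ℕ) :
    (fun d : Dt M => tw L hs (alg hb d.T d.J π, n)) =O[⊤] fun _ => (1 : ℝ) :=
  IsBigO.fun_sum fun i _ => IsBigO.fun_sum fun l _ => IsBigO.fun_sum fun k _ =>
    IsBigO.fun_sum fun j _ => (o_mul ((π.isBigO_comp _ _).trans (bd_mo (pm hs i l) n))
      ((π.isBigO_comp _ _).trans (bd_mo (pm hs k j) n))).const_mul_left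
        ((dot (lk L i j) (lk L k l) : ℝ) * bw b n ((pm hs i l).sum + (pm hs k j).sum))

/-- weighted square of a coefficient of the square root of the derivative -/
noncomputable def GG (b : ℝ) (d : Dt M) (n : ℕ) : ℝ := d.ρ ^ (2 * n) * (bw b n 0 * ‖coeff n d.φ‖ ^ 2)

theorem bw_anti (hb : 0 < b) : Antitone fun n => bw b n 0 := antitone_nat_of_succ_le fun n => by
  have := po_pos (show 0 < b + 1 by positivity) n
  simp only [bw, po, add_zero, mul_one, Nat.factorial_succ]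
  rw [div_le_div_iff₀ (by positivity) this]
  push_cast
  nlinarith [mul_pos (mul_pos (show (0 : ℝ) < n.factorial by positivity) this) hb]

theorem GG_nonneg (hb : 0 < b) (d : Dt M) (n : ℕ) : 0 ≤ GG b d n :=
  mul_nonneg (by rw [pow_mul]; positivity) (mul_nonneg (bw_pos hb n 0).le (sq_nonneg _))

theorem GG_sum (hb : 0 < b) (d : Dt M) : Summable (GG b d) := by
  have h := d.J.cφ d.ρ (by linarith [d.h0]) d.h1
  have h2 := h.tendsto_atTop_zero.isBigO_one ℝ
  refine summable_of_isBigO_nat h (IsBigO.trans (g := fun n => (‖coeff n d.φ‖ * d.ρ ^ n) *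
    (‖coeff n d.φ‖ * d.ρ ^ n)) (IsBigO.of_bound (bw b 0 0) (Eventually.of_forall fun n => ?_))
    ((h2.mul (isBigO_refl _ _)).congr_right fun _ => one_mul _))
  rw [Real.norm_of_nonneg (GG_nonneg hb d n), Real.norm_of_nonneg (mul_self_nonneg _), GG]
  have := mul_le_mul_of_nonneg_right (bw_anti hb n.zero_le) (mul_self_nonneg (‖coeff n d.φ‖ * d.ρ ^ n))
  refine le_of_eq_of_le (by ring) this

theorem GG_eq (hb : 0 < b) (d : Dt M) (n : ℕ) : GG b d n = d.ρ ^ (2 * n) *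
    (bw b n 0 * (alg hb d.T d.J Complex.reCLM).g [] n ^ 2 +
      bw b n 0 * (alg hb d.T d.J Complex.imCLM).g [] n ^ 2) := by
  simp [GG, alg, mo, Complex.sq_norm, Complex.normSq_apply]; left; ring

/-- positive part of the energy -/
noncomputable def EP (hb : 0 < b) (d : Dt M) (n : ℕ) : ℝ := d.ρ ^ (2 * n) *
  (bw b n 0 * ∑ N ∈ range n, kk b (N + 1) * (alg hb d.T d.J Complex.reCLM).c n (N + 1) ^ 2 +
    bw b n 0 * ∑ N ∈ range n, kk b (N + 1) * (alg hb d.T d.J Complex.imCLM).c n (N + 1) ^ 2)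

theorem EP_nonneg (hb : 0 < b) (d : Dt M) (n : ℕ) : 0 ≤ EP hb d n := by
  have := bw_pos hb n 0
  have := kk_pos hb
  have : 0 < d.ρ := by linarith [d.h0]
  unfold EP
  exact mul_nonneg (by positivity) (add_nonneg
    (mul_nonneg (by positivity) (sum_nonneg fun N _ => mul_nonneg (kk_pos hb N).le (sq_nonneg _)))
    (mul_nonneg (by positivity) (sum_nonneg fun N _ => mul_nonneg (kk_pos hb N).le (sq_nonneg _))))

theorem EP_le (hb : 0 < b) (d : Dt M) (m : ℕ) : ∑ n ∈ range m, EP hb d n ≤ ∑' n, GG b d n := by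
  obtain ⟨κ, k0, hκ⟩ := (Wz.main b hb).1
  have r0 : 0 < d.ρ := by linarith [d.h0]
  have t1 := (hκ 0).neg.mul_const (∑' n, GG b d n)
  have t2 := tendsto_finsetSum (range m) fun n _ => (((tendsto_finsetSum (range n) fun N _ =>
    (hκ (N + 1)).mul_const ((alg hb d.T d.J Complex.reCLM).c n (N + 1) ^ 2)).const_mul
      (bw b n 0)).add ((tendsto_finsetSum (range n) fun N _ =>
    (hκ (N + 1)).mul_const ((alg hb d.T d.J Complex.imCLM).c n (N + 1) ^ 2)).const_mul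
      (bw b n 0))).const_mul (d.ρ ^ (2 * n))
  have h := le_of_tendsto_of_tendsto' t2 t1 fun L => by
    obtain ⟨s, s0, hs⟩ := Pra.main d.f d.hf d.hi d.W d.T b d.ρ hb r0 d.h1 L
    have h1 := (hs.mul_left 4).sub ((GG_sum hb d).hasSum.mul_left
      (∑ l ∈ range (L + 1), jj b l 0 / (l - 1 / 2)))
    have h2 := fun n => mul_le_mul_of_nonneg_left (add_le_add
      (pw_ge hb (alg_nw hb d.T d.J Complex.reCLM n) L)
      (pw_ge hb (alg_nw hb d.T d.J Complex.imCLM n) L)) (pow_pos r0 (2 * n)).le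
    have h3 : ∀ n, _ ≤ _ := fun n => (h2 n).trans (le_of_eq (show _ = 4 * (d.ρ ^ (2 * n) *
        (PW b L n (fun k => (d.W n k).re) + PW b L n (fun k => (d.W n k).im))) -
        (∑ l ∈ range (L + 1), jj b l 0 / (l - 1 / 2)) * GG b d n by
      rw [GG_eq hb, Alg.c0 hb, Alg.c0 hb]; simp only [Complex.reCLM_apply, Complex.imCLM_apply]; ring))
    refine (sum_le_sum fun n _ => h3 n).trans ((sum_le_hasSum _ (fun n _ => le_trans ?_ (h3 n))
      h1).trans (by linarith))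
    have := bw_pos hb n 0
    exact mul_nonneg (by positivity) (add_nonneg
      (mul_nonneg this.le (sum_nonneg fun N _ => mul_nonneg (SS_nonneg hb L N) (sq_nonneg _)))
      (mul_nonneg this.le (sum_nonneg fun N _ => mul_nonneg (SS_nonneg hb L N) (sq_nonneg _))))
  refine le_of_mul_le_mul_left (le_of_eq_of_le ?_ (h.trans (le_of_eq (by simp [kk])))) k0
  simp only [EP, mul_sum, mul_add, sum_add_distrib]
  congr 1 <;> exact sum_congr rfl fun n _ => sum_congr rfl fun N _ => by ring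

theorem total (hb : 1 / 4 < b) (M : ℝ) {Γ Λ C : ℝ} (hΓ : 0 ≤ Γ) (hΛ : 0 ≤ Λ) (hC : 0 ≤ C)
    {L : List (List (List ℤ))} {hs : List (List ℕ)} {m : ℕ}
    (hL : ∀ i < hs.length, ∀ j < hs.length, (lk L i j).length ≤ m)
    (hK : ∀ᶠ p in FF b, bw b p.2 0 * p.1.g [] p.2 ^ 2 / 3 ≤
      Γ * (bw b p.2 0 * ∑ N ∈ range (p.2 + 1), kk b N * p.1.c p.2 N ^ 2) - Λ * tw L hs p +
        C * (bw b p.2 1 * er p ^ 2)) :
    ∃ K : ℝ, ∀ (d : Dt M) (n : ℕ), ∑ j ∈ range n, GG b d j ≤ K := by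
  have h0 : 0 < b := by linarith
  obtain ⟨n0, hn0⟩ := eventually_atTop.1 (eventually_comap.1 hK)
  obtain ⟨CE, hE⟩ := Err.main b M hb
  set TT : Dt M → ℕ → ℝ := fun d n => d.ρ ^ (2 * n) * (tw L hs (alg h0 d.T d.J Complex.reCLM, n) +
    tw L hs (alg h0 d.T d.J Complex.imCLM, n)) with hTT
  have o1 : (fun d : Dt M => (1 + 3 * Γ) * ∑ n ∈ range n0, GG b d n +
      3 * Λ * ∑ n ∈ range n0, TT d n) =O[⊤] fun _ => (1 : ℝ) :=
    ((IsBigO.fun_sum fun n _ => o_mul (o_rho _) (((bd_phi n).norm_left.pow 2).congr_right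
      (fun _ => one_pow 2) |>.const_mul_left _)).const_mul_left _).add
    ((IsBigO.fun_sum fun n _ => o_mul (o_rho _)
      ((o_tw h0 _ L hs n).add (o_tw h0 _ L hs n))).const_mul_left _)
  obtain ⟨K, hK⟩ := o1.bound
  refine ⟨K + 3 * (C * CE), fun d n => ((GG_sum h0 d).sum_le_tsum _
    fun j _ => GG_nonneg h0 d j).trans ?_⟩
  have r0 : 0 < d.ρ := by linarith [d.h0]
  have k1 := (le_abs_self _).trans (eventually_top.1 hK d)
  rw [norm_one, mul_one] at k1
  obtain ⟨s, s0, hs'⟩ := tw_sum h0 r0 d.h1 d.T d.J hL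
  have tG := (GG_sum h0 d).hasSum.tendsto_sum_nat
  set ER : ℕ → ℝ := fun n => d.ρ ^ (2 * n) * bw b n 1 *
    ‖∑ k ∈ range (n + 1), d.W n k * ((po b k / po (b + 1 / 2) k : ℝ) : ℂ)‖ ^ 2 with hER
  have p1 : ∀ n, n0 ≤ n → GG b d n / 3 ≤ Γ * (EP h0 d n - GG b d n) - Λ * TT d n + C * ER n := by
    intro n hn
    have e : ∀ π : ℂ →L[ℝ] ℝ, er (alg h0 d.T d.J π, n) =
        π (∑ k ∈ range (n + 1), d.W n k * ((po b k / po (b + 1 / 2) k : ℝ) : ℂ)) := fun π => by
      rw [map_sum]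
      exact sum_congr rfl fun k _ => by rw [mul_comm, mul_comm (d.W n k), pi_mul]; rfl
    have a := mul_le_mul_of_nonneg_left (add_le_add (hn0 n hn (alg h0 d.T d.J Complex.reCLM, n) rfl)
      (hn0 n hn (alg h0 d.T d.J Complex.imCLM, n) rfl)) (pow_pos r0 (2 * n)).le
    simp only [e, sum_range_succ' (n := n) (fun N => kk b N * _), Alg.c0 h0] at a
    simp only [hER, hTT, EP, GG_eq h0, Complex.sq_norm, Complex.normSq_apply]
    simp only [show kk b 0 = -1 by simp [kk], Complex.reCLM_apply, Complex.imCLM_apply] at a ⊢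
    linarith
  have p2 : ∀ n, n0 ≤ n → (∑ j ∈ range n, GG b d j - ∑ j ∈ range n0, GG b d j) / 3 ≤
      Γ * (∑' j, GG b d j - (∑ j ∈ range n, GG b d j - ∑ j ∈ range n0, GG b d j)) -
        Λ * (∑ j ∈ range n, TT d j - ∑ j ∈ range n0, TT d j) + C * CE := fun n hn => by
    have a := sum_le_sum fun j (hj : j ∈ Ico n0 n) => p1 j (mem_Ico.1 hj).1
    rw [sum_add_distrib, sum_sub_distrib, ← mul_sum, ← mul_sum, ← mul_sum, ← sum_div,
      sum_sub_distrib, sum_Ico_eq_sub (GG b d) hn, sum_Ico_eq_sub (TT d) hn] at a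
    have sub : Ico n0 n ⊆ range n := fun j hj => mem_range.2 (mem_Ico.1 hj).2
    have a1 := (sum_le_sum_of_subset_of_nonneg sub fun j _ _ => EP_nonneg h0 d j).trans
      (EP_le h0 d n)
    have a2 : ∑ j ∈ Ico n0 n, ER j ≤ CE := (sum_le_sum_of_subset_of_nonneg sub fun j _ _ => by
      have := bw_pos h0 j 1
      positivity).trans (hE d.f d.hf d.hi d.f0 d.f1 d.hM d.W d.T d.ρ d.h0 d.h1 n)
    nlinarith [mul_le_mul_of_nonneg_left a1 hΓ, mul_le_mul_of_nonneg_left a2 hC]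
  have p3 := le_of_tendsto_of_tendsto ((tG.sub_const _).div_const 3)
    (((((tG.sub_const _).const_sub _).const_mul Γ).sub
      ((hs'.tendsto_sum_nat.sub_const _).const_mul Λ)).add_const _) (eventually_atTop.2 ⟨n0, p2⟩)
  nlinarith [mul_nonneg hΛ s0]

theorem bw_ge (hb : 0 < b) (h1 : b ≤ 1) : ∀ m : ℕ, 1 ≤ 2 * ((m + 1 : ℕ) : ℝ) ^ b * bw b (m + 1) 0
  | 0 => by simp [bw, po]; rw [← div_eq_mul_inv, le_div_iff₀ (by positivity)]; linarith
  | m + 1 => by
    refine (bw_ge hb h1 m).trans ?_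
    have p := po_pos (show 0 < b + 1 by positivity) (m + 1)
    have e : bw b (m + 1 + 1) 0 = bw b (m + 1) 0 * ((m + 2) / (b + m + 2)) := by
      simp only [bw, add_zero, po, mul_one, Nat.factorial_succ (m + 1)]
      push_cast; field_simp; ring
    have x0 : (0 : ℝ) < m + 2 := by positivity
    have a := rpow_one_add_le_one_add_mul_self (s := -(1 / (m + 2 : ℝ)))
      (by rw [neg_le_neg_iff, div_le_one x0]; linarith [m.cast_nonneg (α := ℝ)]) hb.le h1
    rw [show 1 + -(1 / (m + 2 : ℝ)) = (m + 1) / (m + 2) by field_simp; ring,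
      Real.div_rpow (by positivity) x0.le, div_le_iff₀ (by positivity)] at a
    have a2 : 1 + b * -(1 / (m + 2 : ℝ)) ≤ (m + 2) / (b + m + 2) := by
      rw [le_div_iff₀ (by positivity)]
      have : (1 + b * -(1 / (m + 2 : ℝ))) * (b + m + 2) = m + 2 - b ^ 2 / (m + 2) := by
        field_simp; ring
      rw [this]; exact sub_le_self _ (by positivity)
    have a3 := a.trans (mul_le_mul_of_nonneg_right a2 (by positivity))
    have a4 := mul_le_mul_of_nonneg_right a3 (bw_pos hb (m + 1) 0).le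
    rw [e]; push_cast
    rw [show (m : ℝ) + 1 + 1 = m + 2 by ring]
    linarith

theorem coef (hb : 0 < b) (h1 : b ≤ 1) {K : ℝ}
    (hK : ∀ (d : Dt M) (n : ℕ), ∑ j ∈ range n, GG b d j ≤ K) {f : ℂ → ℂ}
    (hf : DifferentiableOn ℂ f (ball 0 1)) (hi : Set.InjOn f (ball 0 1)) (f0 : f 0 = 0)
    (f1 : deriv f 0 = 1) (hM : ∀ z ∈ ball (0 : ℂ) 1, ‖f z‖ < M) (m : ℕ) :
    ‖iteratedDeriv (m + 1) f 0 / ((m + 1).factorial : ℂ)‖ ≤ 2 * K * ((m + 1 : ℕ) : ℝ) ^ (b - 1) := by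
  obtain ⟨W, φ, y, r, T, J⟩ := Ser.main f hf hi f1
  have a1 : ∑ j ∈ range (m + 1), bw b j 0 * ‖coeff j φ‖ ^ 2 ≤ K := by
    have hc : Continuous fun ρ : ℝ => ∑ j ∈ range (m + 1), ρ ^ (2 * j) * (bw b j 0 * ‖coeff j φ‖ ^ 2) := by
      fun_prop
    have := (hc.tendsto 1).mono_left (nhdsWithin_le_nhds (s := Set.Iio 1))
    simp only [one_pow, one_mul] at this
    refine le_of_tendsto this ?_
    filter_upwards [Ioo_mem_nhdsLT (show (1 / 2 : ℝ) < 1 by norm_num)] with ρ hρ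
    exact hK ⟨f, W, φ, y, r, ρ, hf, hi, f0, f1, hM, T, J, hρ.1.le, hρ.2⟩ _
  have a2 : ((m + 1 : ℕ) : ℝ) * ‖iteratedDeriv (m + 1) f 0 / ((m + 1).factorial : ℂ)‖ ≤
      ∑ j ∈ range (m + 1), ‖coeff j φ‖ ^ 2 := by
    have e := congrArg (fun G => ‖coeff m G‖) J.φ2
    simp only [YY, coeff_mk, zero_add, Nat.descFactorial_one, norm_mul, Complex.norm_natCast] at e
    rw [← e, sq, coeff_mul, Nat.sum_antidiagonal_eq_sum_range_succ_mk]
    have e2 := sum_range_reflect (fun j => ‖coeff j φ‖ ^ 2) (m + 1)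
    have e3 : ∑ j ∈ range (m + 1), ‖coeff j φ * coeff (m - j) φ‖ ≤ ∑ j ∈ range (m + 1),
        (‖coeff j φ‖ ^ 2 + ‖coeff (m - j) φ‖ ^ 2) / 2 := sum_le_sum fun j _ => by
      rw [norm_mul]; nlinarith [sq_nonneg (‖coeff j φ‖ - ‖coeff (m - j) φ‖)]
    rw [← sum_div, sum_add_distrib] at e3
    simp only [add_tsub_cancel_right] at e2
    exact (norm_sum_le _ _).trans (by linarith)
  have a3 : bw b (m + 1) 0 * ∑ j ∈ range (m + 1), ‖coeff j φ‖ ^ 2 ≤ K := by
    rw [mul_sum]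
    exact (sum_le_sum fun j hj => mul_le_mul_of_nonneg_right (bw_anti hb (mem_range.1 hj).le)
      (sq_nonneg _)).trans a1
  have a4 := mul_le_mul_of_nonneg_right (bw_ge hb h1 m)
    (sum_nonneg fun j (_ : j ∈ range (m + 1)) => sq_nonneg ‖coeff j φ‖)
  have a5 := mul_le_mul_of_nonneg_left a3 (show 0 ≤ 2 * ((m + 1 : ℕ) : ℝ) ^ b by positivity)
  rw [Real.rpow_sub_one (by positivity), ← mul_div_assoc, le_div_iff₀ (by positivity)]
  linarith

end Pool.Agent.MP_6e64bc_an.H72
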