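import Pool.Agent.MP_6e64bc_an.H72.Rows

open Finset Filter Topology

namespace Pool.Agent.MP_6e64bc_an.H72

theorem po_cast (a : ℚ) : ∀ n, ((po a n : ℚ) : ℝ) = po (a : ℝ) n
  | 0 => by simp [po]
  | n + 1 => by simp [po, po_cast a n]

theorem ps_cast (b a e : ℚ) (n : ℕ) : ((ps b a e n : ℚ) : ℝ) = ps (b : ℝ) a e n := by
  simp [ps, po_cast]

theorem en_cast (b : ℚ) (D : ℕ) (v : Var) : ((en b D v : ℚ) : ℝ) = en (b : ℝ) D v := by
  cases v with
  | mon l => simp [en]
  | cc N => simp only [en, kk]; split_ifs <;> simp [po_cast]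
  | tt => simp [en, KK, po_cast]

theorem po_add (a : ℝ) (m : ℕ) : ∀ n, po a (m + n) = po a m * po (a + m) n
  | 0 => by simp [po]
  | n + 1 => by rw [← add_assoc, po, po, po_add a m n]; push_cast; ring

theorem po_succ' (a : ℝ) (n : ℕ) : po a (n + 1) = a * po (a + 1) n := by
  rw [add_comm n, po_add]; simp [po]

theorem po_pos {a : ℝ} (h : 0 < a) : ∀ n, 0 < po a n
  | 0 => one_pos
  | n + 1 => mul_pos (po_pos h n) (by positivity)

theorem po_swap {a : ℝ} (h : 0 < a) (e k : ℕ) : po (a + e) k / po a k = po (a + k) e / po a e := by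
  rw [div_eq_div_iff (po_pos h _).ne' (po_pos h _).ne', mul_comm, ← po_add, mul_comm, ← po_add,
    add_comm]

theorem po_neg {e N : ℕ} (h : e < N) : po (-(e : ℝ)) N = 0 := by
  obtain ⟨k, rfl⟩ := Nat.exists_eq_add_of_lt h
  rw [add_right_comm, po_add]; simp [po]

theorem po_vdm (x y : ℝ) : ∀ e : ℕ, po (x + y) e =
    ∑ a ∈ antidiagonal e, (e.choose a.1 : ℝ) * (po x a.1 * po y a.2)
  | 0 => by simp [po]
  | e + 1 => by
    rw [sum_antidiagonal_choose_succ_mul fun i j => po x i * po y j, po, po_vdm x y e, sum_mul,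
      ← sum_add_distrib]
    refine sum_congr rfl fun a ha => ?_
    have h := mem_antidiagonal.1 ha
    rw [← Nat.choose_symm_of_eq_add h.symm, po, po, ← h]; push_cast; ring

theorem po_desc (k : ℕ) : ∀ e : ℕ, po (1 - (e : ℝ) + k) e = e.factorial * k.choose e
  | 0 => by simp [po]
  | e + 1 => by
    rw [po_succ', show (1 : ℝ) - (e + 1 : ℕ) + k + 1 = 1 - e + k by push_cast; ring, po_desc k e]
    rcases lt_or_ge k e with h | h
    · simp [Nat.choose_eq_zero_of_lt h, Nat.choose_eq_zero_of_lt (h.trans e.lt_succ_self)]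
    · have := congrArg (Nat.cast : ℕ → ℝ) (Nat.choose_succ_right_eq k e)
      push_cast [Nat.cast_sub h, Nat.factorial_succ] at this ⊢
      linear_combination -(e.factorial : ℝ) * this

theorem po_lim (a : ℝ) : ∀ e : ℕ, Tendsto (fun n : ℕ => po (a + n) e / (n : ℝ) ^ e) atTop (𝓝 1)
  | 0 => by simp [po]
  | e + 1 => by
    have h := (po_lim a e).mul
      ((tendsto_const_div_atTop_nhds_zero_nat (a + e)).add_const 1)
    rw [zero_add, mul_one] at h
    refine h.congr' ((eventually_gt_atTop 0).mono fun n hn => ?_)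
    have : (n : ℝ) ≠ 0 := by positivity
    simp only [po]; field_simp; ring

theorem parts {n : ℕ} {W : ℕ → ℝ} (h : W (n + 1) = 0) (a : ℕ → ℝ) :
    ∑ k ∈ range (n + 1), XW W k * a k =
      ∑ k ∈ range (n + 1), W k * (a k - 2 * k * (a k - a (k - 1))) := by
  have h1 := sum_range_succ' (fun k => 2 * (k : ℝ) * W k * a (k - 1)) (n + 1)
  rw [sum_range_succ, h] at h1
  simp only [XW, add_mul, sum_add_distrib]
  simp only [Nat.cast_add, Nat.cast_one, add_tsub_cancel_right, Nat.cast_zero, mul_zero, zero_mul,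
    add_zero] at h1
  rw [← h1, ← sum_add_distrib]
  exact sum_congr rfl fun k _ => by ring

theorem parts_choose {n : ℕ} {W : ℕ → ℝ} (h : W (n + 1) = 0) (i : ℕ) :
    ∑ k ∈ range (n + 1), XW W k * k.choose i =
      (1 - 2 * i) * ∑ k ∈ range (n + 1), W k * k.choose i := by
  rw [parts h, mul_sum]
  refine sum_congr rfl fun k _ => ?_
  rcases k with _ | k
  · rcases i with _ | i <;> simp
  · rcases i with _ | i
    · simp
    · have h1 := congrArg (Nat.cast : ℕ → ℝ) (Nat.add_one_mul_choose_eq k i)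
      have h2 := congrArg (Nat.cast : ℕ → ℝ) (Nat.choose_succ_succ' k i)
      push_cast at h1 h2 ⊢
      linear_combination -2 * W (k + 1) * (h1 + (k + 1) * h2)

theorem parts_frac {n : ℕ} {W : ℕ → ℝ} (h : W (n + 1) = 0) {b : ℝ} (hb : 0 < b) :
    ∑ k ∈ range (n + 1), XW W k * (po (b + 1) k / po (b + 1 / 2) k) =
      ∑ k ∈ range (n + 1), W k * (po b k / po (b + 1 / 2) k) := by
  rw [parts h]
  refine sum_congr rfl fun k _ => ?_
  rcases k with _ | k
  · simp [po]
  · have := (po_pos (show 0 < b + 1 / 2 by positivity) k).ne'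
    have h2 : b + 1 / 2 + k ≠ 0 := by positivity
    rw [po_succ' b, po, po, add_tsub_cancel_right]
    congr 1
    push_cast; field_simp; ring

theorem ratio_le {b : ℝ} (hb : 0 < b) : ∀ n : ℕ,
    (po (b + 1) n / po (b + 3 / 2) n) ^ 2 * (b + 1 + n) ≤ b + 1
  | 0 => by simp [po]
  | n + 1 => by
    refine le_trans ?_ (ratio_le hb n)
    rw [po, po, mul_div_mul_comm, mul_pow, mul_assoc]
    gcongr
    rw [div_pow, div_mul_eq_mul_div, div_le_iff₀ (by positivity)]
    push_cast
    have : 0 < b + 1 + n := by positivity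
    nlinarith

theorem bw_pos {b : ℝ} (hb : 0 < b) (n w : ℕ) : 0 < bw b n w :=
  div_pos (mul_pos (by positivity) (po_pos hb _)) (po_pos (by positivity) _)

theorem bw_eq {b : ℝ} (hb : 0 < b) (n w : ℕ) :
    bw b n w = bw b n 0 * (po b w / po (b + 1 + n) w) := by
  have := (po_pos (show 0 < b + 1 by positivity) n).ne'
  simp only [bw, po_add, po]; field_simp

theorem sum_ins (k : ℕ) : ∀ l, (ins k l).sum = k + l.sum
  | [] => by simp [ins]
  | a :: l => by rw [ins]; split_ifs <;> simp [sum_ins k l]; omega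

theorem sum_nf : ∀ l, (nf l).sum = l.sum
  | [] => rfl
  | a :: l => by simp [nf, sum_ins, sum_nf l]

theorem sum_dl : ∀ l, ∀ m ∈ dl l, m.sum = l.sum + 1
  | [], _, h => by simp [dl] at h
  | a :: l, m, h => by
    simp only [dl, List.mem_cons, List.mem_map] at h
    rcases h with rfl | ⟨m, hm, rfl⟩
    · simp; omega
    · simp [sum_dl l m hm]; omega

end Pool.Agent.MP_6e64bc_an.H72
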