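import Pool.Agent.MP_6e64bc_an.H72.Spec

open MeasureTheory Complex Filter Topology Metric Finset
open scoped ComplexConjugate Real

namespace Pool.Agent.MP_6e64bc_an.H72.Pra

open H80

theorem fc_sum {a : ℕ → ℂ} (ha : Summable fun l => ‖a l‖) (m : ℕ → ℤ) {g : ℝ → ℂ}
    (hg : ∀ x, HasSum (fun l => a l * ee (m l * x)) (g x)) (n : ℤ) :
    HasSum (fun l => if m l = n then a l else 0) (fc g n) := by
  have := hasSum_int (F := fun l x => a l * ee (m l * x) * ee (-(n * x)))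
    (G := fun x => g x * ee (-(n * x))) (fun k => by fun_prop) ha (b := fun _ => 1)
    continuous_const (fun k x => by simp) (fun x => (hg x).mul_right _)
  refine HasSum.congr_fun this fun l => ?_
  have e : ∀ x : ℝ, a l * ee (m l * x) * ee (-(n * x)) = a l * ee (((m l - n : ℤ) : ℝ) * x) := by
    intro x
    rw [mul_assoc, ← ee_add]
    congr 2
    push_cast
    ring
  simp only [e, integral_const_mul]
  split_ifs with h
  · simp [h]
  · rw [int_ee (sub_ne_zero.2 h), mul_zero]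

theorem fc_at {a : ℕ → ℂ} (ha : Summable fun l => ‖a l‖) {m : ℕ → ℤ} (hm : Function.Injective m)
    {g : ℝ → ℂ} (hg : ∀ x, HasSum (fun l => a l * ee (m l * x)) (g x)) (l : ℕ) :
    fc g (m l) = a l := by
  have h := fc_sum ha m hg (m l)
  have h2 := hasSum_single (f := fun l' => if m l' = m l then a l' else 0) l
    (fun l' hl => if_neg fun e => hl (hm e))
  simpa using h.unique h2

theorem fc_off {a : ℕ → ℂ} (ha : Summable fun l => ‖a l‖) {m : ℕ → ℤ}
    {g : ℝ → ℂ} (hg : ∀ x, HasSum (fun l => a l * ee (m l * x)) (g x)) {n : ℤ}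
    (hn : ∀ l, m l ≠ n) : fc g n = 0 := by
  have h := fc_sum ha m hg n
  simp only [hn, if_false] at h
  exact h.unique hasSum_zero

theorem cont_sum {a : ℕ → ℂ} (ha : Summable fun l => ‖a l‖)
    {g : ℝ → ℂ} (hg : ∀ x, HasSum (fun l => a l * ee x ^ l) (g x)) : Continuous g := by
  have : g = fun x => ∑' l, a l * ee x ^ l := funext fun x => (hg x).tsum_eq.symm
  rw [this]
  exact continuous_tsum (fun l => by fun_prop) ha (fun l x => by simp)

theorem pars_nat {a : ℕ → ℂ} (ha : Summable fun l => ‖a l‖)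
    {g : ℝ → ℂ} (hg : ∀ x, HasSum (fun l => a l * ee x ^ l) (g x)) :
    HasSum (fun l => ‖a l‖ ^ 2) (∫ x, ‖g x‖ ^ 2 ∂mu) := by
  have hg' : ∀ x, HasSum (fun l : ℕ => a l * ee (((l : ℤ) : ℝ) * x)) (g x) := fun x => by
    simpa only [ee_pow, Int.cast_natCast] using hg x
  have h := (Function.Injective.hasSum_iff (g := fun l : ℕ => (l : ℤ)) Nat.cast_injective
    (f := fun n => ‖fc g n‖ ^ 2) (a := ∫ x, ‖g x‖ ^ 2 ∂mu) (fun n hn => by
      rw [fc_off ha hg' fun l e => hn ⟨l, e⟩]; simp)).2 (pars (cont_sum ha hg))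
  refine HasSum.congr_fun h fun l => ?_
  simp only [Function.comp]
  rw [fc_at ha (m := fun l : ℕ => (l : ℤ)) Nat.cast_injective hg' l]

theorem taylor {B : ℂ → ℂ} (hB : DifferentiableOn ℂ B (ball 0 1)) :
    ∃ a : ℕ → ℂ, ∀ η ∈ ball (0 : ℂ) 1, HasSum (fun l => a l * η ^ l) (B η) := by
  refine ⟨fun l => (l.factorial : ℂ)⁻¹ * iteratedDeriv l B 0, fun η hη => ?_⟩
  refine HasSum.congr_fun (Complex.hasSum_taylorSeries_on_ball hB hη) fun l => ?_
  simp only [smul_eq_mul, sub_zero]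
  ring

theorem sq_mem {ζ : ℂ} (h : ζ ∈ ball (0 : ℂ) 1) : ζ ^ 2 ∈ ball (0 : ℂ) 1 := by
  rw [mem_ball_zero_iff] at h ⊢
  rw [norm_pow]
  exact pow_lt_one₀ (norm_nonneg _) h two_ne_zero

theorem prawitz_t {B : ℂ → ℂ} (hB : DifferentiableOn ℂ B (ball 0 1))
    (h0 : ∀ η ∈ ball (0 : ℂ) 1, B η ≠ 0)
    (hi : Set.InjOn (fun ζ => ζ / B (ζ ^ 2)) (ball 0 1)) {a : ℕ → ℂ}
    (ha : ∀ η ∈ ball (0 : ℂ) 1, HasSum (fun l => a l * η ^ l) (B η)) (L : ℕ) {t : ℝ}
    (t0 : 0 < t) (t1 : t < 1) :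
    ∑ l ∈ range (L + 1), ((l : ℝ) - 1 / 2) * (‖a l‖ ^ 2 * t ^ (4 * l)) ≤ 0 := by
  set G : ℂ → ℂ := fun ζ => ζ / B (ζ ^ 2) with hGd
  have hG : DifferentiableOn ℂ G (ball 0 1) :=
    differentiableOn_id.div (hB.comp (differentiableOn_id.pow 2) fun ζ h => sq_mem h)
      fun ζ h => h0 _ (sq_mem h)
  have hm : ∀ α, (t * ee α : ℂ) ∈ ball (0 : ℂ) 1 := w_mem t0.le t1
  have tc : (t : ℂ) ≠ 0 := by exact_mod_cast t0.ne'
  have hne : ∀ α, G (t * ee α) ≠ 0 := fun α =>
    div_ne_zero (mul_ne_zero tc (ee_ne α)) (h0 _ (sq_mem (hm α)))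
  have hA := area_principle hG hi le_rfl t0 t1 (h := fun w => w⁻¹)
    (differentiableOn_inv.mono fun w hw => by
      intro e
      apply hw
      exact ⟨0, by simp, by simp [hGd, show w = 0 from e]⟩)
    (fun ε hε => ⟨ε⁻¹, fun w hw => by
      rw [norm_inv]
      exact inv_le_of_inv_le₀ hε hw⟩)
  have hcG : Continuous fun α => G (t * ee α) :=
    hG.continuousOn.comp_continuous (by fun_prop) hm
  have hcD : Continuous fun α => deriv G (t * ee α) :=
    (hG.deriv isOpen_ball).continuousOn.comp_continuous (by fun_prop) hm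
  have hP := pars_omega (g := fun α => (G (t * ee α))⁻¹)
    (g' := fun α => deriv (fun w : ℂ => w⁻¹) (G (t * ee α)) * (deriv G (t * ee α) * ee α * t * I))
    (fun α => by
      have h1 : HasDerivAt (fun α : ℝ => (t * ee α : ℂ)) (t * (ee α * I)) α :=
        (hasDerivAt_ee α).const_mul _
      have h2 := (hG.differentiableAt (isOpen_ball.mem_nhds (hm α))).hasDerivAt
      have h3 := ((differentiableAt_inv (hne α)).hasDerivAt.comp _ h2).comp_of_eq α h1 rfl
      refine h3.congr_deriv ?_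
      ring)
    (by
      simp only [deriv_inv]
      exact (((hcG.pow 2).inv₀ fun α => pow_ne_zero 2 (hne α)).neg).mul
        (((hcD.mul cont_ee).mul continuous_const).mul continuous_const))
    (by
      have := ee_two_pi (-π)
      rw [show -π + 2 * π = π by ring] at this
      simp only [this])
  have hle : (∫ x, conj ((G (t * ee x))⁻¹) * (deriv (fun w : ℂ => w⁻¹) (G (t * ee x)) *
      (deriv G (t * ee x) * ee x * t * I)) ∂mu).im ≤ 0 := by
    rw [mu_int, real_smul, im_ofReal_mul]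
    exact mul_nonpos_of_nonneg_of_nonpos (by positivity) hA
  have t2 : ((t : ℂ) ^ 2) ∈ ball (0 : ℂ) 1 := sq_mem (by simpa [abs_of_pos t0] using t1)
  have hs : Summable fun l => ‖a l * ((t : ℂ) ^ 2) ^ l / t‖ :=
    summable_norm_iff.2 ((ha _ t2).summable.div_const _)
  have hg : ∀ x : ℝ, HasSum (fun l : ℕ => a l * ((t : ℂ) ^ 2) ^ l / t *
      ee (((2 * (l : ℤ) - 1 : ℤ) : ℝ) * x)) ((G (t * ee x))⁻¹) := fun x => by
    have h := (ha _ (sq_mem (hm x))).div_const (t * ee x)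
    simp only [hGd, inv_div]
    refine HasSum.congr_fun h fun l => ?_
    have e : ee (((2 * (l : ℤ) - 1 : ℤ) : ℝ) * x) * ee x = (ee x ^ 2) ^ l := by
      rw [← ee_add, ← pow_mul, ee_pow]
      congr 1
      push_cast
      ring
    have := ee_ne x
    rw [mul_pow, mul_pow, ← e]
    field_simp
  have hinj : Function.Injective fun l : ℕ => (2 * (l : ℤ) - 1 : ℤ) := fun l l' h => by
    simp only at h
    omega
  have h5 := sum_le_hasSum ((range (L + 1)).image fun l : ℕ => (2 * (l : ℤ) - 1 : ℤ))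
    (fun n hn => by
      rcases le_or_gt 0 n with h | h
      · positivity
      · rw [fc_off hs hg fun l e => ?_]
        · simp
        · apply hn
          have : l = 0 := by omega
          exact mem_image.2 ⟨l, by simp [this], e⟩) hP
  rw [sum_image fun l _ l' _ h => hinj h] at h5
  have h6 : ∀ l : ℕ, ((2 * (l : ℤ) - 1 : ℤ) : ℝ) *
      ‖fc (fun α => (G (t * ee α))⁻¹) (2 * (l : ℤ) - 1)‖ ^ 2 =
      2 / t ^ 2 * (((l : ℝ) - 1 / 2) * (‖a l‖ ^ 2 * t ^ (4 * l))) := fun l => by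
    rw [fc_at hs hinj hg l]
    simp only [norm_div, norm_mul, norm_pow, Complex.norm_real, Real.norm_eq_abs, abs_of_pos t0]
    push_cast
    field_simp
    ring
  simp only [h6, ← mul_sum] at h5
  exact nonpos_of_mul_nonpos_right (h5.trans hle) (by positivity)

theorem prawitz {B : ℂ → ℂ} (hB : DifferentiableOn ℂ B (ball 0 1))
    (h0 : ∀ η ∈ ball (0 : ℂ) 1, B η ≠ 0)
    (hi : Set.InjOn (fun ζ => ζ / B (ζ ^ 2)) (ball 0 1)) {a : ℕ → ℂ}
    (ha : ∀ η ∈ ball (0 : ℂ) 1, HasSum (fun l => a l * η ^ l) (B η)) (L : ℕ) :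
    ∑ l ∈ range (L + 1), ((l : ℝ) - 1 / 2) * ‖a l‖ ^ 2 ≤ 0 := by
  have hc : Continuous fun t : ℝ =>
      ∑ l ∈ range (L + 1), ((l : ℝ) - 1 / 2) * (‖a l‖ ^ 2 * t ^ (4 * l)) := by fun_prop
  have h := le_of_tendsto ((hc.tendsto 1).mono_left (nhdsWithin_le_nhds (s := Set.Iio 1)))
    (b := 0) (by
      filter_upwards [Ioo_mem_nhdsLT (zero_lt_one' ℝ)] with t ht
      exact prawitz_t hB h0 hi ha L ht.1 ht.2)
  simpa using h

end Pool.Agent.MP_6e64bc_an.H72.Pra
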