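import Pool.Agent.MP_6e64bc_an.H72.Pra1

open MeasureTheory Complex Filter Topology Metric Finset
open scoped ComplexConjugate Real

namespace Pool.Agent.MP_6e64bc_an.H72.Pra

open H80

theorem desc_eq (a : ℝ) (m : ℕ) :
    (descPochhammer ℤ m).smeval (-a) = (-1) ^ m * po a m := by
  induction m with
  | zero => simp [po]
  | succ m ih =>
    rw [descPochhammer_succ_right, Polynomial.smeval_mul, ih, Polynomial.smeval_sub,
      Polynomial.smeval_X, Polynomial.smeval_natCast, po]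
    simp
    ring

theorem binom (a : ℝ) {x : ℂ} (hx : ‖x‖ < 1) :
    HasSum (fun m => (gch a m : ℂ) * x ^ m) ((1 + x) ^ ((-a : ℝ) : ℂ)) := by
  have h := (Complex.one_add_cpow_hasFPowerSeriesOnBall_zero (a := ((-a : ℝ) : ℂ))).hasSum
    (y := x) (by simpa [edist_zero_right, enorm_eq_nnnorm] using show ‖x‖₊ < 1 from hx)
  rw [zero_add] at h
  refine HasSum.congr_fun h fun m => ?_
  rw [binomialSeries, FormalMultilinearSeries.ofScalars_apply_eq, ← Complex.ofReal_choose,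
    Ring.choose_eq_smul, desc_eq, gch]
  simp only [smul_eq_mul]
  push_cast
  ring

/-- complex form of `xw` -/
noncomputable def xc (l n : ℕ) (W : ℕ → ℂ) (i : ℕ) : ℂ :=
  ∑ k ∈ range (n + 1), W k * k.choose i * (gch (k - 1 / 2) (l - i) : ℝ)

theorem xc_re (l n : ℕ) (W : ℕ → ℂ) (i : ℕ) :
    (xc l n W i).re = xw l n (fun k => (W k).re) i := by
  simp [xc, xw]

theorem xc_im (l n : ℕ) (W : ℕ → ℂ) (i : ℕ) :
    (xc l n W i).im = xw l n (fun k => (W k).im) i := by
  simp [xc, xw]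

/-- disc automorphism -/
noncomputable def sg (z η : ℂ) : ℂ := (z + η) / (1 + conj z * η)

/-- homogeneous term -/
noncomputable def tm (n : ℕ) (W : ℕ → ℂ) (z η : ℂ) : ℂ :=
  (∑ k ∈ range (n + 1), W k * z ^ (n - k) * sg z η ^ k) * (1 + conj z * η) ^ (1 / 2 : ℂ)

/-- its Taylor coefficient -/
noncomputable def cf (n : ℕ) (W : ℕ → ℂ) (z : ℂ) (l : ℕ) : ℂ :=
  ∑ i ∈ range (min n l + 1), xc l n W i * z ^ (n - i) * conj z ^ (l - i)

variable {z η : ℂ}

theorem zη (hz : ‖z‖ < 1) (hη : ‖η‖ < 1) : ‖conj z * η‖ < 1 := by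
  rw [norm_mul, RCLike.norm_conj]
  exact mul_lt_one_of_nonneg_of_lt_one_left (norm_nonneg _) hz hη.le

theorem slit (hz : ‖z‖ < 1) (hη : ‖η‖ < 1) : 1 + conj z * η ∈ slitPlane :=
  mem_slitPlane_of_norm_lt_one (zη hz hη)

theorem den_ne (hz : ‖z‖ < 1) (hη : ‖η‖ < 1) : 1 + conj z * η ≠ 0 :=
  slitPlane_ne_zero (slit hz hη)

theorem sg_lt (hz : ‖z‖ < 1) (hη : ‖η‖ < 1) : ‖sg z η‖ < 1 := by
  rw [sg, norm_div, div_lt_one (norm_pos_iff.2 (den_ne hz hη))]
  refine lt_of_pow_lt_pow_left₀ 2 (norm_nonneg _) ?_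
  have h1 : ‖z‖ ^ 2 < 1 := pow_lt_one₀ (norm_nonneg _) hz two_ne_zero
  have h2 : ‖η‖ ^ 2 < 1 := pow_lt_one₀ (norm_nonneg _) hη two_ne_zero
  have h3 := mul_pos (sub_pos.2 h1) (sub_pos.2 h2)
  simp only [Complex.sq_norm, normSq_apply] at h3 ⊢
  simp
  nlinarith

theorem rt_sq (x : ℂ) : (x ^ (1 / 2 : ℂ)) ^ 2 = x := by
  simp

theorem tm_le (n : ℕ) (W : ℕ → ℂ) (hz : ‖z‖ < 1) (hη : ‖η‖ < 1) :
    ‖tm n W z η‖ ≤ 2 * ∑ k ∈ range (n + 1), ‖W k‖ := by
  rw [tm, norm_mul, mul_comm]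
  refine mul_le_mul ?_ ((norm_sum_le _ _).trans (sum_le_sum fun k _ => ?_)) (norm_nonneg _)
    zero_le_two
  · refine le_of_pow_le_pow_left₀ two_ne_zero zero_le_two ?_
    rw [← norm_pow, rt_sq]
    have := norm_add_le 1 (conj z * η)
    rw [norm_one] at this
    linarith [zη hz hη]
  · rw [norm_mul, norm_mul, norm_pow, norm_pow, mul_assoc]
    exact mul_le_of_le_one_right (norm_nonneg _) (mul_le_one₀ (pow_le_one₀ (norm_nonneg _) hz.le)
      (by positivity) (pow_le_one₀ (norm_nonneg _) (sg_lt hz hη).le))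

theorem tm_diff (n : ℕ) (W : ℕ → ℂ) (hz : ‖z‖ < 1) : DifferentiableOn ℂ (tm n W z) (ball 0 1) := by
  intro η hη
  rw [mem_ball_zero_iff] at hη
  have h1 : DifferentiableAt ℂ (sg z) η := by
    unfold sg
    exact DifferentiableAt.div (by fun_prop) (by fun_prop) (den_ne hz hη)
  have h2 : DifferentiableAt ℂ (fun η => (1 + conj z * η) ^ (1 / 2 : ℂ)) η :=
    DifferentiableAt.cpow_const (by fun_prop) (slit hz hη)
  unfold tm
  exact (DifferentiableAt.mul (by fun_prop) h2).differentiableWithinAt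

theorem shift {c : ℕ → ℂ} {s : ℂ} (h : HasSum c s) (i : ℕ) :
    HasSum (fun l => if i ≤ l then c (l - i) else 0) s := by
  rw [← hasSum_nat_add_iff' i, sum_eq_zero fun l hl => if_neg (by simpa using hl)]
  simpa using h

theorem tm_sum (n : ℕ) (W : ℕ → ℂ) (hz : ‖z‖ < 1) (hη : ‖η‖ < 1) :
    HasSum (fun l => cf n W z l * η ^ l) (tm n W z η) := by
  have h := hasSum_sum (s := range (n + 1)) fun k _ => hasSum_sum (s := range (n + 1)) fun i _ =>
    shift ((binom ((k : ℝ) - 1 / 2) (zη hz hη)).mul_left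
      (W k * k.choose i * z ^ (n - i) * η ^ i)) i
  have e : tm n W z η = ∑ k ∈ range (n + 1), ∑ i ∈ range (n + 1),
      W k * k.choose i * z ^ (n - i) * η ^ i * (1 + conj z * η) ^ ((-((k : ℝ) - 1 / 2) : ℝ) : ℂ) := by
    rw [tm, sum_mul]
    refine sum_congr rfl fun k hk => ?_
    have hk' : k ≤ n := by simpa [Nat.lt_succ_iff] using hk
    have e1 : (1 + conj z * η) ^ ((-((k : ℝ) - 1 / 2) : ℝ) : ℂ) =
        (1 + conj z * η) ^ (1 / 2 : ℂ) / (1 + conj z * η) ^ k := by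
      rw [← cpow_natCast, ← cpow_sub _ _ (den_ne hz hη)]
      congr 1
      push_cast
      ring
    have e2 : z ^ (n - k) * (z + η) ^ k =
        ∑ i ∈ range (n + 1), (k.choose i : ℂ) * z ^ (n - i) * η ^ i := by
      rw [add_comm z, add_pow, mul_sum]
      rw [← sum_subset (range_subset_range.2 (Nat.succ_le_succ hk'))]
      · refine sum_congr rfl fun i hi => ?_
        have hi' : i ≤ k := by simpa [Nat.lt_succ_iff] using hi
        rw [show n - i = (n - k) + (k - i) by omega, pow_add]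
        ring
      · intro i _ hi
        rw [Nat.choose_eq_zero_of_lt (by simpa using hi)]
        simp
    rw [← sum_mul, e1, sg, div_pow]
    simp only [mul_assoc (W k), ← mul_sum]
    rw [← e2]
    ring
  rw [e]
  refine HasSum.congr_fun h fun l => ?_
  rw [sum_comm, cf, sum_mul]
  have e3 : range (min n l + 1) = (range (n + 1)).filter fun i => i ≤ l := by
    ext i
    simp
  rw [e3, sum_filter]
  refine sum_congr rfl fun i _ => ?_
  split_ifs with hi
  · rw [xc, sum_mul, sum_mul, sum_mul]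
    refine sum_congr rfl fun k _ => ?_
    rw [show η ^ l = η ^ i * η ^ (l - i) by rw [← pow_add, Nat.add_sub_cancel' hi], mul_pow]
    ring
  · simp

/-- coefficient functional -/
noncomputable def co (g : ℂ → ℂ) (l : ℕ) : ℂ :=
  ∫ x, 2 ^ l * (g ((1 / 2 : ℝ) * ee x) * ee (-((l : ℤ) * x))) ∂mu

theorem half (x : ℝ) : (((1 / 2 : ℝ) : ℂ) * ee x) ∈ ball (0 : ℂ) 1 :=
  w_mem (by norm_num) (by norm_num) x

theorem co_eq {g : ℂ → ℂ} {a : ℕ → ℂ}
    (ha : ∀ η ∈ ball (0 : ℂ) 1, HasSum (fun l => a l * η ^ l) (g η)) (l : ℕ) : co g l = a l := by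
  have hs : Summable fun l => ‖a l * ((1 / 2 : ℝ) : ℂ) ^ l‖ :=
    summable_norm_iff.2 (ha _ (by simp; norm_num)).summable
  have h := fc_at hs (m := fun l : ℕ => (l : ℤ)) Nat.cast_injective
    (g := fun x => g ((1 / 2 : ℝ) * ee x)) (fun x => by
      simpa only [mul_pow, ee_pow, Int.cast_natCast, mul_assoc] using ha _ (half x)) l
  rw [co, integral_const_mul]
  rw [fc] at h
  rw [h]
  push_cast
  rw [mul_left_comm, ← mul_pow]
  simp

theorem co_le {g : ℂ → ℂ} {C : ℝ} (h : ∀ η ∈ ball (0 : ℂ) 1, ‖g η‖ ≤ C) (l : ℕ) :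
    ‖co g l‖ ≤ 2 ^ l * C := by
  have := norm_integral_le_of_norm_le_const (μ := mu) (C := 2 ^ l * C)
    (f := fun x => 2 ^ l * (g ((1 / 2 : ℝ) * ee x) * ee (-((l : ℤ) * x))))
    (Eventually.of_forall fun x => by
      simp only [norm_mul, norm_ee, mul_one, norm_pow, Complex.norm_ofNat]
      exact mul_le_mul_of_nonneg_left (h _ (half x)) (by positivity))
  simpa [co] using this

theorem co_sum {g : ℕ → ℂ → ℂ} {u : ℕ → ℝ} (hu : Summable u)
    (hg : ∀ n, DifferentiableOn ℂ (g n) (ball 0 1))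
    (h : ∀ n, ∀ η ∈ ball (0 : ℂ) 1, ‖g n η‖ ≤ u n) (l : ℕ) :
    HasSum (fun n => co (g n) l) (co (fun η => ∑' n, g n η) l) := by
  refine hasSum_int (u := u) (b := fun _ => 2 ^ l) (fun n => ?_) hu continuous_const
    (fun n x => ?_) fun x => ?_
  · have := (hg n).continuousOn.comp_continuous (f := fun x => ((1 / 2 : ℝ) : ℂ) * ee x)
      (by fun_prop) half
    exact continuous_const.mul (this.mul (by fun_prop))
  · simp only [norm_mul, norm_ee, mul_one, norm_pow, Complex.norm_ofNat]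
    rw [mul_comm]
    exact mul_le_mul_of_nonneg_right (h _ _ (half x)) (by positivity)
  · exact (((Summable.of_norm_bounded hu fun n => h n _ (half x)).hasSum).mul_right _).mul_left _

theorem cf_le (n : ℕ) (W : ℕ → ℂ) (hz : ‖z‖ < 1) (l : ℕ) :
    ‖cf n W z l‖ ≤ 2 ^ l * (2 * ∑ k ∈ range (n + 1), ‖W k‖) := by
  rw [← co_eq (g := tm n W z) (fun η hη => tm_sum n W hz (mem_ball_zero_iff.1 hη)) l]
  exact co_le (fun η hη => tm_le n W hz (mem_ball_zero_iff.1 hη)) l

end Pool.Agent.MP_6e64bc_an.H72.Pra
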