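import Pool.Agent.MP_6e64bc_an.H72.Cert

open Finset

namespace Pool.Agent.MP_6e64bc_an.H72

/-- ordered insertion -/
def ins (k : ℕ) : List ℕ → List ℕ
  | [] => [k]
  | a :: l => if a ≤ k then k :: a :: l else a :: ins k l

/-- normal form of a monomial -/
def nf : List ℕ → List ℕ
  | [] => []
  | a :: l => ins a (nf l)

/-- Leibniz expansion -/
def dl : List ℕ → List (List ℕ)
  | [] => []
  | k :: l => ((k + 1) :: l) :: (dl l).map (k :: ·)

/-- one step of the recursion for the jets -/
def stp (i : ℕ) : ℕ → List (List (List ℕ × ℚ)) → List (List ℕ × ℚ)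
  | _, [] => []
  | j, p :: t => p.map (fun a => (ins (j + 1) a.1,
      -((2 * i + 1 - j : ℚ) / (j + 2).factorial / (2 * (i + 1))) * a.2)) ++ stp i (j + 1) t

/-- the jets in reverse order -/
def rrs : ℕ → List (List (List ℕ × ℚ))
  | 0 => [[([], 1)]]
  | i + 1 => stp i 0 (rrs i) :: rrs i

/-- the jet polynomials -/
def rr (i : ℕ) : List (List ℕ × ℚ) := (rrs i).headD []

/-- value of a sparse linear form -/
def ev (row : List (Var × ℚ)) (X : Var → ℝ) : ℝ := (row.map fun a => (a.2 : ℝ) * X a.1).sum

/-- coefficient of a sparse linear form -/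
def den (row : List (Var × ℚ)) (v : Var) : ℚ := ((row.filter fun a => a.1 = v).map Prod.snd).sum

/-- derivative relation -/
def rowD (l : List ℕ) : List (Var × ℚ) :=
  (.mon l, -1) :: (.mon (ins 1 l), 1 / 2 - l.length) :: (dl l).map fun m => (.mon (nf m), 1)

/-- leading moment through the components, second variable -/
def cw (b : ℚ) (e : ℕ) : List (Var × ℚ) :=
  (List.range (e + 1)).map fun N => (.cc N, po (1 / 2) e / po (b + 1) e * ps b (1 / 2) e N)

/-- leading moment through the components, first variable -/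
def cz (b : ℚ) (e : ℕ) : List (Var × ℚ) := (List.range (e + 1)).map fun N =>
  (.cc N, -(po (b + 1 / 2) e / po (b + 1) e * ((-1) ^ N * ps b (b + 1 / 2) e N)))

/-- jet relation -/
def rowJ (b : ℚ) (e : ℕ) : List (Var × ℚ) :=
  cw b e ++ (rr e).map fun a => (.mon a.1, -((e.factorial : ℚ) * (1 - 2 * e) * a.2))

/-- symmetry relation -/
def rowS (b : ℚ) (e : ℕ) : List (Var × ℚ) := cw b e ++ cz b e

/-- fractional moment -/
def rowI (b : ℚ) (D : ℕ) : List (Var × ℚ) := (.tt, 1) ::
  (List.range (D + 1)).map fun N => (.cc N, (-1) ^ N * ps b (b + 1 / 2) (1 / 2) N)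

/-- all relations -/
def rows (b : ℚ) (D : ℕ) (ld : List (List ℕ)) (lj ls : List ℕ) : List (List (Var × ℚ)) :=
  rowI b D :: (ld.map rowD ++ lj.map (rowJ b) ++ ls.map (rowS b))

/-- check of one relation against the integer data -/
def okw (dat : List Rc) (c : ℕ) (g : ℚ) (row : List (Var × ℚ)) : Bool :=
  (row.all fun a => (dat.map Rc.v).count a.1 == 1) &&
    dat.all fun r => decide ((r.rc.getD c 0 : ℚ) = g * den row r.v)

/-- energy coefficient of a variable -/
def en {K : Type} [Field K] (b : K) (D : ℕ) : Var → K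
  | .mon _ => 0
  | .cc N => kk b N
  | .tt => 1 / KK b (D + 1)

/-- weight of a variable -/
def vw : Var → ℕ
  | .mon l => l.sum
  | _ => 0

/-- check of the remaining tables -/
def okt (b Γ Λ : ℚ) (D : ℕ) (ms hs : List (List ℕ)) (pz : List ℤ) (dat : List Rc) : Bool :=
  decide (dat.map Rc.v = ms.map .mon ++ (List.range (D + 1)).map .cc ++ [.tt]) &&
  (dat.all fun r => decide ((r.ez : ℚ) ≤ Γ * en b D r.v) && r.wt == vw r.v &&
    r.fib.all fun a => decide (r.v = .mon (nf (hs.getD a.1 [] ++ hs.getD a.2 [])))) &&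
  (dat.flatMap Rc.fib).isPerm
    ((List.range hs.length).flatMap fun i => (List.range hs.length).map fun l => (i, l)) &&
  (dat.all fun r => decide (2 * r.wt < pz.length)) &&
  (List.range pz.length).all fun w => decide ((pz.getD w 0 : ℚ) = Λ * po b w)

theorem lsum_range {α : Type} (l : List α) (d : α) (F : α → ℝ) :
    ∑ a ∈ range l.length, F (l.getD a d) = (l.map F).sum := by
  induction l with
  | nil => simp
  | cons a l ih => rw [List.length_cons, sum_range_succ', add_comm]; simp [← ih]

theorem ev_den (row : List (Var × ℚ)) (vs : List Var) (h : ∀ a ∈ row, vs.count a.1 = 1)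
    (X : Var → ℝ) : (vs.map fun v => (den row v : ℝ) * X v).sum = ev row X := by
  induction row with
  | nil => simp [den, ev]
  | cons a row ih =>
    have h1 : ∀ vs : List Var, (vs.map fun v => ((if a.1 = v then a.2 else 0 : ℚ) : ℝ) * X v).sum =
        vs.count a.1 * (a.2 * X a.1) := fun vs => by
      induction vs with
      | nil => simp
      | cons v vs ih =>
        rw [List.map_cons, List.sum_cons, ih, List.count_cons]
        by_cases e : a.1 = v
        · simp [e]; ring
        · simp [e, Ne.symm e]
    have := ih fun c hc => h c (List.mem_cons_of_mem _ hc)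
    have h2 : ∀ v, den (a :: row) v = (if a.1 = v then a.2 else 0) + den row v := fun v => by
      by_cases e : a.1 = v <;> simp [den, e]
    simp only [h2, ev, List.map_cons, List.sum_cons, Rat.cast_add, add_mul, List.sum_map_add] at *
    rw [this, h1, h a List.mem_cons_self]; simp

theorem okw_ev {dat : List Rc} {c : ℕ} {g : ℚ} {row : List (Var × ℚ)}
    (h : okw dat c g row = true) (X : Var → ℝ) :
    ∑ a ∈ range dat.length, ((dat.getD a r0).rc.getD c 0 : ℝ) * X (dat.getD a r0).v =
      g * ev row X := by
  simp only [okw, Bool.and_eq_true, List.all_eq_true, beq_iff_eq, decide_eq_true_eq] at h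
  rw [lsum_range dat r0 fun r => (r.rc.getD c 0 : ℝ) * X r.v, ← ev_den row _ h.1, List.map_map,
    ← List.sum_map_mul_left]
  refine congrArg _ (List.map_congr_left fun r hr => ?_)
  have : ((r.rc.getD c 0 : ℤ) : ℝ) = g * den row r.v := by exact_mod_cast h.2 r hr
  simp only [this, mul_assoc, Function.comp]

end Pool.Agent.MP_6e64bc_an.H72
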