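import Pool.Agent.MP_6e64bc_an.H72.Spec

open Finset PowerSeries

namespace Pool.Agent.MP_6e64bc_an.H72.Ser

abbrev A := Polynomial ℂ

theorem ex_sqrt (G : A⟦X⟧) (hG : constantCoeff G = 1) :
    ∃ R : A⟦X⟧, constantCoeff R = 1 ∧ R ^ 2 * G = 1 := by
  have h0 : constantCoeff (G - 1) = 0 := by simp [hG]
  have ha : HasSubst (G - 1) := HasSubst.of_constantCoeff_zero' h0
  have hB : binomialSeries A (-1 / 2 : ℂ) ^ 2 * (1 + X) = 1 := by
    have h1 := binomialSeries_nat (R := ℂ) (A := A) 1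
    rw [pow_one] at h1
    rw [← h1, sq, ← binomialSeries_add, ← binomialSeries_add]
    norm_num
  refine ⟨substAlgHom ha (binomialSeries A (-1 / 2 : ℂ)), ?_, ?_⟩
  · have h := constantCoeff_subst_eq_zero (a := G - 1) h0 (binomialSeries A (-1 / 2 : ℂ) - 1)
      (by simp)
    rw [← coe_substAlgHom ha, map_sub, map_one, map_sub, map_one, sub_eq_zero] at h
    exact h
  · have h := congrArg (substAlgHom ha) hB
    rw [map_mul, map_pow, map_add, map_one, substAlgHom_X, add_sub_cancel] at h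
    exact h

theorem sq_uniq {r s G : ℂ⟦X⟧} (hr : constantCoeff r = 1) (hs : constantCoeff s = 1)
    (h1 : r ^ 2 * G = 1) (h2 : s ^ 2 * G = 1) : r = s := by
  have h : (r - s) * (r + s) = 0 := by linear_combination r ^ 2 * (-h2) + s ^ 2 * h1
  rcases mul_eq_zero.1 h with h | h
  · exact sub_eq_zero.1 h
  · have := congrArg constantCoeff h
    rw [map_add, hr, hs, map_zero] at this
    norm_num at this

theorem refl_coeff {P : A} {n : ℕ} (h : ∀ c : ℂ, c ≠ 0 → P.eval c = c ^ n * P.eval c⁻¹) :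
    (∀ k, n < k → P.coeff k = 0) ∧ ∀ k, k ≤ n → P.coeff (n - k) = P.coeff k := by
  set d := P.natDegree + n with hd
  have e : Polynomial.X ^ d * P = Polynomial.X ^ n * P.reflect d := by
    refine Polynomial.eq_of_infinite_eval_eq _ _ ((Set.finite_singleton (0 : ℂ)).infinite_compl.mono
      fun c hc => ?_)
    have hc : c ≠ 0 := hc
    let := invertibleOfNonzero (inv_ne_zero hc)
    have := Polynomial.eval₂_reflect_mul_pow (RingHom.id ℂ) c⁻¹ d P (by omega)
    simp only [invOf_eq_inv, inv_inv, Polynomial.eval₂_id] at this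
    simp only [Set.mem_ofPred_eq, Polynomial.eval_mul, Polynomial.eval_pow, Polynomial.eval_X]
    rw [h c hc, ← this, inv_pow]
    field_simp
  have key : ∀ j, P.coeff j = P.coeff (Polynomial.revAt d (d + j - n)) := fun j => by
    have := congrArg (fun p => p.coeff (j + d)) e
    simp only [Polynomial.coeff_X_pow_mul] at this
    rw [this, show j + d = d + j - n + n by omega, Polynomial.coeff_X_pow_mul,
      Polynomial.coeff_reflect]
  refine ⟨fun k hk => ?_, fun k hk => ?_⟩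
  · rw [key, Polynomial.revAt_eq_self_of_lt (by omega)]
    exact Polynomial.coeff_eq_zero_of_natDegree_lt (by omega)
  · rw [key k, Polynomial.revAt_le (by omega)]
    congr 1; omega

/-- coefficientwise derivative -/
noncomputable def D (G : A⟦X⟧) : A⟦X⟧ := mk fun n => (coeff n G).derivative

theorem D_mul (G H : A⟦X⟧) : D (G * H) = D G * H + G * D H := by
  ext1 n
  simp [D, coeff_mul, sum_add_distrib]

theorem D_one : D 1 = 0 := by
  ext1 n
  simp only [D, coeff_mk, coeff_one, map_zero]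
  split_ifs <;> simp

theorem D_C (g : ℂ⟦X⟧) : D (map Polynomial.C g) = 0 := by
  ext1 n
  simp [D]

theorem D_rel {R Q : A⟦X⟧} (h : R ^ 2 * Q = 1) : 2 * D (Q * R) = D Q * R := by
  have := congrArg D h
  rw [sq, D_mul, D_mul, D_one] at this
  rw [D_mul]
  linear_combination R * Q * this - (2 * D R * Q + R * D Q) * h

/-- the `i`-th inner coefficient -/
noncomputable def K (i : ℕ) (G : A⟦X⟧) : ℂ⟦X⟧ := mk fun n => (coeff n G).coeff i

theorem K_mul (i : ℕ) (G H : A⟦X⟧) :
    K i (G * H) = ∑ p ∈ antidiagonal i, K p.1 G * K p.2 H := by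
  ext1 n
  simp only [K, coeff_mul, coeff_mk, map_sum, Polynomial.finsetSum_coeff, Polynomial.coeff_mul]
  exact sum_comm

theorem K_D (i : ℕ) (G : A⟦X⟧) : K i (D G) = (i + 1 : ℂ) • K (i + 1) G := by
  ext1 n
  simp [K, D, Polynomial.coeff_derivative, mul_comm]

theorem K_C (i : ℕ) (g : ℂ⟦X⟧) (G : A⟦X⟧) : K i (map Polynomial.C g * G) = g * K i G := by
  ext1 n
  simp [K, coeff_mul]

theorem K_two (i : ℕ) (G : A⟦X⟧) : K i (2 * G) = (2 : ℂ) • K i G := by
  ext1 n
  simp [K, two_mul]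

theorem K_rel {R Q : A⟦X⟧} (h : R ^ 2 * Q = 1) (i : ℕ) :
    (2 * (i + 1) : ℂ) • (K 0 Q * K (i + 1) R) =
      -∑ j ∈ range (i + 1), (2 * i + 1 - j : ℂ) • (K (j + 1) Q * K (i - j) R) := by
  have := congrArg (K i) (D_rel h)
  rw [K_two, K_D, K_mul, K_mul, Nat.antidiagonal_succ, sum_cons, sum_map,
    Nat.sum_antidiagonal_eq_sum_range_succ_mk, Nat.sum_antidiagonal_eq_sum_range_succ_mk,
    smul_smul, smul_add, ← eq_sub_iff_add_eq, smul_sum, ← sum_sub_distrib] at this
  rw [this, ← sum_neg_distrib]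
  refine sum_congr rfl fun j _ => ?_
  simp only [K_D, Function.Embedding.prodMap, Function.Embedding.coeFn_mk, Prod.map,
    Function.Embedding.refl_apply, smul_mul_assoc]
  module

theorem K_zero {R Q : A⟦X⟧} (h : R ^ 2 * Q = 1) : K 0 R ^ 2 * K 0 Q = 1 := by
  have := congrArg (K 0) h
  rw [sq, K_mul] at this
  simp only [Nat.antidiagonal_zero, sum_singleton, K_mul] at this
  rw [sq, this]
  ext1 n
  simp only [K, coeff_mk, coeff_one]
  split_ifs <;> simp

theorem eu_mul (G H : ℂ⟦X⟧) : eu (G * H) = eu G * H + G * eu H := by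
  ext1 n
  simp only [eu, coeff_mul, coeff_mk, map_add, mul_sum, ← sum_add_distrib]
  refine sum_congr rfl fun p hp => ?_
  rw [← mem_antidiagonal.1 hp]
  push_cast; ring

theorem eu_YY (f : ℂ → ℂ) (k : ℕ) : eu (YY f k) = (k : ℂ) • YY f k + YY f (k + 1) := by
  ext1 n
  simp only [eu, YY, coeff_mk, map_add, map_smul, smul_eq_mul]
  rw [Nat.descFactorial_succ (n + 1) (k + 1)]
  rcases le_or_gt k n with h | h
  · rw [Nat.add_sub_add_right]
    push_cast [h]; ring
  · rw [Nat.descFactorial_of_lt (show n + 1 < k + 1 by omega)]; simp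

/-- Taylor coefficients -/
noncomputable def aa (f : ℂ → ℂ) (n : ℕ) : ℂ := iteratedDeriv n f 0 / n.factorial

/-- the difference quotient -/
noncomputable def QQ (f : ℂ → ℂ) : A⟦X⟧ :=
  mk fun n => Polynomial.C (aa f (n + 1)) * ∑ k ∈ range (n + 1), Polynomial.X ^ k

/-- the derivative at the first point -/
noncomputable def FZ (f : ℂ → ℂ) : A⟦X⟧ := map Polynomial.C (YY f 0)

/-- the derivative at the second point -/
noncomputable def FW (f : ℂ → ℂ) : A⟦X⟧ :=
  mk fun n => Polynomial.C ((n + 1) * aa f (n + 1)) * Polynomial.X ^ n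

theorem YY0 (f : ℂ → ℂ) (n : ℕ) : coeff n (YY f 0) = (n + 1) * aa f (n + 1) := by
  simp [YY, aa]

/-- evaluation at the pair `(z s, w s)` -/
noncomputable def psi (z w : ℂ) : A⟦X⟧ →+* ℂ⟦X⟧ :=
  (rescale z).comp (map (Polynomial.evalRingHom (w / z)))

theorem coeff_psi (z w : ℂ) (G : A⟦X⟧) (n : ℕ) :
    coeff n (psi z w G) = z ^ n * (coeff n G).eval (w / z) := by
  simp [psi, coeff_rescale]

theorem const_psi (z w : ℂ) {G : A⟦X⟧} (h : constantCoeff G = 1) :
    constantCoeff (psi z w G) = 1 := by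
  rw [← coeff_zero_eq_constantCoeff_apply] at h ⊢
  simp [coeff_psi, h]

theorem psi_sum {z : ℂ} (hz : z ≠ 0) (w : ℂ) {G : A⟦X⟧} {n : ℕ}
    (h : ∀ k, n < k → (coeff n G).coeff k = 0) : coeff n (psi z w G) =
      ∑ k ∈ range (n + 1), (coeff n G).coeff k * z ^ (n - k) * w ^ k := by
  rw [coeff_psi, Polynomial.eval_eq_sum_range' (n := n + 1) (Nat.lt_succ_of_le
    (Polynomial.natDegree_le_iff_coeff_eq_zero.2 h)), mul_sum]
  refine sum_congr rfl fun k hk => ?_
  rw [pow_sub₀ _ hz (Nat.lt_succ_iff.1 (mem_range.1 hk)), div_pow]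
  field_simp

theorem psi_QQ {z : ℂ} (hz : z ≠ 0) (w : ℂ) (f : ℂ → ℂ) (n : ℕ) : coeff n (psi z w (QQ f)) =
    aa f (n + 1) * ∑ k ∈ range (n + 1), w ^ k * z ^ (n - k) := by
  simp only [coeff_psi, QQ, coeff_mk, Polynomial.eval_mul, Polynomial.eval_C,
    Polynomial.eval_finsetSum, Polynomial.eval_pow, Polynomial.eval_X, mul_sum]
  refine sum_congr rfl fun k hk => ?_
  rw [pow_sub₀ _ hz (Nat.lt_succ_iff.1 (mem_range.1 hk)), div_pow]
  field_simp

theorem psi_FZ (z w : ℂ) (f : ℂ → ℂ) : psi z w (FZ f) = rescale z (YY f 0) := by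
  ext1 n
  simp [coeff_psi, FZ, coeff_rescale]

theorem psi_FW {z : ℂ} (hz : z ≠ 0) (w : ℂ) (f : ℂ → ℂ) : psi z w (FW f) = rescale w (YY f 0) := by
  ext1 n
  simp only [coeff_psi, FW, coeff_rescale, coeff_mk, YY0, Polynomial.eval_mul, Polynomial.eval_C,
    Polynomial.eval_pow, Polynomial.eval_X, div_pow]
  field_simp

theorem sym_coeff {G : A⟦X⟧} (h : ∀ c : ℂ, c ≠ 0 → psi 1 c G = psi c 1 G) (n : ℕ) :
    (∀ k, n < k → (coeff n G).coeff k = 0) ∧
      ∀ k, k ≤ n → (coeff n G).coeff (n - k) = (coeff n G).coeff k :=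
  refl_coeff fun c hc => by simpa [coeff_psi] using congrArg (coeff n) (h c hc)

theorem D_QQ (f : ℂ → ℂ) : (C Polynomial.X - 1) * D (QQ f) + QQ f = FW f := by
  ext1 n
  have := congrArg Polynomial.derivative (geom_sum_mul (Polynomial.X : A) (n + 1))
  simp only [Polynomial.derivative_mul, map_sub, Polynomial.derivative_X, Polynomial.derivative_one,
    Polynomial.derivative_X_pow] at this
  simp only [D, QQ, FW, sub_mul, one_mul, map_add, map_sub, coeff_C_mul, coeff_mk,
    Polynomial.derivative_mul, Polynomial.derivative_C, map_mul, map_natCast, map_one]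
  simp only [Nat.add_sub_cancel, Nat.cast_add, Nat.cast_one, map_add, map_natCast, map_one] at this
  linear_combination Polynomial.C (aa f (n + 1)) * this

theorem XW_coeff (G : A⟦X⟧) (n k : ℕ) : XW (fun k => (coeff n G).coeff k) k =
    (coeff n (G - 2 * ((C Polynomial.X - 1) * D G))).coeff k := by
  simp only [XW, D, two_mul, sub_mul, one_mul, map_add, map_sub, coeff_C_mul, coeff_mk,
    Polynomial.coeff_sub, Polynomial.coeff_add, Polynomial.coeff_derivative]
  cases k with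
  | zero => simp; ring
  | succ k => rw [Polynomial.coeff_X_mul, Polynomial.coeff_derivative]; push_cast; ring

/-- shift of the inner variable -/
noncomputable def tau : A⟦X⟧ →+* A⟦X⟧ := map (Polynomial.taylorAlgHom (1 : ℂ)).toRingHom

theorem coeff_tau (G : A⟦X⟧) (n : ℕ) : coeff n (tau G) = Polynomial.taylor 1 (coeff n G) := by
  simp [tau]

theorem K_tau {G : A⟦X⟧} {n : ℕ} (h : ∀ k, n < k → (coeff n G).coeff k = 0) (i : ℕ) :
    coeff n (K i (tau G)) = ∑ k ∈ range (n + 1), (coeff n G).coeff k * k.choose i := by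
  rw [K, coeff_mk, coeff_tau]
  conv_lhs => rw [(coeff n G).as_sum_range' (n + 1) (Nat.lt_succ_of_le
    (Polynomial.natDegree_le_iff_coeff_eq_zero.2 h))]
  simp [Polynomial.taylor_monomial, add_comm (Polynomial.X : A), Polynomial.coeff_one_add_X_pow]

theorem K_QQ (f : ℂ → ℂ) (i : ℕ) : ((i + 1).factorial : ℂ) • K i (tau (QQ f)) = YY f i := by
  ext1 n
  have h : ∑ k ∈ range (n + 1), k.choose i = (n + 1).choose (i + 1) := by
    induction n with
    | zero => cases i <;> simp [Nat.choose_succ_succ']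
    | succ n ih => rw [sum_range_succ, ih, Nat.choose_succ_succ' (n + 1), add_comm]
  simp only [K, map_smul, coeff_mk, coeff_tau, QQ, YY, Polynomial.taylor_mul, Polynomial.taylor_C,
    map_sum, Polynomial.taylor_X_pow, Polynomial.coeff_C_mul, Polynomial.finsetSum_coeff,
    map_one, add_comm (Polynomial.X : A), Polynomial.coeff_one_add_X_pow, ← Nat.cast_sum, h,
    Nat.descFactorial_eq_factorial_mul_choose, smul_eq_mul, aa]
  push_cast; ring

theorem tau_FZ (f : ℂ → ℂ) : tau (FZ f) = FZ f := by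
  ext1 n
  simp [coeff_tau, FZ]

theorem K_zero_tau (G : A⟦X⟧) : K 0 (tau G) = psi 1 1 G := by
  ext1 n
  simp [K, coeff_tau, coeff_psi]

theorem psi_sym {f : ℂ → ℂ} {R : A⟦X⟧} (h0 : constantCoeff R = 1) (h : R ^ 2 * QQ f = 1) {c : ℂ}
    (hc : c ≠ 0) : psi 1 c R = psi c 1 R := by
  have e : psi 1 c (QQ f) = psi c 1 (QQ f) := by
    ext1 n
    rw [psi_QQ one_ne_zero, psi_QQ hc, ← sum_range_reflect]
    simp
  have h1 := congrArg (psi 1 c) h
  have h2 := congrArg (psi c 1) h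
  rw [map_mul, map_pow, map_one] at h1 h2
  exact sq_uniq (const_psi _ _ h0) (const_psi _ _ h0) h1 (e ▸ h2)

theorem supp_W {f : ℂ → ℂ} {R : A⟦X⟧} (h0 : constantCoeff R = 1) (h : R ^ 2 * QQ f = 1) (n k : ℕ)
    (hk : n < k) : (coeff n (FZ f * R)).coeff k = 0 := by
  simp only [FZ, coeff_mul, coeff_map, Polynomial.finsetSum_coeff, Polynomial.coeff_C_mul]
  refine sum_eq_zero fun p hp => ?_
  have := mem_antidiagonal.1 hp
  rw [(sym_coeff (fun c hc => psi_sym h0 h hc) p.2).1 k (by omega), mul_zero]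

theorem symm_W {f : ℂ → ℂ} {R : A⟦X⟧} (h0 : constantCoeff R = 1) (h : R ^ 2 * QQ f = 1) (n k : ℕ)
    (hk : k ≤ n) : XW (fun k => (coeff n (FZ f * R)).coeff k) (n - k) =
      XW (fun k => (coeff n (FZ f * R)).coeff k) k := by
  have e : FZ f * R - 2 * ((C Polynomial.X - 1) * D (FZ f * R)) = FZ f * FW f * R ^ 3 := by
    have h1 := D_rel h
    rw [D_mul] at h1
    rw [D_mul, ← D_QQ, show D (FZ f) = 0 from D_C _]
    linear_combination (2 * FZ f * (C Polynomial.X - 1) * D R - FZ f * R) * h -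
      FZ f * (C Polynomial.X - 1) * R ^ 2 * h1
  rw [XW_coeff, XW_coeff, e]
  refine (sym_coeff (fun c hc => ?_) n).2 k hk
  simp only [map_mul, map_pow, psi_FZ, psi_FW one_ne_zero, psi_FW hc, psi_sym h0 h hc]
  ring

theorem jet_alg {f : ℂ → ℂ} (f1 : deriv f 0 = 1) {R : A⟦X⟧} (h0 : constantCoeff R = 1)
    (h : R ^ 2 * QQ f = 1) (hmul : ∀ G H, Cv G → Cv H → Cv (G * H)) (hY : ∀ k, Cv (YY f k))
    (hR : Cv (psi 1 1 R)) : ∃ φ y r, Jet f (fun n k => (coeff n (FZ f * R)).coeff k) φ y r := by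
  have h' := congrArg tau h
  rw [map_mul, map_pow, map_one] at h'
  set ρ := fun i => K i (tau R) with hρ
  have q0 : K 0 (tau (QQ f)) = YY f 0 := by simpa using K_QQ f 0
  have k0 : ρ 0 ^ 2 * YY f 0 = 1 := q0 ▸ K_zero h'
  have φ0 : coeff 0 (YY f 0 * ρ 0) = 1 := by
    have a : constantCoeff (YY f 0) = 1 := by
      rw [← coeff_zero_eq_constantCoeff_apply, YY0]; simp [aa, f1]
    rw [coeff_zero_eq_constantCoeff_apply, map_mul, a, hρ]
    simp only [K_zero_tau, const_psi _ _ h0, mul_one]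
  have φne : YY f 0 * ρ 0 ≠ 0 := fun e => by simp [e] at φ0
  have φ2 : (YY f 0 * ρ 0) ^ 2 = YY f 0 := by linear_combination YY f 0 * k0
  have yd : ∀ k, (YY f 0 * ρ 0) ^ 2 * (YY f k * ρ 0 ^ 2) = YY f k := fun k => by
    rw [φ2]; linear_combination YY f k * k0
  have cρ : Cv (ρ 0) := by simpa only [hρ, K_zero_tau] using hR
  have dφ : 2 * eu (YY f 0 * ρ 0) = YY f 1 * ρ 0 ^ 2 * (YY f 0 * ρ 0) := by
    have a := congrArg eu φ2
    rw [sq, eu_mul, eu_YY] at a
    simp only [Nat.cast_zero, zero_smul, zero_add] at a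
    exact mul_left_cancel₀ φne (by linear_combination a - yd 1)
  refine ⟨YY f 0 * ρ 0, fun k => YY f k * ρ 0 ^ 2, fun i => YY f 0 * ρ 0 * ρ i,
    symm_W h0 h, fun n i => ?_, by linear_combination k0, fun i => ?_, ?_, fun k => ?_,
    hmul _ _ (hY 0) cρ, fun k => hmul _ _ (hY k) (sq (ρ 0) ▸ hmul _ _ cρ cρ), φ0, φ2, yd⟩
  · rw [← K_tau (supp_W h0 h n), map_mul, tau_FZ, FZ, K_C, ← mul_assoc, ← sq, φ2]
  · have a := congrArg (· * (YY f 0 * ρ 0 * ρ 0 ^ 2)) (K_rel h' i)
    simp only [smul_mul_assoc, neg_mul, sum_mul, q0] at a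
    refine Eq.trans ?_ (a.trans ?_)
    · congr 1
      linear_combination -(YY f 0 * ρ 0 * ρ (i + 1)) * k0
    · refine congrArg Neg.neg (sum_congr rfl fun j _ => ?_)
      have : ((j + 1 + 1).factorial : ℂ) ≠ 0 := by exact_mod_cast Nat.factorial_ne_zero _
      rw [← K_QQ f (j + 1), smul_mul_assoc, smul_mul_assoc, smul_smul, div_mul_cancel₀ _ this]
      congr 1; simp only [hρ]; ring
  · rw [← dφ, two_mul, ← two_smul ℂ, smul_smul]; simp
  · have a := congrArg eu (yd k)
    rw [eu_mul, sq (YY f 0 * ρ 0), eu_mul, eu_YY] at a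
    refine mul_left_cancel₀ (pow_ne_zero 2 φne) ?_
    rw [mul_sub, mul_add, mul_smul_comm, yd, yd]
    linear_combination a - YY f 0 * ρ 0 * (YY f k * ρ 0 ^ 2) * dφ

end Pool.Agent.MP_6e64bc_an.H72.Ser
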