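import Pool.Agent.MP_6e64bc_an.H80.Coef
import Pool.Agent.MP_6e64bc_an.H26.Bott

open Finset Filter Topology Metric

namespace Pool.Agent.MP_6e64bc_an.H72

/-- rising factorial -/
def po {K : Type} [Field K] (a : K) : ℕ → K
  | 0 => 1
  | n + 1 => po a n * (a + n)

/-- the moment of `u ^ m * (1 - u) ^ w` for the probability `b (1 - u) ^ (b - 1) du` on `(0, 1)` -/
noncomputable def bw (b : ℝ) (m w : ℕ) : ℝ := m.factorial * po b w / po (b + 1) (m + w)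

/-- the binomial coefficient of `-a` over `m` -/
noncomputable def gch (a : ℝ) (m : ℕ) : ℝ := (-1) ^ m * po a m / m.factorial

/-- coefficient of `z ^ (n - i) * conj z ^ (l - i)` in the coefficient of `η ^ l` of
`∑ k, W k * z ^ (n - k) * (z + η) ^ k * (1 + conj z * η) ^ (1 / 2 - k)` -/
noncomputable def xw (l n : ℕ) (W : ℕ → ℝ) (i : ℕ) : ℝ :=
  ∑ k ∈ range (n + 1), W k * k.choose i * gch (k - 1 / 2) (l - i)

/-- weighted square norm on the disc of that coefficient -/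
noncomputable def NW (b : ℝ) (l n : ℕ) (W : ℕ → ℝ) : ℝ :=
  ∑ i ∈ range (min n l + 1), ∑ j ∈ range (min n l + 1),
    xw l n W i * xw l n W j * bw b (n + l - i - j) 0

/-- truncated Prawitz form -/
noncomputable def PW (b : ℝ) (L n : ℕ) (W : ℕ → ℝ) : ℝ :=
  ∑ l ∈ range (L + 1), ((l : ℝ) - 1 / 2) * NW b l n W

/-- coefficients of `W - 2 (w - z) ∂_w W` -/
def XW {K : Type} [Field K] (W : ℕ → K) (k : ℕ) : K := (1 - 2 * k) * W k + 2 * (k + 1) * W (k + 1)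

/-- energy of the `N`-th component -/
def kk {K : Type} [Field K] (b : K) (N : ℕ) : K :=
  if N = 0 then -1 else b / 2 / ((b + 2 * N) * (N - 1 / 2) * po (b + 1 / 2) N * po (b + 3 / 2) N)

/-- value of a rising moment on the `N`-th component -/
def ps {K : Type} [Field K] (b a e : K) (N : ℕ) : K := po (-e) N / (po a N * po (b + 1 + e) N)

/-- tail constant -/
def KK {K : Type} [Field K] (b : K) (N : ℕ) : K :=
  2 * (b + N - 1 / 2) * (b + N + 1 / 2) * (N - 1 / 2) * po (-1 / 2) N ^ 2 /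
    (b ^ 2 * po (b + 1 / 2) N * po (b + 3 / 2) N)

/-- the components `c` of `XW W` in degree `n`: all rising moments in both variables -/
def Comp (b : ℝ) (n : ℕ) (W c : ℕ → ℝ) : Prop :=
  (∀ e : ℝ, 0 ≤ e → ∑ k ∈ range (n + 1), XW W k * (po (1 / 2 + e) k / po (1 / 2) k) =
    po (b + 1 + e) n / po (b + 1) n * ∑ N ∈ range (n + 1), c N * ps b (1 / 2) e N) ∧
  (∀ e : ℝ, 0 ≤ e → ∑ k ∈ range (n + 1),
      XW W k * (po (b + 1 / 2 + e) (n - k) / po (b + 1 / 2) (n - k)) =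
    po (b + 1 + e) n / po (b + 1) n *
      ∑ N ∈ range (n + 1), c N * ((-1) ^ N * ps b (b + 1 / 2) e N))

/-- weight of the `N`-th component in the `l`-th form -/
noncomputable def jj (b : ℝ) (l N : ℕ) : ℝ :=
  if N ≤ l then gch (N + 1 / 2) (l - N) ^ 2 * bw b (l - N) (2 * N) / po (b + 1) (2 * N) else 0

/-- ROW S: orthogonal decomposition -/
def SL2 : Prop := ∀ b : ℝ, 0 < b → ∀ (n : ℕ) (W : ℕ → ℝ), (∀ k, n < k → W k = 0) →
  ∃ c : ℕ → ℝ, Comp b n W c ∧ ∀ l : ℕ, (1 - 2 * (l : ℝ)) ^ 2 * NW b l n W =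
    bw b n 0 * ∑ N ∈ range (n + 1), po (b + 1 + n) N / n.descFactorial N * jj b l N * c N ^ 2

/-- ROW Z: the two hypergeometric sums -/
def WZ : Prop := ∀ b : ℝ, 0 < b →
  (∃ κ : ℝ, 0 < κ ∧ ∀ N, Tendsto (fun L => ∑ l ∈ range (L + 1), jj b l N / (l - 1 / 2)) atTop
    (𝓝 (κ * kk b N))) ∧
  ∀ (N n : ℕ) (c : ℕ → ℝ), 1 ≤ N →
    (∑ j ∈ Ico N n, c j * ((-1) ^ j * ps b (b + 1 / 2) (1 / 2) j)) ^ 2 ≤
      KK b N * ∑ j ∈ Ico N n, kk b j * c j ^ 2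

/-- radius of convergence at least one -/
def Cv (G : PowerSeries ℂ) : Prop :=
  ∀ r : ℝ, 0 ≤ r → r < 1 → Summable fun n => ‖PowerSeries.coeff n G‖ * r ^ n

/-- Euler operator -/
noncomputable def eu (G : PowerSeries ℂ) : PowerSeries ℂ :=
  PowerSeries.mk fun n => n * PowerSeries.coeff n G

/-- `W` is the coefficient array of `f'(z) * ((z - w) / (f z - f w)) ^ (1 / 2)` -/
structure Two (f : ℂ → ℂ) (W : ℕ → ℕ → ℂ) : Prop where
  supp : ∀ n k, n < k → W n k = 0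
  sum : ∀ r : ℝ, 0 ≤ r → r < 1 → Summable fun n => (∑ k ∈ range (n + 1), ‖W n k‖) * r ^ n
  sq : ∀ z ∈ ball (0 : ℂ) 1, ∀ w ∈ ball (0 : ℂ) 1, z ≠ 0 →
    (∑' n, ∑ k ∈ range (n + 1), W n k * z ^ (n - k) * w ^ k) ^ 2 * dslope f z w = deriv f z ^ 2

/-- the series of `z ^ k * f ^ (k + 1)` -/
noncomputable def YY (f : ℂ → ℂ) (k : ℕ) : PowerSeries ℂ := PowerSeries.mk fun n =>
  (n + 1).descFactorial (k + 1) * (iteratedDeriv (n + 1) f 0 / (n + 1).factorial)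

/-- diagonal jets: `φ = f' ^ (1 / 2)`, `y k = z ^ k * f ^ (k + 1) / f'` -/
structure Jet (f : ℂ → ℂ) (W : ℕ → ℕ → ℂ) (φ : PowerSeries ℂ) (y r : ℕ → PowerSeries ℂ) : Prop where
  symm : ∀ n k, k ≤ n → XW (W n) (n - k) = XW (W n) k
  jet : ∀ n i, ∑ k ∈ range (n + 1), W n k * k.choose i = PowerSeries.coeff n (φ * r i)
  r0 : r 0 = 1
  rs : ∀ i : ℕ, (2 * (i + 1) : ℂ) • r (i + 1) =
    -∑ j ∈ range (i + 1), ((2 * i + 1 - j : ℂ) / (j + 2).factorial) • (y (j + 1) * r (i - j))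
  dφ : eu φ = (1 / 2 : ℂ) • (y 1 * φ)
  dy : ∀ k : ℕ, eu (y k) = (k : ℂ) • y k + y (k + 1) - y 1 * y k
  cφ : Cv φ
  cy : ∀ k, Cv (y k)
  φ0 : PowerSeries.coeff 0 φ = 1
  φ2 : φ ^ 2 = YY f 0
  yd : ∀ k, φ ^ 2 * y k = YY f k

/-- ROW R: the series exist -/
def SER : Prop := ∀ f : ℂ → ℂ, DifferentiableOn ℂ f (ball 0 1) → Set.InjOn f (ball 0 1) →
  deriv f 0 = 1 → ∃ W φ y r, Two f W ∧ Jet f W φ y r

/-- ROW P: integrated Prawitz inequality -/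
def PRA : Prop := ∀ f : ℂ → ℂ, DifferentiableOn ℂ f (ball 0 1) → Set.InjOn f (ball 0 1) →
  ∀ W, Two f W → ∀ b ρ : ℝ, 0 < b → 0 < ρ → ρ < 1 → ∀ L : ℕ, ∃ s ≤ 0,
    HasSum (fun n => ρ ^ (2 * n) *
      (PW b L n (fun k => (W n k).re) + PW b L n (fun k => (W n k).im))) s

/-- ROW E: the fractional moment is of lower order for bounded maps -/
def ERR : Prop := ∀ b M : ℝ, 1 / 4 < b → ∃ C : ℝ, ∀ f : ℂ → ℂ, DifferentiableOn ℂ f (ball 0 1) →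
  Set.InjOn f (ball 0 1) → f 0 = 0 → deriv f 0 = 1 → (∀ z ∈ ball (0 : ℂ) 1, ‖f z‖ < M) →
  ∀ W, Two f W → ∀ ρ : ℝ, 1 / 2 ≤ ρ → ρ < 1 → ∀ m : ℕ, ∑ n ∈ range m, ρ ^ (2 * n) * bw b n 1 *
    ‖∑ k ∈ range (n + 1), W n k * ((po b k / po (b + 1 / 2) k : ℝ) : ℂ)‖ ^ 2 ≤ C

/-- ROW T: twisted positivity -/
def TWI : Prop := ∀ b ρ : ℝ, 0 < b → 0 < ρ → ρ < 1 → ∀ (h : ℕ) (P : ℕ → PowerSeries ℂ)
  (φ : PowerSeries ℂ) (w : ℕ → ℕ) (x : ℕ → ℕ → ℝ), (∀ i, Cv (P i)) → Cv φ → ∃ s ≥ 0,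
    HasSum (fun n => ρ ^ (2 * n) * ∑ i ∈ range h, ∑ l ∈ range h, ∑ k ∈ range h, ∑ j ∈ range h,
      x i j * x k l * bw b n (w i + w j + w k + w l) *
        ((PowerSeries.coeff n (P i * P l * φ)).re * (PowerSeries.coeff n (P k * P j * φ)).re +
          (PowerSeries.coeff n (P i * P l * φ)).im * (PowerSeries.coeff n (P k * P j * φ)).im)) s

end Pool.Agent.MP_6e64bc_an.H72
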